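import Mathlib

/-!
Definitions for the Goldman bracket of a curve with its reverse, in terms of a discrete faithful
representation of the fundamental group of the surface in `SL(2, ℝ)`.
-/

set_option autoImplicit false

namespace Pool.Agent.TH94.Goldman

/-- `SL(2, ℝ)`, acting on the hyperbolic plane and on its circle at infinity (the lines of the
plane `ℝ²`; the line of the vector `(x, y)` is the point `x / y` of `ℝ ∪ {∞}`). -/
abbrev SL2R := Matrix.SpecialLinearGroup (Fin 2) ℝ

/-- The determinant of two vectors of the plane. -/
def det2 (p q : Fin 2 → ℝ) : ℝ := p 0 * q 1 - p 1 * q 0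

/-- The orientation of three points at infinity, given by vectors: `0 < ori p q r` says that the
points of `p, q, r` are distinct and in the cyclic order of increasing real numbers, and
`ori p q r < 0` that they are distinct and in the opposite cyclic order. -/
def ori (p q r : Fin 2 → ℝ) : ℝ := det2 p q * det2 q r * det2 r p

/-- `Ends A p r` says that `A` is hyperbolic and that its oriented axis goes from the point at
infinity of `p` (the repelling fixed point of `A`) to the point at infinity of `r` (the attracting
fixed point): `r` is an eigenvector for the eigenvalue of absolute value `> 1`, and `p` for the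
inverse eigenvalue. -/
def Ends (A : SL2R) (p r : Fin 2 → ℝ) : Prop :=
  p ≠ 0 ∧ r ≠ 0 ∧ ∃ l : ℝ, 1 < |l| ∧
    (A : Matrix (Fin 2) (Fin 2) ℝ).mulVec r = l • r ∧
    (A : Matrix (Fin 2) (Fin 2) ℝ).mulVec p = l⁻¹ • p

open Classical in
/-- The oriented intersection sign of the axis of `A` with the axis of `B`: it is `1` if both are
hyperbolic and the ends `(A⁻, B⁻, A⁺, B⁺)` are in the positive cyclic order, `-1` if they are in the
negative cyclic order, and `0` otherwise (the axes do not cross). -/
noncomputable def crossSign (A B : SL2R) : ℤ :=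
  if ∃ a a' b b', Ends A a a' ∧ Ends B b b' ∧ 0 < ori a b a' ∧ 0 < ori a a' b' then 1
  else if ∃ a a' b b', Ends A a a' ∧ Ends B b b' ∧ ori a b a' < 0 ∧ ori a a' b' < 0 then -1
  else 0

variable {Γ : Type} [Group Γ]

/-- The term of the double coset `⟨a⟩ x ⟨b⟩` in the Goldman bracket of the free homotopy classes of
`a` and `b`: the intersection sign of the axes of `a` and `x b x⁻¹` times the free homotopy class of
`a · x b x⁻¹`. -/
noncomputable def term (ρ : Γ →* SL2R) (a b x : Γ) : ConjClasses Γ →₀ ℤ :=
  Finsupp.single (ConjClasses.mk (a * (x * b * x⁻¹))) (crossSign (ρ a) (ρ (x * b * x⁻¹)))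

/-- The Goldman bracket of the free homotopy classes of `a` and `b`, an element of the free abelian
group on the set of conjugacy classes: the sum over the double cosets `⟨a⟩ x ⟨b⟩` of their terms. -/
noncomputable def bracket (ρ : Γ →* SL2R) (a b : Γ) : ConjClasses Γ →₀ ℤ :=
  ∑ᶠ q : DoubleCoset.Quotient (Subgroup.zpowers a : Set Γ) (Subgroup.zpowers b : Set Γ),
    term ρ a b (Quotient.out q)

/-- The double cosets with a nonzero term in the Goldman bracket of the classes of `a` and `b`. -/
def nonzeroTerms (ρ : Γ →* SL2R) (a b : Γ) :
    Set (DoubleCoset.Quotient (Subgroup.zpowers a : Set Γ) (Subgroup.zpowers b : Set Γ)) :=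
  {q | term ρ a b (Quotient.out q) ≠ 0}

/-- The number of terms, counted with multiplicity, of an element of the free abelian group. -/
noncomputable def numTerms (z : ConjClasses Γ →₀ ℤ) : ℕ := z.sum fun _ n => n.natAbs

/-- The pairs of lifts (in the hyperbolic plane) of the closed geodesic of `w` that cross; the lifts
are the axes of the conjugates of `w`. -/
def CrossingPairs (ρ : Γ →* SL2R) (w : Γ) : Type :=
  {p : Γ × Γ // IsConj w p.1 ∧ IsConj w p.2 ∧ crossSign (ρ p.1) (ρ p.2) ≠ 0}

/-- Two crossing pairs of lifts are equivalent if an element of the group takes one to the other as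
unordered pairs. The equivalence classes are the self-intersection points of the closed geodesic of
`w` (a point where `k` branches meet being counted `k (k - 1) / 2` times). -/
def SamePoint (ρ : Γ →* SL2R) (w : Γ) (p q : CrossingPairs ρ w) : Prop :=
  ∃ g : Γ, q.1 = (g * p.1.1 * g⁻¹, g * p.1.2 * g⁻¹) ∨ q.1 = (g * p.1.2 * g⁻¹, g * p.1.1 * g⁻¹)

/-- The self-intersection number of the primitive class of `w`: the number of self-intersection
points of its closed geodesic, that is, of orbits of the group on the unordered pairs of crossing
lifts of the geodesic. -/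
noncomputable def SI (ρ : Γ →* SL2R) (w : Γ) : ℕ∞ := ENat.card (Quot (SamePoint ρ w))

/-- Primitive: not a proper power. -/
def IsPrimitive (w : Γ) : Prop := ∀ (v : Γ) (k : ℕ), 2 ≤ k → w ≠ v ^ k

/-- Discreteness: only finitely many elements have matrix entries below a given bound. -/
def IsDiscrete (ρ : Γ →* SL2R) : Prop :=
  ∀ R : ℝ, {x : Γ | ∀ i j, |(ρ x : Matrix (Fin 2) (Fin 2) ℝ) i j| ≤ R}.Finite

/-- The fundamental group of the closed oriented surface of genus `g`. -/
abbrev ClosedSurfaceGroup (g : ℕ) : Type :=
  PresentedGroup ({(List.ofFn (fun i : Fin g =>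
    FreeGroup.of (i, (0 : Fin 2)) * FreeGroup.of (i, (1 : Fin 2)) *
      (FreeGroup.of (i, (0 : Fin 2)))⁻¹ * (FreeGroup.of (i, (1 : Fin 2)))⁻¹)).prod} :
    Set (FreeGroup (Fin g × Fin 2)))

/-- Groups isomorphic to the fundamental group of a connected oriented surface, possibly with
boundary or punctures: free groups and the groups of closed surfaces. -/
def IsSurfaceGroup (Γ : Type) [Group Γ] : Prop :=
  (∃ X : Type, Nonempty (Γ ≃* FreeGroup X)) ∨ ∃ g : ℕ, Nonempty (Γ ≃* ClosedSurfaceGroup g)

end Pool.Agent.TH94.Goldman
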