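import Mathlib

set_option autoImplicit false

namespace Pool.Agent.TH94.Gol

/-- the quadratic inequality behind the barrier -/
lemma W_pos (κ a b φ l m : ℝ) (ha : 0 < a) (hb : 0 < b) (hab : a + b < 1) (hκ : κ ^ 2 < 1)
    (hφ : 0 < φ) (hl0 : 0 ≤ l) (hl1 : l ≤ 1) (hm0 : 0 ≤ m) (hm1 : m ≤ 1) :
    0 < (φ * (1 - a ^ 2 - b ^ 2 - 2 * κ * a * b) / 2 + (a + κ * b) * (a * φ * l)
        + (b + κ * a) * (b * φ * m)) ^ 2
      - (a * φ * l) ^ 2 - (b * φ * m) ^ 2 - 2 * κ * (a * φ * l) * (b * φ * m) := by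
  have hκ1 : κ < 1 := by nlinarith
  have hκ2 : -1 < κ := by nlinarith
  set E := 1 - a ^ 2 - b ^ 2 - 2 * κ * a * b with hE
  have hab' : 0 < a * b := mul_pos ha hb
  have hEpos : 0 < E := by
    have h1 : κ * (a * b) < a * b := by nlinarith
    have h2 : (a + b) ^ 2 < 1 := by nlinarith
    nlinarith
  set Z := a ^ 2 * b ^ 2 * (1 - κ ^ 2) with hZ
  have hZ0 : 0 ≤ Z := by
    apply mul_nonneg
    · positivity
    · linarith
  set G := (1 - (a + b) ^ 2) * (1 - (a - b) ^ 2) with hG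
  have hGpos : 0 < G := by
    apply mul_pos
    · nlinarith
    · nlinarith
  have key : (φ * E / 2 + (a + κ * b) * (a * φ * l)
        + (b + κ * a) * (b * φ * m)) ^ 2
      - (a * φ * l) ^ 2 - (b * φ * m) ^ 2 - 2 * κ * (a * φ * l) * (b * φ * m)
      = φ ^ 2 * ((l * m + (1 - l) * (1 - m)) * (E ^ 2 / 4) + (l * (1 - m) + m * (1 - l)) * (G / 4)
        + l * (1 - l) * (E * a ^ 2 + Z) + m * (1 - m) * (E * b ^ 2 + Z)) := by
    rw [hE, hG, hZ]; ring
  rw [key]
  have hφ2 : 0 < φ ^ 2 := by positivity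
  apply mul_pos hφ2
  have h1 : 0 ≤ l * (1 - l) * (E * a ^ 2 + Z) := by
    apply mul_nonneg
    · exact mul_nonneg hl0 (by linarith)
    · positivity
  have h2 : 0 ≤ m * (1 - m) * (E * b ^ 2 + Z) := by
    apply mul_nonneg
    · exact mul_nonneg hm0 (by linarith)
    · positivity
  have hs0 : 0 ≤ l * (1 - m) + m * (1 - l) :=
    add_nonneg (mul_nonneg hl0 (by linarith)) (mul_nonneg hm0 (by linarith))
  have hs1 : 0 ≤ l * m + (1 - l) * (1 - m) :=
    add_nonneg (mul_nonneg hl0 hm0) (mul_nonneg (by linarith) (by linarith))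
  have hsum : l * (1 - m) + m * (1 - l) + (l * m + (1 - l) * (1 - m)) = 1 := by ring
  have h3 : 0 < (l * m + (1 - l) * (1 - m)) * (E ^ 2 / 4) +
      (l * (1 - m) + m * (1 - l)) * (G / 4) := by
    have hE2 : 0 < E ^ 2 / 4 := by positivity
    have hG2 : 0 < G / 4 := by positivity
    rcases lt_or_eq_of_le hs0 with h | h
    · have := mul_pos h hG2
      have := mul_nonneg hs1 hE2.le
      linarith
    · have h4 : l * m + (1 - l) * (1 - m) = 1 := by linarith
      rw [h4, ← h]; linarith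
  linarith

/-- the arithmetic core of the barrier lemma -/
lemma barrier_arith (κ α β qu qv qu1 qv1 p p1 f : ℝ)
    (hp : p ^ 2 = qu ^ 2 + qv ^ 2 - 2 * κ * qu * qv)
    (hp1 : p1 ^ 2 = qu1 ^ 2 + qv1 ^ 2 - 2 * κ * qu1 * qv1)
    (hf : f = p - p1) (hα : qu + qv1 = α * f) (hβ : qv + qu1 = β * f)
    (hf0 : f < 0) (hα0 : 0 < α) (hβ0 : β < 0) (hαβ : α - β < 1) (hκ : κ ^ 2 < 1)
    (h1 : qu ≤ 0) (h2 : qv1 ≤ 0) (h3 : 0 ≤ qv) (h4 : 0 ≤ qu1) : False := by
  obtain ⟨φ, rfl⟩ : ∃ φ, f = -φ := ⟨-f, by ring⟩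
  obtain ⟨b, rfl⟩ : ∃ b, β = -b := ⟨-β, by ring⟩
  have hφ : 0 < φ := by linarith
  have hb : 0 < b := by linarith
  have e1 : qv1 = -(α * φ) - qu := by linarith
  have e2 : qu1 = b * φ - qv := by linarith
  have e3 : p1 = p + φ := by linarith
  subst e1 e2 e3
  have h5 : 2 * p + φ * (1 - α ^ 2 - b ^ 2 - 2 * κ * α * b)
      + 2 * ((α + κ * b) * (-qu) + (b + κ * α) * qv) = 0 := by
    have : φ * (2 * p + φ * (1 - α ^ 2 - b ^ 2 - 2 * κ * α * b)
      + 2 * ((α + κ * b) * (-qu) + (b + κ * α) * qv)) = 0 := by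
      linear_combination hp1 - hp
    rcases mul_eq_zero.mp this with h | h
    · exact absurd h hφ.ne'
    · exact h
  have hW := W_pos κ α b φ (-qu / (α * φ)) (qv / (b * φ)) hα0 hb (by linarith) hκ hφ
    (div_nonneg (by linarith) (by positivity)) ((div_le_one (by positivity)).mpr (by linarith))
    (div_nonneg h3 (by positivity)) ((div_le_one (by positivity)).mpr (by linarith))
  have e4 : α * φ * (-qu / (α * φ)) = -qu := by field_simp
  have e5 : b * φ * (qv / (b * φ)) = qv := by field_simp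
  rw [e4, e5] at hW
  have e6 : φ * (1 - α ^ 2 - b ^ 2 - 2 * κ * α * b) / 2 + (α + κ * b) * -qu + (b + κ * α) * qv
      = -p := by linarith
  rw [e6] at hW
  nlinarith

end Pool.Agent.TH94.Gol
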