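import Mathlib
import Pool.Agent.TH94.Gol.Arith

set_option autoImplicit false

namespace Pool.Agent.TH94.Gol

open Matrix

/-- real two by two matrices -/
abbrev M2 := Matrix (Fin 2) (Fin 2) ℝ
/-- vectors of the plane -/
abbrev V2 := Fin 2 → ℝ

/-- the determinant of two vectors -/
def dt (p q : V2) : ℝ := p 0 * q 1 - p 1 * q 0

/-- the quadratic form `y ↦ det (y, M y)` -/
def qf (M : M2) (y : V2) : ℝ := dt y (M *ᵥ y)

lemma qf_eq (M : M2) (y : V2) : qf M y = M 1 0 * y 0 ^ 2 + (M 1 1 - M 0 0) * y 0 * y 1 -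
    M 0 1 * y 1 ^ 2 := by
  simp [qf, dt, mulVec, dotProduct, Fin.sum_univ_two]; ring

lemma dt_mulVec (A : M2) (x z : V2) : dt (A *ᵥ x) (A *ᵥ z) = A.det * dt x z := by
  simp [dt, mulVec, dotProduct, Fin.sum_univ_two, det_fin_two]; ring

lemma dt_smul_left (c : ℝ) (x z : V2) : dt (c • x) z = c * dt x z := by simp [dt]; ring
lemma dt_smul_right (c : ℝ) (x z : V2) : dt x (c • z) = c * dt x z := by simp [dt]; ring
lemma dt_add_left (x x' z : V2) : dt (x + x') z = dt x z + dt x' z := by simp [dt]; ring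
lemma dt_add_right (x z z' : V2) : dt x (z + z') = dt x z + dt x z' := by simp [dt]; ring
lemma dt_self (x : V2) : dt x x = 0 := by simp [dt]; ring
lemma dt_swap (x z : V2) : dt x z = - dt z x := by simp [dt]; ring

lemma qf_add (M N : M2) (y : V2) : qf (M + N) y = qf M y + qf N y := by
  simp [qf_eq]; ring
lemma qf_sub (M N : M2) (y : V2) : qf (M - N) y = qf M y - qf N y := by
  simp [qf_eq]; ring
lemma qf_neg (M : M2) (y : V2) : qf (-M) y = - qf M y := by
  simp [qf_eq]; ring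
lemma qf_smul (c : ℝ) (M : M2) (y : V2) : qf (c • M) y = c * qf M y := by
  simp [qf_eq]; ring
lemma qf_one (y : V2) : qf 1 y = 0 := by
  simp [qf_eq]
lemma qf_smulVec (M : M2) (c : ℝ) (y : V2) : qf M (c • y) = c ^ 2 * qf M y := by
  simp [qf_eq]; ring

lemma qf_conj (A B M : M2) (hA : A.det = 1) (hAB : A * B = 1) (y : V2) :
    qf (A * M * B) y = qf M (B *ᵥ y) := by
  have h : y = A *ᵥ (B *ᵥ y) := by rw [mulVec_mulVec, hAB, one_mulVec]
  unfold qf
  conv_lhs => rw [h]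
  rw [mulVec_mulVec, mulVec_mulVec]
  have e : A * M * B * (A * B) = A * M * B := by rw [hAB, mul_one]
  rw [e]
  have e2 : (A * M * B) *ᵥ y = A *ᵥ (M *ᵥ (B *ᵥ y)) := by
    rw [mulVec_mulVec, mulVec_mulVec, mul_assoc]
  have e3 : (A * B) *ᵥ y = A *ᵥ (B *ᵥ y) := by rw [mulVec_mulVec]
  rw [e2, e3, dt_mulVec, hA, one_mul]

/-- traceless matrices of square one -/
structure U2 (M : M2) : Prop where
  tr : M.trace = 0
  sq : M * M = 1

lemma U2.neg {M : M2} (h : U2 M) : U2 (-M) := ⟨by simp [h.tr], by simp [h.sq]⟩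

lemma U2.ent {M : M2} (h : U2 M) : M 1 1 = - M 0 0 ∧ M 0 0 ^ 2 + M 0 1 * M 1 0 = 1 := by
  have h1 := h.tr
  have h2 := congrFun (congrFun h.sq 0) 0
  simp [trace, Fin.sum_univ_two] at h1
  simp [mul_apply, Fin.sum_univ_two] at h2
  constructor
  · linarith
  · rw [← h2]; ring

lemma U2.of_ent {M : M2} (h1 : M 1 1 = - M 0 0) (h2 : M 0 0 ^ 2 + M 0 1 * M 1 0 = 1) : U2 M := by
  refine ⟨by simp [trace, Fin.sum_univ_two, h1], ?_⟩
  ext i j
  fin_cases i <;> fin_cases j <;> simp [mul_apply, Fin.sum_univ_two, h1] <;> nlinarith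

/-- half trace of the product -/
noncomputable def ip (M N : M2) : ℝ := (M * N).trace / 2

lemma ip_eq (M N : M2) : ip M N = (M 0 0 * N 0 0 + M 0 1 * N 1 0 + M 1 0 * N 0 1 + M 1 1 * N 1 1) / 2 := by
  simp [ip, trace, Fin.sum_univ_two, mul_apply]; ring

lemma ip_comm (M N : M2) : ip M N = ip N M := by
  simp [ip_eq]; ring

/-- the null vector identity -/
lemma qf_mul_sq (M N : M2) (hM : U2 M) (hN : U2 N) (y : V2) :
    qf (M * N) y ^ 2 = qf M y ^ 2 + qf N y ^ 2 - 2 * ip M N * qf M y * qf N y := by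
  obtain ⟨h1, h2⟩ := hM.ent
  obtain ⟨h3, h4⟩ := hN.ent
  simp only [qf_eq, ip_eq, mul_apply, Fin.sum_univ_two, h1, h3]
  generalize M 0 0 = a at *
  generalize M 0 1 = b at *
  generalize M 1 0 = c at *
  generalize N 0 0 = a' at *
  generalize N 0 1 = b' at *
  generalize N 1 0 = c' at *
  generalize y 0 = s at *
  generalize y 1 = t at *
  linear_combination (c * s ^ 2 - 2 * a * s * t - b * t ^ 2) ^ 2 * h4 +
    (c' * s ^ 2 - 2 * a' * s * t - b' * t ^ 2) ^ 2 * h2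

/-- `σ M` negative definite -/
def Neg (σ : ℝ) (M : M2) : Prop := ∀ y : V2, y ≠ 0 → σ * qf M y < 0

/-- `σ M` positive definite -/
def Pos (σ : ℝ) (M : M2) : Prop := ∀ y : V2, y ≠ 0 → 0 < σ * qf M y

end Pool.Agent.TH94.Gol
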