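import Mathlib
import Pool.Agent.TH94.Gol.Sl2

set_option autoImplicit false

namespace Pool.Agent.TH94.Gol

open Matrix

/-! ### cones of definite traceless matrices -/

/-- minus the determinant of a traceless matrix -/
def nq (M : M2) : ℝ := M 0 0 ^ 2 + M 0 1 * M 1 0

lemma neg_iff {σ : ℝ} {M : M2} (hM : M 1 1 = - M 0 0) :
    Neg σ M ↔ σ * M 1 0 < 0 ∧ nq M < 0 := by
  constructor
  · intro h
    have h1 := h ![1, 0] (by intro h; have := congrFun h 0; simp at this)
    rw [qf_eq] at h1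
    simp at h1
    have hc : M 1 0 ≠ 0 := by
      intro h0; rw [h0] at h1; simp at h1
    have h2 := h ![M 0 0, M 1 0] (by intro h; have := congrFun h 1; simp at this; exact hc this)
    rw [qf_eq] at h2
    simp [hM] at h2
    refine ⟨h1, ?_⟩
    unfold nq
    by_contra hcon
    push Not at hcon
    have : σ * (M 1 0 * M 0 0 ^ 2 + (-M 0 0 - M 0 0) * M 0 0 * M 1 0 - M 0 1 * M 1 0 ^ 2)
      = - (σ * M 1 0) * (M 0 0 ^ 2 + M 0 1 * M 1 0) := by ring
    rw [this] at h2
    have := mul_nonneg (neg_nonneg.mpr h1.le) hcon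
    linarith
  · rintro ⟨h1, h2⟩ y hy
    have hc : M 1 0 ≠ 0 := by
      intro h0; rw [h0] at h1; simp at h1
    have key : M 1 0 * qf M y = (M 1 0 * y 0 - M 0 0 * y 1) ^ 2 - nq M * y 1 ^ 2 := by
      rw [qf_eq, hM, nq]; ring
    have hpos : 0 < M 1 0 * qf M y := by
      rw [key]
      by_cases hy1 : y 1 = 0
      · have hy0 : y 0 ≠ 0 := by
          intro h0; apply hy; ext i; fin_cases i <;> simp [h0, hy1]
        rw [hy1]
        have : M 1 0 * y 0 ≠ 0 := mul_ne_zero hc hy0
        have := sq_pos_of_ne_zero this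
        simpa using this
      · have := mul_pos (neg_pos.mpr h2) (sq_pos_of_ne_zero hy1)
        nlinarith [sq_nonneg (M 1 0 * y 0 - M 0 0 * y 1)]
    have hc2 : 0 < M 1 0 ^ 2 := sq_pos_of_ne_zero hc
    have : M 1 0 ^ 2 * (σ * qf M y) = (σ * M 1 0) * (M 1 0 * qf M y) := by ring
    have h3 : M 1 0 ^ 2 * (σ * qf M y) < 0 := by
      rw [this]; exact mul_neg_of_neg_of_pos h1 hpos
    by_contra hcon
    push Not at hcon
    have := mul_nonneg hc2.le hcon
    linarith

lemma pos_iff_neg (σ : ℝ) (M : M2) : Pos σ M ↔ Neg σ (-M) := by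
  unfold Pos Neg
  simp only [qf_neg]
  constructor
  · intro h y hy; have := h y hy; linarith
  · intro h y hy; have := h y hy; linarith

lemma neg_neg_iff (σ : ℝ) (M : M2) : Neg (-σ) M ↔ Pos σ M := by
  unfold Pos Neg
  constructor
  · intro h y hy; have := h y hy; linarith
  · intro h y hy; have := h y hy; linarith

/-- two definite traceless matrices with negative inner product lie in the same cone -/
lemma same_cone {σ : ℝ} {M N : M2} (hM : M 1 1 = - M 0 0) (hN : N 1 1 = - N 0 0)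
    (hMN : ip M N < 0) (hNn : nq N < 0) (h : Neg σ M) : Neg σ N := by
  rw [neg_iff hM] at h
  rw [neg_iff hN]
  refine ⟨?_, hNn⟩
  obtain ⟨h1, h2⟩ := h
  rw [ip_eq, hM, hN] at hMN
  unfold nq at h2 hNn
  by_contra hcon
  push Not at hcon
  generalize M 0 0 = a at *
  generalize M 0 1 = b at *
  generalize M 1 0 = c at *
  generalize N 0 0 = a' at *
  generalize N 0 1 = b' at *
  generalize N 1 0 = c' at *
  -- c c' ≤ 0
  have hc : c ≠ 0 := by rintro rfl; simp at h1
  have hc' : c' ≠ 0 := by rintro rfl; nlinarith [sq_nonneg a']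
  have hσ : 0 < σ ^ 2 := by
    have : σ ≠ 0 := by rintro rfl; simp at h1
    positivity
  have hcc : c * c' < 0 := by
    have h3 : (σ * c) * (σ * c') ≤ 0 := mul_nonpos_of_nonpos_of_nonneg h1.le hcon
    have h4 : σ ^ 2 * (c * c') ≤ 0 := by nlinarith
    rcases lt_trichotomy (c * c') 0 with h5 | h5 | h5
    · exact h5
    · exact absurd h5 (mul_ne_zero hc hc')
    · nlinarith [mul_pos hσ h5]
  -- multiply the inner product by c c'
  have h6 : 0 < (c * c') * ((a * a' + b * c' + c * b' + -a * -a') / 2) :=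
    mul_pos_of_neg_of_neg hcc hMN
  have h7 : 0 < c' ^ 2 * (-(a ^ 2 + b * c)) := mul_pos (by positivity) (by linarith)
  have h8 : 0 < c ^ 2 * (-(a' ^ 2 + b' * c')) := mul_pos (by positivity) (by linarith)
  nlinarith [sq_nonneg (a * c' - a' * c)]

/-! ### quadruples -/

/-- `g h⁻¹ = g₁ h₁⁻¹` for four elements `g = C + D u` etc. of the same trace -/
structure Quad (C D : ℝ) (u v u1 v1 : M2) : Prop where
  hu : U2 u
  hv : U2 v
  hu1 : U2 u1
  hv1 : U2 v1
  rel : (C • (1 : M2) + D • u) * (C • (1 : M2) - D • v)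
    = (C • (1 : M2) + D • u1) * (C • (1 : M2) - D • v1)
  hC : C ^ 2 - D ^ 2 = 1
  hCD : 0 < C * D

lemma mul_pm {C D : ℝ} {u : M2} (hu : U2 u) (hC : C ^ 2 - D ^ 2 = 1) :
    (C • (1 : M2) + D • u) * (C • (1 : M2) - D • u) = 1 := by
  have h : (C • (1 : M2) + D • u) * (C • (1 : M2) - D • u)
     = (C ^ 2) • (1 : M2) - (D ^ 2) • (u * u) := by
    simp only [mul_sub, add_mul, smul_mul_assoc, mul_smul_comm, one_mul, mul_one]
    module
  rw [h, hu.sq, ← sub_smul, hC, one_smul]

lemma mul_mp {C D : ℝ} {u : M2} (hu : U2 u) (hC : C ^ 2 - D ^ 2 = 1) :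
    (C • (1 : M2) - D • u) * (C • (1 : M2) + D • u) = 1 := by
  have h : (C • (1 : M2) - D • u) * (C • (1 : M2) + D • u)
     = (C ^ 2) • (1 : M2) - (D ^ 2) • (u * u) := by
    simp only [mul_add, sub_mul, smul_mul_assoc, mul_smul_comm, one_mul, mul_one]
    module
  rw [h, hu.sq, ← sub_smul, hC, one_smul]

variable {C D : ℝ} {u v u1 v1 : M2}

lemma Quad.hD (q : Quad C D u v u1 v1) : D ≠ 0 := by
  rintro rfl; have := q.hCD; simp at this

lemma Quad.hC0 (q : Quad C D u v u1 v1) : C ≠ 0 := by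
  rintro rfl; have := q.hCD; simp at this

/-- first relation -/
lemma Quad.rel1 (q : Quad C D u v u1 v1) :
    C • ((u + v1) - (v + u1)) = D • (u * v - u1 * v1) := by
  have h : D • (C • ((u + v1) - (v + u1)) - D • (u * v - u1 * v1)) = 0 := by
    have := q.rel
    have h2 : D • (C • ((u + v1) - (v + u1)) - D • (u * v - u1 * v1)) =
      (C • (1 : M2) + D • u) * (C • (1 : M2) - D • v) -
      (C • (1 : M2) + D • u1) * (C • (1 : M2) - D • v1) := by
      simp only [mul_sub, add_mul, smul_mul_assoc, mul_smul_comm, one_mul, mul_one]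
      module
    rw [h2, this, sub_self]
  rcases smul_eq_zero.mp h with h | h
  · exact absurd h q.hD
  · exact sub_eq_zero.mp h

/-- the relation `g₁⁻¹ g = h₁⁻¹ h` -/
lemma Quad.rel' (q : Quad C D u v u1 v1) :
    (C • (1 : M2) - D • u1) * (C • (1 : M2) + D • u)
    = (C • (1 : M2) - D • v1) * (C • (1 : M2) + D • v) := by
  have h1 := mul_mp q.hu1 q.hC
  have h2 := mul_mp q.hv q.hC
  calc (C • (1 : M2) - D • u1) * (C • (1 : M2) + D • u)
      = (C • (1 : M2) - D • u1) * ((C • (1 : M2) + D • u) *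
          ((C • (1 : M2) - D • v) * (C • (1 : M2) + D • v))) := by rw [h2, mul_one]
    _ = (C • (1 : M2) - D • u1) * (((C • (1 : M2) + D • u) *
          (C • (1 : M2) - D • v)) * (C • (1 : M2) + D • v)) := by rw [mul_assoc]
    _ = ((C • (1 : M2) - D • u1) * (C • (1 : M2) + D • u1)) *
          ((C • (1 : M2) - D • v1) * (C • (1 : M2) + D • v)) := by
        rw [q.rel]; simp only [mul_assoc]
    _ = _ := by rw [h1, one_mul]

lemma Quad.rel2 (q : Quad C D u v u1 v1) :
    C • ((u + v1) - (v + u1)) = D • (u1 * u - v1 * v) := by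
  have h : D • (C • ((u + v1) - (v + u1)) - D • (u1 * u - v1 * v)) = 0 := by
    have := q.rel'
    have h2 : D • (C • ((u + v1) - (v + u1)) - D • (u1 * u - v1 * v)) =
      (C • (1 : M2) - D • u1) * (C • (1 : M2) + D • u) -
      (C • (1 : M2) - D • v1) * (C • (1 : M2) + D • v) := by
      simp only [mul_add, sub_mul, smul_mul_assoc, mul_smul_comm, one_mul, mul_one]
      module
    rw [h2, this, sub_self]
  rcases smul_eq_zero.mp h with h | h
  · exact absurd h q.hD
  · exact sub_eq_zero.mp h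

lemma Quad.PvuP (q : Quad C D u v u1 v1) : (u + v1) * v = u1 * (u + v1) := by
  have h : D • (u * v - u1 * v1) = D • (u1 * u - v1 * v) := by rw [← q.rel1, ← q.rel2]
  have h2 : u * v - u1 * v1 = u1 * u - v1 * v := smul_right_injective M2 q.hD h
  rw [add_mul, mul_add]
  have := eq_add_of_sub_eq h2
  rw [this]; abel

/-- anticommutator of traceless matrices -/
lemma anti {X Y : M2} (hX : X 1 1 = - X 0 0) (hY : Y 1 1 = - Y 0 0) :
    X * Y + Y * X = (2 * ip X Y) • (1 : M2) := by
  ext i j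
  fin_cases i <;> fin_cases j <;>
    simp [mul_apply, Fin.sum_univ_two, ip_eq, hX, hY] <;> ring

lemma add_tr {X Y : M2} (hX : X 1 1 = - X 0 0) (hY : Y 1 1 = - Y 0 0) :
    (X + Y) 1 1 = - (X + Y) 0 0 := by
  simp [hX, hY]; ring

lemma Quad.vPPu (q : Quad C D u v u1 v1) : v * (u + v1) = (u + v1) * u1 := by
  have hP : (u + v1) 1 1 = - (u + v1) 0 0 := add_tr q.hu.ent.1 q.hv1.ent.1
  have h1 := anti hP q.hv.ent.1
  have h2 := anti q.hu1.ent.1 hP
  have h3 : ip (u + v1) v = ip u1 (u + v1) := by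
    unfold ip; rw [q.PvuP]
  have h4 := q.PvuP
  rw [h3, ← h2, h4] at h1
  exact add_left_cancel h1

lemma Quad.comm (q : Quad C D u v u1 v1) : (u + v1) * (v + u1) = (v + u1) * (u + v1) := by
  rw [mul_add, add_mul (c := u + v1), q.PvuP, q.vPPu, add_comm]

/-- commuting traceless matrices are proportional -/
lemma prop_of_comm {P F : M2} (hP : P 1 1 = - P 0 0) (hF : F 1 1 = - F 0 0) (hF0 : F 1 0 ≠ 0)
    (h : P * F = F * P) : P = (P 1 0 / F 1 0) • F := by
  have h0 := congrFun (congrFun h 0) 0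
  have h1 := congrFun (congrFun h 1) 0
  simp [mul_apply, Fin.sum_univ_two, hP, hF] at h0 h1
  ext i j
  fin_cases i <;> fin_cases j <;> simp [hP, hF] <;> field_simp <;> linarith

lemma Quad.trF (q : Quad C D u v u1 v1) : (u * v - u1 * v1) 1 1 = - (u * v - u1 * v1) 0 0 := by
  have h := q.rel1
  have h0 := congrFun (congrFun h 0) 0
  have h1 := congrFun (congrFun h 1) 1
  simp only [Matrix.smul_apply, Matrix.sub_apply, Matrix.add_apply, smul_eq_mul] at h0 h1 ⊢
  rw [q.hu.ent.1, q.hv.ent.1, q.hu1.ent.1, q.hv1.ent.1] at h1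
  have hD := q.hD
  have : D * ((u * v) 1 1 - (u1 * v1) 1 1 + ((u * v) 0 0 - (u1 * v1) 0 0)) = 0 := by
    linear_combination -h0 - h1
  rcases mul_eq_zero.mp this with h | h
  · exact absurd h hD
  · linarith

lemma Quad.ip_eq (q : Quad C D u v u1 v1) : ip u1 v1 = ip u v := by
  have := q.trF
  simp only [Matrix.sub_apply] at this
  unfold ip
  simp only [trace, diag_apply, Fin.sum_univ_two]
  linarith

lemma Quad.P_prop (q : Quad C D u v u1 v1) (hF : (u * v - u1 * v1) 1 0 ≠ 0) :
    ∃ α : ℝ, u + v1 = α • (u * v - u1 * v1) := by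
  refine ⟨_, prop_of_comm (add_tr q.hu.ent.1 q.hv1.ent.1) q.trF hF ?_⟩
  have h1 := q.rel1
  have h2 : (u + v1) * (D • (u * v - u1 * v1)) = (D • (u * v - u1 * v1)) * (u + v1) := by
    rw [← h1, mul_smul_comm, smul_mul_assoc, mul_sub, sub_mul, q.comm]
  rw [mul_smul_comm, smul_mul_assoc] at h2
  exact smul_right_injective M2 q.hD h2

lemma Quad.DC (q : Quad C D u v u1 v1) : 0 < D / C ∧ D / C < 1 := by
  have hC0 := q.hC0
  have h1 : 0 < D / C := by
    have : D / C = (C * D) / C ^ 2 := by field_simp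
    rw [this]; exact div_pos q.hCD (by positivity)
  refine ⟨h1, ?_⟩
  have h2 : (D / C) ^ 2 < 1 := by
    rw [div_pow, div_lt_one (by positivity)]
    have := q.hC; linarith
  nlinarith

/-- `F` is definite as soon as `P` and `-Q` are -/
lemma Quad.negF (q : Quad C D u v u1 v1) {σ : ℝ} (hP : Neg σ (u + v1)) (hQ : Pos σ (v + u1)) :
    Neg σ (u * v - u1 * v1) := by
  intro y hy
  have h := congrArg (fun M => qf M y) q.rel1
  simp only [qf_smul, qf_sub] at h
  have h1 := hP y hy
  have h2 := hQ y hy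
  have hDC := q.DC.1
  have h3 : σ * (qf (u + v1) y - qf (v + u1) y) = (D / C) * (σ * (qf (u * v) y - qf (u1 * v1) y)) := by
    have hC0 := q.hC0
    field_simp
    linear_combination σ * h
  rw [qf_sub]
  by_contra hcon
  push Not at hcon
  have := mul_nonneg hDC.le hcon
  linarith

/-- **the barrier lemma** -/
theorem Quad.barrier (q : Quad C D u v u1 v1) {σ : ℝ} (hκ : ip u v ^ 2 < 1)
    (hP : Neg σ (u + v1)) (hQ : Pos σ (v + u1)) (y : V2) (hy : y ≠ 0)
    (h1 : σ * qf u y ≤ 0) (h2 : σ * qf v1 y ≤ 0) (h3 : 0 ≤ σ * qf v y) (h4 : 0 ≤ σ * qf u1 y) :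
    False := by
  have hF := q.negF hP hQ
  have hF0 : (u * v - u1 * v1) 1 0 ≠ 0 := by
    intro h0
    have := ((neg_iff q.trF).mp hF).1
    rw [h0] at this; simp at this
  obtain ⟨α, hα⟩ := q.P_prop hF0
  obtain ⟨β, hβ⟩ : ∃ β : ℝ, v + u1 = β • (u * v - u1 * v1) := by
    refine ⟨α - D / C, ?_⟩
    have h := q.rel1
    rw [hα] at h
    have hC0 := q.hC0
    have h5 : C • (v + u1) = C • ((α - D / C) • (u * v - u1 * v1)) := by
      generalize u * v - u1 * v1 = F at h ⊢
      rw [smul_sub] at h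
      have h6 : C • (v + u1) = C • α • F - D • F := by
        rw [← h]; abel
      rw [h6, sub_smul, smul_sub]
      congr 1
      rw [smul_smul, mul_div_cancel₀ _ hC0]
    exact smul_right_injective M2 hC0 h5
  have hf0 := hF y hy
  have hαq := congrArg (fun M => qf M y) hα
  have hβq := congrArg (fun M => qf M y) hβ
  simp only [qf_smul, qf_add] at hαq hβq
  have hPy := hP y hy
  have hQy := hQ y hy
  rw [hα, qf_smul] at hPy
  rw [hβ, qf_smul] at hQy
  have hα0 : 0 < α := by
    by_contra hcon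
    push Not at hcon
    have := mul_nonneg_of_nonpos_of_nonpos hcon hf0.le
    nlinarith
  have hβ0 : β < 0 := by
    by_contra hcon
    push Not at hcon
    have := mul_nonpos_of_nonneg_of_nonpos hcon hf0.le
    nlinarith
  have hαβ : α - β < 1 := by
    have h := congrArg (fun M => qf M y) q.rel1
    rw [hα, hβ] at h
    simp only [qf_smul, qf_sub (α • _)] at h
    set f := qf (u * v - u1 * v1) y with hf
    have hfne : f ≠ 0 := by
      intro h0; rw [h0] at hf0; simp at hf0
    have h5 : C * (α - β) = D := by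
      have : f * (C * (α - β) - D) = 0 := by linear_combination h
      rcases mul_eq_zero.mp this with h | h
      · exact absurd h hfne
      · linarith
    have hC0 := q.hC0
    have h6 : α - β = D / C := by field_simp; linarith
    rw [h6]; exact q.DC.2
  refine barrier_arith (ip u v) α β (σ * qf u y) (σ * qf v y) (σ * qf u1 y) (σ * qf v1 y)
    (σ * qf (u * v) y) (σ * qf (u1 * v1) y) (σ * qf (u * v - u1 * v1) y) ?_ ?_ ?_ ?_ ?_ hf0 hα0 hβ0 hαβ
    hκ h1 h2 h3 h4
  · have := qf_mul_sq u v q.hu q.hv y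
    linear_combination (σ ^ 2) * this
  · have := qf_mul_sq u1 v1 q.hu1 q.hv1 y
    rw [q.ip_eq] at this
    linear_combination (σ ^ 2) * this
  · rw [qf_sub]; ring
  · linear_combination σ * hαq
  · linear_combination σ * hβq

end Pool.Agent.TH94.Gol
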