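import Mathlib
import Pool.Agent.TH94.Gol.Quad

set_option autoImplicit false

namespace Pool.Agent.TH94.Gol

open Matrix

variable {C D : ℝ} {u v u1 v1 : M2}

/-- the hyperbolic element with direction `u` -/
noncomputable def el (C D : ℝ) (u : M2) : M2 := C • (1 : M2) + D • u

/-- its inverse -/
noncomputable def eli (C D : ℝ) (u : M2) : M2 := C • (1 : M2) - D • u

lemma el_mul_eli (hu : U2 u) (hC : C ^ 2 - D ^ 2 = 1) : el C D u * eli C D u = 1 := mul_pm hu hC
lemma eli_mul_el (hu : U2 u) (hC : C ^ 2 - D ^ 2 = 1) : eli C D u * el C D u = 1 := mul_mp hu hC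

lemma el_add_eli (C D : ℝ) (u : M2) : el C D u + eli C D u = (2 * C) • (1 : M2) := by
  unfold el eli; module

lemma det_el (hu : U2 u) (hC : C ^ 2 - D ^ 2 = 1) : (el C D u).det = 1 := by
  obtain ⟨h1, h2⟩ := hu.ent
  unfold el
  rw [det_fin_two]
  simp [h1]
  linear_combination hC - D ^ 2 * h2

lemma det_eli (hu : U2 u) (hC : C ^ 2 - D ^ 2 = 1) : (eli C D u).det = 1 := by
  obtain ⟨h1, h2⟩ := hu.ent
  unfold eli
  rw [det_fin_two]
  simp [h1]
  linear_combination hC - D ^ 2 * h2

/-- conjugation by a hyperbolic element -/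
noncomputable def Ad (C D : ℝ) (h u : M2) : M2 := el C D h * u * eli C D h

lemma Ad_U2 {h : M2} (hh : U2 h) (hu : U2 u) (hC : C ^ 2 - D ^ 2 = 1) : U2 (Ad C D h u) := by
  constructor
  · unfold Ad
    rw [trace_mul_comm, ← mul_assoc, eli_mul_el hh hC, one_mul, hu.tr]
  · unfold Ad
    calc el C D h * u * eli C D h * (el C D h * u * eli C D h)
        = el C D h * u * (eli C D h * el C D h) * u * eli C D h := by simp only [mul_assoc]
      _ = el C D h * (u * u) * eli C D h := by rw [eli_mul_el hh hC, mul_one]; simp only [mul_assoc]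
      _ = 1 := by rw [hu.sq, mul_one, el_mul_eli hh hC]

lemma Ad_self {h : M2} (hh : U2 h) (hC : C ^ 2 - D ^ 2 = 1) : Ad C D h h = h := by
  have : el C D h * h = h * el C D h := by
    unfold el; rw [add_mul, mul_add]; simp
  unfold Ad
  rw [this, mul_assoc, el_mul_eli hh hC, mul_one]

lemma eli_neg (C D : ℝ) (u : M2) : eli C D (-u) = el C D u := by
  unfold el eli; module

lemma el_neg (C D : ℝ) (u : M2) : el C D (-u) = eli C D u := by
  unfold el eli; module

lemma el_Ad {h : M2} (hh : U2 h) (hC : C ^ 2 - D ^ 2 = 1) :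
    el C D (Ad C D h u) = el C D h * el C D u * eli C D h := by
  have : el C D h * el C D u * eli C D h
     = C • (el C D h * eli C D h) + D • (el C D h * u * eli C D h) := by
    unfold el
    rw [mul_add, add_mul, mul_smul_comm, mul_smul_comm, smul_mul_assoc, smul_mul_assoc, mul_one]
  rw [this, el_mul_eli hh hC]
  rfl

lemma eli_Ad {h : M2} (hh : U2 h) (hC : C ^ 2 - D ^ 2 = 1) :
    eli C D (Ad C D h u) = el C D h * eli C D u * eli C D h := by
  have : el C D h * eli C D u * eli C D h
     = C • (el C D h * eli C D h) - D • (el C D h * u * eli C D h) := by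
    have e : eli C D u = C • (1 : M2) - D • u := rfl
    rw [e, mul_sub, sub_mul, mul_smul_comm, mul_smul_comm, smul_mul_assoc, smul_mul_assoc, mul_one]
  rw [this, el_mul_eli hh hC]
  rfl

lemma Quad.relel (q : Quad C D u v u1 v1) : el C D u * eli C D v = el C D u1 * eli C D v1 := q.rel

/-- `c⁻¹ = h g⁻¹ = h₁ g₁⁻¹` -/
lemma Quad.cinv (q : Quad C D u v u1 v1) : el C D v * eli C D u = el C D v1 * eli C D u1 := by
  have hC := q.hC
  have h1 := eli_mul_el q.hu hC
  have h2 := el_mul_eli q.hu hC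
  have h3 := eli_mul_el q.hu1 hC
  have h4 := el_mul_eli q.hv hC
  have h5 := eli_mul_el q.hv hC
  have h6 := eli_mul_el q.hv1 hC
  have h7 := el_mul_eli q.hv1 hC
  -- both are inverse of c
  have hA : (el C D v * eli C D u) * (el C D u * eli C D v) = 1 := by
    calc _ = el C D v * (eli C D u * el C D u) * eli C D v := by simp only [mul_assoc]
      _ = 1 := by rw [h1, mul_one, h4]
  have hB : (el C D u1 * eli C D v1) * (el C D v1 * eli C D u1) = 1 := by
    calc _ = el C D u1 * (eli C D v1 * el C D v1) * eli C D u1 := by simp only [mul_assoc]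
      _ = 1 := by rw [h6, mul_one, el_mul_eli q.hu1 hC]
  calc el C D v * eli C D u
      = (el C D v * eli C D u) * ((el C D u1 * eli C D v1) * (el C D v1 * eli C D u1)) := by
        rw [hB, mul_one]
    _ = ((el C D v * eli C D u) * (el C D u * eli C D v)) * (el C D v1 * eli C D u1) := by
        rw [← q.relel]; simp only [mul_assoc]
    _ = _ := by rw [hA, one_mul]

/-- `c⁻¹ (v + u₁) = v₁ + h u h⁻¹` -/
lemma Quad.cQ (q : Quad C D u v u1 v1) :
    (el C D v * eli C D u) * (v + u1) = v1 + Ad C D v u := by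
  have hC := q.hC
  have hD := q.hD
  apply smul_right_injective M2 hD
  show D • ((el C D v * eli C D u) * (v + u1)) = D • (v1 + Ad C D v u)
  have e1 : D • (v + u1) = el C D u1 - eli C D v := by unfold el eli; module
  have e2 : D • (v1 + Ad C D v u) = el C D v1 - eli C D (Ad C D v u) := by unfold el eli; module
  rw [← mul_smul_comm, e1, e2, mul_sub, eli_Ad q.hv hC]
  congr 1
  rw [q.cinv, mul_assoc, eli_mul_el q.hu1 hC, mul_one]

/-- `c⁻¹ (u + v₁) = v + h₁ u₁ h₁⁻¹` -/
lemma Quad.cP (q : Quad C D u v u1 v1) :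
    (el C D v * eli C D u) * (u + v1) = v + Ad C D v1 u1 := by
  have hC := q.hC
  have hD := q.hD
  apply smul_right_injective M2 hD
  show D • ((el C D v * eli C D u) * (u + v1)) = D • (v + Ad C D v1 u1)
  have e1 : D • (u + v1) = el C D u - eli C D v1 := by unfold el eli; module
  have e2 : D • (v + Ad C D v1 u1) = el C D v - eli C D (Ad C D v1 u1) := by unfold el eli; module
  rw [← mul_smul_comm, e1, e2, mul_sub, eli_Ad q.hv1 hC]
  congr 1
  · rw [mul_assoc, eli_mul_el q.hu hC, mul_one]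
  · rw [q.cinv]

/-- the hatted quadruple -/
lemma Quad.hat (q : Quad C D u v u1 v1) :
    Quad C D (-v1) (-(Ad C D v1 u1)) (-v) (-(Ad C D v u)) := by
  have hC := q.hC
  refine ⟨q.hv1.neg, (Ad_U2 q.hv1 q.hu1 hC).neg, q.hv.neg, (Ad_U2 q.hv q.hu hC).neg, ?_, hC, q.hCD⟩
  show el C D (-v1) * eli C D (-(Ad C D v1 u1)) = el C D (-v) * eli C D (-(Ad C D v u))
  rw [el_neg, el_neg, eli_neg, eli_neg, el_Ad q.hv1 hC, el_Ad q.hv hC]
  have h1 : eli C D v1 * (el C D v1 * el C D u1 * eli C D v1)
      = (eli C D v1 * el C D v1) * (el C D u1 * eli C D v1) := by simp only [mul_assoc]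
  have h2 : eli C D v * (el C D v * el C D u * eli C D v)
      = (eli C D v * el C D v) * (el C D u * eli C D v) := by simp only [mul_assoc]
  rw [h1, h2, eli_mul_el q.hv1 hC, eli_mul_el q.hv hC, one_mul, one_mul, q.relel]

/-- the trace of `c` -/
lemma tr_c (hu : U2 u) (hv : U2 v) :
    (el C D v * eli C D u).trace = 2 * (C ^ 2 - D ^ 2 * ip u v) := by
  obtain ⟨h1, h2⟩ := hu.ent
  obtain ⟨h3, h4⟩ := hv.ent
  simp [el, eli, trace, Fin.sum_univ_two, mul_apply, ip_eq, h1, h3]
  ring

lemma tr_c_pos (hu : U2 u) (hv : U2 v) (hC : C ^ 2 - D ^ 2 = 1) (hκ : ip u v ^ 2 < 1) :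
    2 ≤ (el C D v * eli C D u).trace := by
  rw [tr_c hu hv]
  have : ip u v < 1 := by nlinarith
  nlinarith [sq_nonneg D]

/-- multiplication by a determinant one matrix of positive trace preserves the cone -/
lemma cone_mul {σ : ℝ} {M c : M2} (hM : M 1 1 = - M 0 0) (hcM : (c * M) 1 1 = - (c * M) 0 0)
    (hc : c.det = 1) (htr : 0 < c.trace) (h : Neg σ M) : Neg σ (c * M) := by
  have h2 := ((neg_iff hM).mp h).2
  refine same_cone hM hcM ?_ ?_ h
  · -- ip M (c M) = nq M * tr c / 2
    have hMM : M * M = (nq M) • (1 : M2) := by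
      ext i j
      fin_cases i <;> fin_cases j <;> simp [mul_apply, Fin.sum_univ_two, nq, hM] <;> ring
    have : ip M (c * M) = nq M * c.trace / 2 := by
      unfold ip
      rw [trace_mul_comm, mul_assoc, hMM, mul_smul_comm, mul_one, trace_smul, smul_eq_mul]
    rw [this]
    have := mul_neg_of_neg_of_pos h2 htr
    linarith
  · have hd : (c * M).det = M.det := by rw [det_mul, hc, one_mul]
    have e1 : nq (c * M) = - (c * M).det := by rw [det_fin_two, nq, hcM]; ring
    have e2 : nq M = - M.det := by rw [det_fin_two, nq, hM]; ring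
    rw [e1, hd, ← e2]; exact h2

lemma Quad.hat_signs (q : Quad C D u v u1 v1) {σ : ℝ} (hκ : ip u v ^ 2 < 1)
    (hP : Neg σ (u + v1)) (hQ : Pos σ (v + u1)) :
    Neg σ (-v1 + -(Ad C D v u)) ∧ Pos σ (-(Ad C D v1 u1) + -v) ∧
      ip (-v1) (-(Ad C D v1 u1)) ^ 2 < 1 := by
  have hC := q.hC
  have hdet : (el C D v * eli C D u).det = 1 := by
    rw [det_mul, det_el q.hv hC, det_eli q.hu hC, one_mul]
  have htr : 0 < (el C D v * eli C D u).trace := by
    have := tr_c_pos q.hu q.hv hC hκ; linarith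
  refine ⟨?_, ?_, ?_⟩
  · have hQ' : Neg σ (-(v + u1)) := (pos_iff_neg _ _).mp hQ
    have e : -v1 + -(Ad C D v u) = (el C D v * eli C D u) * (-(v + u1)) := by
      rw [mul_neg, q.cQ]; abel
    rw [e]
    refine cone_mul ?_ ?_ hdet htr hQ'
    · simp only [Matrix.neg_apply]
      rw [add_tr q.hv.ent.1 q.hu1.ent.1]
    · rw [← e]
      exact add_tr q.hv1.neg.ent.1 (Ad_U2 q.hv q.hu hC).neg.ent.1
  · rw [pos_iff_neg]
    have e : -(-(Ad C D v1 u1) + -v) = (el C D v * eli C D u) * (u + v1) := by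
      rw [q.cP]; abel
    rw [e]
    refine cone_mul (add_tr q.hu.ent.1 q.hv1.ent.1) ?_ hdet htr hP
    rw [q.cP]
    exact add_tr q.hv.ent.1 (Ad_U2 q.hv1 q.hu1 hC).ent.1
  · have e : ip (-v1) (-(Ad C D v1 u1)) = ip u v := by
      rw [← q.ip_eq]
      unfold ip Ad
      rw [neg_mul_neg]
      congr 1
      have hcomm : v1 * el C D v1 = el C D v1 * v1 := by
        unfold el; rw [add_mul, mul_add]; simp
      calc (v1 * (el C D v1 * u1 * eli C D v1)).trace
          = (el C D v1 * (v1 * u1 * eli C D v1)).trace := by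
            congr 1
            rw [← mul_assoc, ← mul_assoc, hcomm]; simp only [mul_assoc]
        _ = ((v1 * u1 * eli C D v1) * el C D v1).trace := trace_mul_comm _ _
        _ = (v1 * u1).trace := by rw [mul_assoc, eli_mul_el q.hv1 hC, mul_one]
        _ = _ := trace_mul_comm _ _
    rw [e]; exact hκ

/-- **Geometric step**: a geodesic crossing the axis of `h₁` at a suitable place crosses another
line. -/
theorem Quad.cross (q : Quad C D u v u1 v1) {σ : ℝ} (hκ : ip u v ^ 2 < 1)
    (hP : Neg σ (u + v1)) (hQ : Pos σ (v + u1)) (p r : V2)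
    (hp : 0 < σ * qf v1 p) (hr : σ * qf v1 r < 0)
    (hge : 0 ≤ (-(σ * qf v1 r)) * (σ * qf u1 p) + (σ * qf v1 p) * (σ * qf u1 r))
    (hle : (-(σ * qf v1 r)) * (σ * qf (Ad C D v1 u1) p) +
        (σ * qf v1 p) * (σ * qf (Ad C D v1 u1) r) ≤ 0) :
    (σ * qf u p) * (σ * qf u r) < 0 ∨ (σ * qf v p) * (σ * qf v r) < 0 ∨
    (σ * qf u1 p) * (σ * qf u1 r) < 0 ∨
    (σ * qf (Ad C D v u) p) * (σ * qf (Ad C D v u) r) < 0 ∨
    (σ * qf (Ad C D v1 u1) p) * (σ * qf (Ad C D v1 u1) r) < 0 := by
  have hp0 : p ≠ 0 := by rintro rfl; simp [qf_eq] at hp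
  have hr0 : r ≠ 0 := by rintro rfl; simp [qf_eq] at hr
  set s := -(σ * qf v1 r) with hs
  set t := σ * qf v1 p with ht
  have hs0 : 0 < s := by linarith
  have ht0 : 0 < t := hp
  have hrs : σ * qf v1 r = -s := by linarith
  have hps : σ * qf v1 p = t := rfl
  -- helper
  have aux1 : ∀ a b : ℝ, s * a + t * b ≤ 0 → 0 < b → a * b < 0 := by
    intro a b h1 h2
    have h3 : s * a < 0 := by have := mul_pos ht0 h2; linarith
    have h4 : a < 0 := by
      by_contra hcon; push Not at hcon
      have := mul_nonneg hs0.le hcon; linarith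
    exact mul_neg_of_neg_of_pos h4 h2
  have aux2 : ∀ a b : ℝ, 0 ≤ s * a + t * b → b < 0 → a * b < 0 := by
    intro a b h1 h2
    have h3 : 0 < s * a := by have := mul_pos_of_neg_of_neg (neg_neg_of_pos ht0) h2; linarith
    have h4 : 0 < a := by
      by_contra hcon; push Not at hcon
      have := mul_nonpos_of_nonneg_of_nonpos hs0.le hcon; linarith
    exact mul_neg_of_pos_of_neg h4 h2
  have aux3 : ∀ a b : ℝ, s * a + t * b ≤ 0 → 0 < a → a * b < 0 := by
    intro a b h1 h2
    have h3 : t * b < 0 := by have := mul_pos hs0 h2; linarith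
    have h4 : b < 0 := by
      by_contra hcon; push Not at hcon
      have := mul_nonneg ht0.le hcon; linarith
    exact mul_neg_of_pos_of_neg h2 h4
  have aux4 : ∀ a b : ℝ, 0 ≤ s * a + t * b → a < 0 → a * b < 0 := by
    intro a b h1 h2
    have h3 : 0 < t * b := by have := mul_pos_of_neg_of_neg (neg_neg_of_pos hs0) h2; linarith
    have h4 : 0 < b := by
      by_contra hcon; push Not at hcon
      have := mul_nonpos_of_nonneg_of_nonpos ht0.le hcon; linarith
    exact mul_neg_of_neg_of_pos h2 h4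
  by_cases hv : 0 ≤ s * (σ * qf v p) + t * (σ * qf v r)
  · -- region D
    have hu : s * (σ * qf u p) + t * (σ * qf u r) ≤ 0 := by
      have h1 := hP p hp0
      have h2 := hP r hr0
      rw [qf_add] at h1 h2
      have h3 := mul_neg_of_pos_of_neg hs0 h1
      have h4 := mul_neg_of_pos_of_neg ht0 h2
      have h5 : s * (σ * qf v1 p) + t * (σ * qf v1 r) = 0 := by rw [hps, hrs]; ring
      nlinarith
    by_contra hcon
    push Not at hcon
    obtain ⟨c1, c2, c3, -, -⟩ := hcon
    refine q.barrier hκ hP hQ r hr0 ?_ hr.le ?_ ?_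
    · by_contra hc; push Not at hc
      have := aux1 _ _ hu hc; linarith
    · by_contra hc; push Not at hc
      have := aux2 _ _ hv hc; linarith
    · by_contra hc; push Not at hc
      have := aux2 _ _ hge hc; linarith
  · push Not at hv
    obtain ⟨s1, s2, s3⟩ := q.hat_signs hκ hP hQ
    have hAu : 0 ≤ s * (σ * qf (Ad C D v u) p) + t * (σ * qf (Ad C D v u) r) := by
      have h1 := s1 p hp0
      have h2 := s1 r hr0
      rw [qf_add, qf_neg, qf_neg] at h1 h2
      have h3 := mul_neg_of_pos_of_neg hs0 h1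
      have h4 := mul_neg_of_pos_of_neg ht0 h2
      have h5 : s * (σ * qf v1 p) + t * (σ * qf v1 r) = 0 := by rw [hps, hrs]; ring
      nlinarith
    by_contra hcon
    push Not at hcon
    obtain ⟨-, c2, -, c4, c5⟩ := hcon
    refine q.hat.barrier s3 s1 s2 p hp0 ?_ ?_ ?_ ?_
    · rw [qf_neg]; linarith
    · rw [qf_neg]
      by_contra hc; push Not at hc
      have := aux4 _ _ hAu (by linarith); linarith
    · rw [qf_neg]
      by_contra hc; push Not at hc
      have := aux3 _ _ hle (by linarith); linarith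
    · rw [qf_neg]
      by_contra hc; push Not at hc
      have := aux3 _ _ hv.le (by linarith); linarith

end Pool.Agent.TH94.Gol
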