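import Mathlib

set_option autoImplicit false

namespace Pool.Agent.TH94.Gol

/-- A conjugation invariant total preorder on a group, given by its cone of elements `≥ 1`. -/
structure TPO (Γ : Type*) [Group Γ] where
  nn : Γ → Prop
  tot : ∀ a, nn a ∨ nn a⁻¹
  mul : ∀ a b, nn a → nn b → nn (a * b)
  conj : ∀ g a, nn a → nn (g * a * g⁻¹)

namespace TPO

variable {Γ : Type*} [Group Γ] (P : TPO Γ)

lemma nn_one : P.nn 1 := by
  rcases P.tot 1 with h | h
  · exact h
  · simpa using h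

/-- elements equivalent to `1` -/
def null (a : Γ) : Prop := P.nn a ∧ P.nn a⁻¹

/-- strictly positive elements -/
def pos (a : Γ) : Prop := ¬ P.nn a⁻¹

lemma pos.nn {P : TPO Γ} {a : Γ} (h : P.pos a) : P.nn a := (P.tot a).resolve_right h

lemma conj_iff (g a : Γ) : P.nn (g * a * g⁻¹) ↔ P.nn a := by
  constructor
  · intro h
    have := P.conj g⁻¹ _ h
    have e : g⁻¹ * (g * a * g⁻¹) * g⁻¹⁻¹ = a := by group
    rwa [e] at this
  · exact P.conj g a

lemma pos_conj (g a : Γ) : P.pos (g * a * g⁻¹) ↔ P.pos a := by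
  unfold pos
  have : (g * a * g⁻¹)⁻¹ = g * a⁻¹ * g⁻¹ := by group
  rw [this, P.conj_iff]

lemma null_conj (g a : Γ) : P.null (g * a * g⁻¹) ↔ P.null a := by
  unfold null
  have : (g * a * g⁻¹)⁻¹ = g * a⁻¹ * g⁻¹ := by group
  rw [this, P.conj_iff, P.conj_iff]

lemma null_one : P.null 1 := ⟨P.nn_one, by simpa using P.nn_one⟩

lemma null_inv {a : Γ} (h : P.null a) : P.null a⁻¹ := ⟨h.2, by simpa using h.1⟩

lemma null_mul {a b : Γ} (ha : P.null a) (hb : P.null b) : P.null (a * b) :=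
  ⟨P.mul _ _ ha.1 hb.1, by rw [mul_inv_rev]; exact P.mul _ _ hb.2 ha.2⟩

lemma null_pow {a : Γ} (ha : P.null a) (n : ℕ) : P.null (a ^ n) := by
  induction n with
  | zero => simpa using P.null_one
  | succ n ih => rw [pow_succ]; exact P.null_mul ih ha

lemma null_zpow {a : Γ} (ha : P.null a) (n : ℤ) : P.null (a ^ n) := by
  rcases n with n | n
  · simpa using P.null_pow ha n
  · rw [zpow_negSucc]; exact P.null_inv (P.null_pow ha _)

/-- the preorder -/
def le (a b : Γ) : Prop := P.nn (a⁻¹ * b)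

lemma le_refl (a : Γ) : P.le a a := by unfold le; simpa using P.nn_one

lemma le_trans {a b c : Γ} (h1 : P.le a b) (h2 : P.le b c) : P.le a c := by
  unfold le at *
  have := P.mul _ _ h1 h2
  have e : a⁻¹ * b * (b⁻¹ * c) = a⁻¹ * c := by group
  rwa [e] at this

lemma le_total (a b : Γ) : P.le a b ∨ P.le b a := by
  unfold le
  rcases P.tot (a⁻¹ * b) with h | h
  · exact Or.inl h
  · right; simpa using h

lemma le_conj (g a b : Γ) : P.le (g * a * g⁻¹) (g * b * g⁻¹) ↔ P.le a b := by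
  unfold le
  have : (g * a * g⁻¹)⁻¹ * (g * b * g⁻¹) = g * (a⁻¹ * b) * g⁻¹ := by group
  rw [this, P.conj_iff]

lemma le_mul_left (g : Γ) {a b : Γ} (h : P.le a b) : P.le (g * a) (g * b) := by
  unfold le at *
  have : (g * a)⁻¹ * (g * b) = a⁻¹ * b := by group
  rwa [this]

lemma le_mul_right (g : Γ) {a b : Γ} (h : P.le a b) : P.le (a * g) (b * g) := by
  unfold le at *
  have : (a * g)⁻¹ * (b * g) = g⁻¹ * (a⁻¹ * b) * g⁻¹⁻¹ := by group
  rw [this]
  exact P.conj _ _ h

/-- conjugating by a null element does not change the class -/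
lemma le_of_null_conj {k : Γ} (hk : P.null k) (a : Γ) : P.le (k * a * k⁻¹) a := by
  unfold le
  have e : (k * a * k⁻¹)⁻¹ * a = k * (a⁻¹ * k⁻¹ * a) := by group
  rw [e]
  apply P.mul _ _ hk.1
  have := P.conj a⁻¹ _ hk.2
  simpa [mul_assoc] using this

lemma le_of_null_conj' {k : Γ} (hk : P.null k) (a : Γ) : P.le a (k * a * k⁻¹) := by
  have := P.le_of_null_conj (P.null_inv hk) (k * a * k⁻¹)
  have e : k⁻¹ * (k * a * k⁻¹) * k⁻¹⁻¹ = a := by group
  rwa [e] at this

lemma pos_mul {a b : Γ} (ha : P.pos a) (hb : P.nn b) : P.pos (a * b) := by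
  intro h
  apply ha
  rw [mul_inv_rev] at h
  have := P.mul _ _ hb h
  have e : b * (b⁻¹ * a⁻¹) = a⁻¹ := by group
  rwa [e] at this

lemma pos_pow {a : Γ} (ha : P.pos a) (n : ℕ) : P.pos (a ^ (n + 1)) := by
  induction n with
  | zero => simpa using ha
  | succ n ih => rw [pow_succ]; exact P.pos_mul ih ha.nn

lemma nn_of_not_pos {a : Γ} (h : ¬ P.pos a) : P.nn a⁻¹ := by
  unfold pos at h; push Not at h; exact h

lemma pos_or_pos_of_not_null {a : Γ} (h : ¬ P.null a) : P.pos a ∨ P.pos a⁻¹ := by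
  unfold null at h
  unfold pos
  rw [inv_inv]
  by_contra hcon
  push Not at hcon
  exact h ⟨hcon.2, hcon.1⟩

/-- the reversed preorder -/
def rev : TPO Γ where
  nn a := P.nn a⁻¹
  tot a := by
    have := P.tot a
    rw [inv_inv]; exact this.symm
  mul a b ha hb := by
    rw [mul_inv_rev]; exact P.mul _ _ hb ha
  conj g a ha := by
    have : (g * a * g⁻¹)⁻¹ = g * a⁻¹ * g⁻¹ := by group
    rw [this]; exact P.conj _ _ ha

lemma rev_pos (a : Γ) : P.rev.pos a ↔ P.pos a⁻¹ := by
  show ¬ P.nn a⁻¹⁻¹ ↔ ¬ P.nn a⁻¹⁻¹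
  rfl

lemma rev_null (a : Γ) : P.rev.null a ↔ P.null a := by
  show P.nn a⁻¹ ∧ P.nn a⁻¹⁻¹ ↔ _
  rw [inv_inv]; exact and_comm

/-- finite nonempty sets have a greatest element -/
lemma exists_max (s : Set Γ) (hs : s.Finite) (hne : s.Nonempty) :
    ∃ x ∈ s, ∀ y ∈ s, P.le y x := by
  induction s, hs using Set.Finite.induction_on with
  | empty => exact absurd hne (by simp)
  | @insert a s _ _ ih =>
    by_cases h : s.Nonempty
    · obtain ⟨x, hx, hmax⟩ := ih h
      rcases P.le_total a x with h1 | h1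
      · refine ⟨x, Set.mem_insert_of_mem _ hx, ?_⟩
        rintro y (rfl | hy)
        · exact h1
        · exact hmax y hy
      · refine ⟨a, Set.mem_insert _ _, ?_⟩
        rintro y (rfl | hy)
        · exact P.le_refl _
        · exact P.le_trans (hmax y hy) h1
    · rw [Set.not_nonempty_iff_eq_empty] at h
      subst h
      refine ⟨a, Set.mem_insert _ _, ?_⟩
      rintro y (rfl | hy)
      · exact P.le_refl _
      · exact absurd hy (by simp)

end TPO

end Pool.Agent.TH94.Gol
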