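import Mathlib
import Pool.Agent.TH94.Gol.Hat
import Pool.Agent.TH94.Gol.TPO

set_option autoImplicit false

namespace Pool.Agent.TH94.Gol

open Matrix

/-- `SL(2, ℝ)` -/
abbrev SL2 := Matrix.SpecialLinearGroup (Fin 2) ℝ

/-- the underlying matrix -/
def mt (A : SL2) : M2 := A.1

lemma mt_mul (A B : SL2) : mt (A * B) = mt A * mt B := rfl
lemma mt_one : mt 1 = 1 := rfl
lemma mt_det (A : SL2) : (mt A).det = 1 := A.2
lemma mt_mul_inv (A : SL2) : mt A * mt A⁻¹ = 1 := by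
  rw [← mt_mul, mul_inv_cancel, mt_one]
lemma mt_inv_mul (A : SL2) : mt A⁻¹ * mt A = 1 := by
  rw [← mt_mul, inv_mul_cancel, mt_one]
lemma mt_inj {A B : SL2} (h : mt A = mt B) : A = B := Subtype.ext h

lemma mt_inv_ent (A : SL2) : mt A⁻¹ 0 0 = mt A 1 1 ∧ mt A⁻¹ 0 1 = - mt A 0 1 ∧
    mt A⁻¹ 1 0 = - mt A 1 0 ∧ mt A⁻¹ 1 1 = mt A 0 0 := by
  have : mt A⁻¹ = adjugate (mt A) := rfl
  rw [this, adjugate_fin_two]
  simp

lemma mt_inv_eq (A : SL2) : mt A⁻¹ = (mt A).trace • (1 : M2) - mt A := by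
  obtain ⟨h1, h2, h3, h4⟩ := mt_inv_ent A
  ext i j
  fin_cases i <;> fin_cases j <;> simp [trace, Fin.sum_univ_two, h1, h2, h3, h4]

lemma mt_det_eq (A : SL2) : mt A 0 0 * mt A 1 1 - mt A 0 1 * mt A 1 0 = 1 := by
  have := mt_det A
  rwa [det_fin_two] at this

/-- normalized traceless part -/
noncomputable def dir (C D : ℝ) (A : SL2) : M2 := D⁻¹ • (mt A - C • (1 : M2))

variable {C D : ℝ}

lemma el_dir (hD : D ≠ 0) (A : SL2) : el C D (dir C D A) = mt A := by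
  unfold el dir
  rw [smul_smul, mul_inv_cancel₀ hD, one_smul]; abel

lemma eli_dir (hD : D ≠ 0) (A : SL2) (hA : (mt A).trace = 2 * C) : eli C D (dir C D A) = mt A⁻¹ := by
  unfold eli dir
  rw [smul_smul, mul_inv_cancel₀ hD, one_smul, mt_inv_eq, hA]
  module

lemma dir_U2 (hD : D ≠ 0) (hC : C ^ 2 - D ^ 2 = 1) (A : SL2) (hA : (mt A).trace = 2 * C) :
    U2 (dir C D A) := by
  have h := mt_det_eq A
  have h2 : mt A 0 0 + mt A 1 1 = 2 * C := by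
    rw [← hA]; simp [trace, Fin.sum_univ_two]
  apply U2.of_ent
  · simp [dir]
    have : mt A 1 1 - C = -(mt A 0 0 - C) := by linarith
    rw [this]; ring
  · simp [dir]
    field_simp
    have : mt A 1 1 = 2 * C - mt A 0 0 := by linarith
    rw [this] at h
    nlinarith

lemma qf_dir (A : SL2) (y : V2) : qf (dir C D A) y = D⁻¹ * qf (mt A) y := by
  unfold dir
  rw [qf_smul, qf_sub, qf_smul, qf_one]; ring

lemma dir_conj (A B : SL2) : dir C D (A * B * A⁻¹) = mt A * dir C D B * mt A⁻¹ := by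
  unfold dir
  rw [mul_smul_comm, smul_mul_assoc, mul_sub, sub_mul, mt_mul, mt_mul, mul_smul_comm, mul_one,
    smul_mul_assoc, mt_mul_inv]

lemma Ad_dir (hD : D ≠ 0) (A B : SL2) (hA : (mt A).trace = 2 * C) :
    Ad C D (dir C D A) (dir C D B) = dir C D (A * B * A⁻¹) := by
  unfold Ad
  rw [el_dir hD, eli_dir hD A hA, dir_conj]

lemma qf_conj_mt (A : SL2) (M : M2) (y : V2) :
    qf (mt A * M * mt A⁻¹) (mt A *ᵥ y) = qf M y := by
  rw [qf_conj _ _ _ (mt_det A) (mt_mul_inv A), mulVec_mulVec, mt_inv_mul, one_mulVec]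

lemma qf_conj_mt' (A : SL2) (M : M2) (y : V2) :
    qf (mt A * M * mt A⁻¹) y = qf M (mt A⁻¹ *ᵥ y) := by
  rw [qf_conj _ _ _ (mt_det A) (mt_mul_inv A)]

lemma trace_conj (A B : SL2) : (mt (A * B * A⁻¹)).trace = (mt B).trace := by
  rw [mt_mul, mt_mul, trace_mul_comm, ← mul_assoc, mt_inv_mul, one_mul]

/-! ### dynamics -/

lemma qf_comb (M : M2) (x y : V2) (a b : ℝ) :
    qf M (a • x + b • y) = a ^ 2 * qf M x + a * b * (dt x (M *ᵥ y) + dt y (M *ᵥ x))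
      + b ^ 2 * qf M y := by
  simp [qf, dt, mulVec, dotProduct, Fin.sum_univ_two]; ring

lemma vec_decomp (x y z : V2) (h : dt x y ≠ 0) :
    z = (dt z y / dt x y) • x + (dt x z / dt x y) • y := by
  ext i
  fin_cases i
  · simp only [Fin.zero_eta, Pi.add_apply, Pi.smul_apply, smul_eq_mul]
    field_simp
    simp [dt]; ring
  · simp only [Fin.mk_one, Pi.add_apply, Pi.smul_apply, smul_eq_mul]
    field_simp
    simp [dt]; ring

lemma dyn (A : SL2) (M : M2) (σ μ : ℝ) (zp zm z : V2) (hp : mt A *ᵥ zp = μ • zp)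
    (hm : mt A *ᵥ zm = μ⁻¹ • zm) (hμ : 1 < μ ^ 2) (hd : dt zp zm ≠ 0) (hM : 0 < σ * qf M zp)
    (hz : dt z zm ≠ 0) : ∃ j0 : ℕ, ∀ j ≥ j0, 0 < σ * qf M (mt (A ^ j) *ᵥ z) := by
  have hμ0 : μ ≠ 0 := by rintro rfl; norm_num at hμ
  set a := dt z zm / dt zp zm with ha
  set b := dt zp z / dt zp zm with hb
  have ha0 : a ≠ 0 := div_ne_zero hz hd
  have hz' : z = a • zp + b • zm := vec_decomp zp zm z hd
  have hpow : ∀ j : ℕ, mt (A ^ j) *ᵥ z = (a * μ ^ j) • zp + (b * (μ⁻¹) ^ j) • zm := by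
    intro j
    induction j with
    | zero => simp [mt_one, ← hz']
    | succ j ih =>
      rw [pow_succ', mt_mul, ← mulVec_mulVec, ih, mulVec_add, mulVec_smul, mulVec_smul, hp, hm,
        smul_smul, smul_smul]
      congr 2 <;> ring
  set m := dt zp (M *ᵥ zm) + dt zm (M *ᵥ zp) with hm'
  have hval : ∀ j : ℕ, σ * qf M (mt (A ^ j) *ᵥ z) =
      (a ^ 2 * (σ * qf M zp)) * (μ ^ 2) ^ j + σ * (a * b * m) + (b ^ 2 * (σ * qf M zm)) * ((μ⁻¹) ^ 2) ^ j := by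
    intro j
    rw [hpow, qf_comb]
    have e : μ ^ j * (μ⁻¹) ^ j = 1 := by rw [← mul_pow, mul_inv_cancel₀ hμ0, one_pow]
    have e1 : (μ ^ 2) ^ j = μ ^ j * μ ^ j := by rw [← pow_mul, two_mul, pow_add]
    have e2 : ((μ⁻¹) ^ 2) ^ j = μ⁻¹ ^ j * μ⁻¹ ^ j := by rw [← pow_mul, two_mul, pow_add]
    rw [e1, e2]
    linear_combination (σ * a * b * m) * e
  set K := |σ * (a * b * m)| + |b ^ 2 * (σ * qf M zm)| with hK
  have hA : 0 < a ^ 2 * (σ * qf M zp) := mul_pos (by positivity) hM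
  obtain ⟨j0, hj0⟩ := pow_unbounded_of_one_lt (K / (a ^ 2 * (σ * qf M zp))) hμ
  refine ⟨j0, fun j hj => ?_⟩
  rw [hval]
  have h1 : (μ ^ 2) ^ j0 ≤ (μ ^ 2) ^ j := pow_le_pow_right₀ hμ.le hj
  have h2 : K < (a ^ 2 * (σ * qf M zp)) * (μ ^ 2) ^ j := by
    have := (div_lt_iff₀ hA).mp (lt_of_lt_of_le hj0 h1)
    linarith
  have h3 : 0 < ((μ⁻¹) ^ 2) ^ j ∧ ((μ⁻¹) ^ 2) ^ j ≤ 1 := by
    constructor
    · positivity
    · apply pow_le_one₀ (by positivity)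
      rw [inv_pow]; exact inv_le_one_of_one_le₀ hμ.le
  have h4 : |(b ^ 2 * (σ * qf M zm)) * ((μ⁻¹) ^ 2) ^ j| ≤ |b ^ 2 * (σ * qf M zm)| := by
    rw [abs_mul, abs_of_pos h3.1]
    exact mul_le_of_le_one_right (abs_nonneg _) h3.2
  have h5 := neg_abs_le (σ * (a * b * m))
  have h6 := neg_abs_le ((b ^ 2 * (σ * qf M zm)) * ((μ⁻¹) ^ 2) ^ j)
  linarith

lemma int_switch (A : ℤ → Prop) (j0 : ℤ) (h0 : ∀ j ≥ j0, A j) (j1 : ℤ) (h1 : ¬ A j1) :
    ∃ j, A j ∧ ¬ A (j - 1) := by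
  have hb : ∃ b : ℤ, ∀ z : ℤ, ¬ A z → z ≤ b := by
    refine ⟨j0, fun z hz => ?_⟩
    by_contra hcon
    push Not at hcon
    exact hz (h0 z hcon.le)
  obtain ⟨m, hm, hmax⟩ := Int.exists_greatest_of_bdd hb ⟨j1, h1⟩
  refine ⟨m + 1, ?_, by simpa using hm⟩
  by_contra hcon
  have := hmax _ hcon
  omega

variable {Γ : Type*} [Group Γ] (ρ : Γ →* SL2)

/-- conjugates of `w` whose axis separates the lines of `p` and `r` -/
def Lk (w : Γ) (p r : V2) : Set Γ := {x | IsConj w x ∧ qf (mt (ρ x)) p * qf (mt (ρ x)) r < 0}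

lemma Lk_conj (w : Γ) (p r : V2) (g x : Γ) :
    g * x * g⁻¹ ∈ Lk ρ w (mt (ρ g) *ᵥ p) (mt (ρ g) *ᵥ r) ↔ x ∈ Lk ρ w p r := by
  have h1 : IsConj w (g * x * g⁻¹) ↔ IsConj w x := by
    have : IsConj x (g * x * g⁻¹) := isConj_iff.mpr ⟨g, rfl⟩
    exact ⟨fun h => h.trans this.symm, fun h => h.trans this⟩
  have h2 : mt (ρ (g * x * g⁻¹)) = mt (ρ g) * mt (ρ x) * mt (ρ g)⁻¹ := by
    rw [map_mul, map_mul, map_inv, mt_mul, mt_mul]
  unfold Lk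
  simp only [Set.mem_ofPred_eq]
  rw [h1, h2, qf_conj_mt, qf_conj_mt]

/-- `x` is a greatest element of `Lk` -/
def IsMaxLk (P : TPO Γ) (w : Γ) (p r : V2) (x : Γ) : Prop :=
  x ∈ Lk ρ w p r ∧ ∀ y ∈ Lk ρ w p r, P.le y x

lemma IsMaxLk.conj {P : TPO Γ} {w : Γ} {p r : V2} {x : Γ} (h : IsMaxLk ρ P w p r x) (g : Γ) :
    IsMaxLk ρ P w (mt (ρ g) *ᵥ p) (mt (ρ g) *ᵥ r) (g * x * g⁻¹) := by
  refine ⟨(Lk_conj ρ w p r g x).mpr h.1, fun y hy => ?_⟩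
  have e : y = g * (g⁻¹ * y * g) * g⁻¹ := by group
  rw [e] at hy ⊢
  rw [P.le_conj]
  exact h.2 _ ((Lk_conj ρ w p r g _).mp hy)

lemma trace_of_conj {w x : Γ} (h : IsConj w x) (hw : (mt (ρ w)).trace = 2 * C) :
    (mt (ρ x)).trace = 2 * C := by
  obtain ⟨c, rfl⟩ := isConj_iff.mp h
  rw [map_mul, map_mul, map_inv, trace_conj, hw]

/-- **the order argument** -/
theorem core (hC : C ^ 2 - D ^ 2 = 1) (hCD : 0 < C * D) (w : Γ) (hw : (mt (ρ w)).trace = 2 * C)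
    (P : TPO Γ) (σ : ℝ) (g h g1 h1 : Γ) (cg : IsConj w g) (ch : IsConj w h) (cg1 : IsConj w g1)
    (ch1 : IsConj w h1) (rel : g * h⁻¹ = g1 * h1⁻¹)
    (hκ : ip (dir C D (ρ g)) (dir C D (ρ h)) ^ 2 < 1)
    (hP : Neg σ (dir C D (ρ g) + dir C D (ρ h1)))
    (hQ : Pos σ (dir C D (ρ h) + dir C D (ρ g1)))
    (μ : ℝ) (zp zm : V2) (hμ : 1 < μ ^ 2) (hzp : mt (ρ h1) *ᵥ zp = μ • zp)
    (hzm : mt (ρ h1) *ᵥ zm = μ⁻¹ • zm) (hd : dt zp zm ≠ 0)
    (hp1 : 0 < σ * qf (dir C D (ρ g1)) zp) (hm1 : σ * qf (dir C D (ρ g1)) zm < 0)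
    (hc : P.pos (g * h⁻¹)) (he : P.pos (h1⁻¹ * h))
    (p r : V2) (hmax : IsMaxLk ρ P w p r h1) : False := by
  have hD : D ≠ 0 := by rintro rfl; simp at hCD
  have hμ0 : μ ≠ 0 := by rintro rfl; norm_num at hμ
  have hσ0 : σ ≠ 0 := by rintro rfl; simp at hp1
  have tg := trace_of_conj ρ cg hw
  have th := trace_of_conj ρ ch hw
  have tg1 := trace_of_conj ρ cg1 hw
  have th1 := trace_of_conj ρ ch1 hw
  have q : Quad C D (dir C D (ρ g)) (dir C D (ρ h)) (dir C D (ρ g1)) (dir C D (ρ h1)) := by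
    refine ⟨dir_U2 hD hC _ tg, dir_U2 hD hC _ th, dir_U2 hD hC _ tg1, dir_U2 hD hC _ th1, ?_, hC, hCD⟩
    show el C D _ * eli C D _ = el C D _ * eli C D _
    rw [el_dir hD, el_dir hD, eli_dir hD _ th, eli_dir hD _ th1, ← mt_mul, ← mt_mul,
      ← map_inv, ← map_inv, ← map_mul, ← map_mul, rel]
  -- positivity of the various elements
  have pos_h1 : ∀ x, P.pos (h1⁻¹ * x) → ∀ p r, IsMaxLk ρ P w p r h1 → x ∈ Lk ρ w p r → False := by
    intro x hx p r hm hxL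
    have := hm.2 x hxL
    unfold TPO.le at this
    apply hx
    simpa using this
  have posg : P.pos (h1⁻¹ * g) := by
    have e : h1⁻¹ * g = (h1⁻¹ * h) * (h⁻¹ * g) := by group
    rw [e]
    apply P.pos_mul he
    have := P.conj h⁻¹ _ hc.nn
    have e2 : h⁻¹ * (g * h⁻¹) * h⁻¹⁻¹ = h⁻¹ * g := by group
    rwa [e2] at this
  have posg1 : P.pos (h1⁻¹ * g1) := by
    rw [rel, ← P.pos_conj h1⁻¹] at hc
    have e2 : h1⁻¹ * (g1 * h1⁻¹) * h1⁻¹⁻¹ = h1⁻¹ * g1 := by group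
    rwa [e2] at hc
  have poshg : P.pos (h1⁻¹ * (h * g * h⁻¹)) := by
    have e : h1⁻¹ * (h * g * h⁻¹) = (h1⁻¹ * h) * (g * h⁻¹) := by group
    rw [e]; exact P.pos_mul he hc.nn
  have poshg1 : P.pos (h1⁻¹ * (h1 * g1 * h1⁻¹)) := by
    have e : h1⁻¹ * (h1 * g1 * h1⁻¹) = g1 * h1⁻¹ := by group
    rw [e, ← rel]; exact hc
  -- wlog on the order of p, r
  wlog hpr : 0 < σ * qf (dir C D (ρ h1)) p generalizing p r with H
  · refine H r p ?_ ?_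
    · refine ⟨⟨hmax.1.1, by rw [mul_comm]; exact hmax.1.2⟩, fun y hy => hmax.2 y ?_⟩
      exact ⟨hy.1, by rw [mul_comm]; exact hy.2⟩
    · have hx1 := hmax.1.2
      have hx2 : (σ * qf (dir C D (ρ h1)) p) * (σ * qf (dir C D (ρ h1)) r) < 0 := by
        rw [qf_dir, qf_dir]
        have : σ * (D⁻¹ * qf (mt (ρ h1)) p) * (σ * (D⁻¹ * qf (mt (ρ h1)) r))
          = (σ * D⁻¹) ^ 2 * (qf (mt (ρ h1)) p * qf (mt (ρ h1)) r) := by ring
        rw [this]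
        exact mul_neg_of_pos_of_neg (by positivity) hx1
      push Not at hpr
      by_contra hcon
      push Not at hcon
      have := mul_nonneg_of_nonpos_of_nonpos hpr hcon
      linarith
  have hr : σ * qf (dir C D (ρ h1)) r < 0 := by
    have hx1 := hmax.1.2
    have hx2 : (σ * qf (dir C D (ρ h1)) p) * (σ * qf (dir C D (ρ h1)) r) < 0 := by
      rw [qf_dir, qf_dir]
      have : σ * (D⁻¹ * qf (mt (ρ h1)) p) * (σ * (D⁻¹ * qf (mt (ρ h1)) r))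
        = (σ * D⁻¹) ^ 2 * (qf (mt (ρ h1)) p * qf (mt (ρ h1)) r) := by ring
      rw [this]
      exact mul_neg_of_pos_of_neg (by positivity) hx1
    by_contra hcon
    push Not at hcon
    have := mul_nonneg hpr.le hcon
    linarith
  -- eigenvector facts
  have qzp : qf (dir C D (ρ h1)) zp = 0 := by
    rw [qf_dir, qf, hzp, dt_smul_right, dt_self]; simp
  have qzm : qf (dir C D (ρ h1)) zm = 0 := by
    rw [qf_dir, qf, hzm, dt_smul_right, dt_self]; simp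
  have nonpar : ∀ y z : V2, dt zp zm ≠ 0 → (z = zp ∨ z = zm) → qf (dir C D (ρ h1)) y ≠ 0 →
      dt y z ≠ 0 := by
    intro y z hd' hz hy h0
    apply hy
    have hy' := vec_decomp zp zm y hd'
    rcases hz with rfl | rfl
    · have : dt z y = 0 := by rw [dt_swap, h0, neg_zero]
      rw [this] at hy'
      rw [hy', zero_div, zero_smul, add_zero, qf_smulVec, qzp, mul_zero]
    · rw [h0] at hy'
      rw [hy', zero_div, zero_smul, zero_add, qf_smulVec, qzm, mul_zero]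
  have hqp : qf (dir C D (ρ h1)) p ≠ 0 := by intro h0; rw [h0] at hpr; simp at hpr
  have hqr : qf (dir C D (ρ h1)) r ≠ 0 := by intro h0; rw [h0] at hr; simp at hr
  set s := -(σ * qf (dir C D (ρ h1)) r) with hs
  set t := σ * qf (dir C D (ρ h1)) p with ht
  have hs0 : 0 < s := by linarith
  -- the function of j
  let f : ℤ → ℝ := fun j => s * (σ * qf (dir C D (ρ g1)) (mt (ρ (h1 ^ j)) *ᵥ p)) +
    t * (σ * qf (dir C D (ρ g1)) (mt (ρ (h1 ^ j)) *ᵥ r))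
  -- large j
  obtain ⟨j0, hj0⟩ := dyn (ρ h1) (dir C D (ρ g1)) σ μ zp zm p hzp hzm hμ hd hp1
    (nonpar p zm hd (Or.inr rfl) hqp)
  obtain ⟨j0', hj0'⟩ := dyn (ρ h1) (dir C D (ρ g1)) σ μ zp zm r hzp hzm hμ hd hp1
    (nonpar r zm hd (Or.inr rfl) hqr)
  have hinv : ∀ (z : V2) (ν : ℝ), ν ≠ 0 → mt (ρ h1) *ᵥ z = ν • z → mt (ρ h1)⁻¹ *ᵥ z = ν⁻¹ • z := by
    intro z ν hν hz
    have : mt (ρ h1)⁻¹ *ᵥ (mt (ρ h1) *ᵥ z) = z := by rw [mulVec_mulVec, mt_inv_mul, one_mulVec]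
    rw [hz, mulVec_smul] at this
    rw [← this, smul_smul, inv_mul_cancel₀ hν, one_smul, this]
  have hzm' : mt (ρ h1)⁻¹ *ᵥ zm = μ • zm := by
    have := hinv zm μ⁻¹ (inv_ne_zero hμ0) hzm
    rwa [inv_inv] at this
  have hzp' := hinv zp μ hμ0 hzp
  have hd' : dt zm zp ≠ 0 := by rw [dt_swap]; exact neg_ne_zero.mpr hd
  obtain ⟨j1, hj1⟩ := dyn (ρ h1)⁻¹ (dir C D (ρ g1)) (-σ) μ zm zp p hzm' hzp' hμ hd' (by linarith)
    (nonpar p zp hd (Or.inl rfl) hqp)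
  obtain ⟨j1', hj1'⟩ := dyn (ρ h1)⁻¹ (dir C D (ρ g1)) (-σ) μ zm zp r hzm' hzp' hμ hd' (by linarith)
    (nonpar r zp hd (Or.inl rfl) hqr)
  obtain ⟨j, hjA, hjB⟩ := int_switch (fun j => 0 ≤ f j) (max j0 j0') (by
      intro j hj
      obtain ⟨n, rfl⟩ : ∃ n : ℕ, j = n := ⟨j.toNat, by omega⟩
      have a1 := hj0 n (by omega)
      have a2 := hj0' n (by omega)
      rw [← map_pow] at a1 a2
      show 0 ≤ s * (σ * qf (dir C D (ρ g1)) (mt (ρ (h1 ^ (n : ℤ))) *ᵥ p)) +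
        t * (σ * qf (dir C D (ρ g1)) (mt (ρ (h1 ^ (n : ℤ))) *ᵥ r))
      rw [zpow_natCast]
      have := mul_pos hs0 a1
      have := mul_pos hpr a2
      linarith) (-((max j1 j1' : ℕ) : ℤ)) (by
      have a1 := hj1 (max j1 j1') (le_max_left _ _)
      have a2 := hj1' (max j1 j1') (le_max_right _ _)
      rw [← map_inv, ← map_pow] at a1 a2
      show ¬ (0 ≤ s * (σ * qf (dir C D (ρ g1)) (mt (ρ (h1 ^ (-((max j1 j1' : ℕ) : ℤ)))) *ᵥ p)) +
        t * (σ * qf (dir C D (ρ g1)) (mt (ρ (h1 ^ (-((max j1 j1' : ℕ) : ℤ)))) *ᵥ r)))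
      rw [_root_.zpow_neg, zpow_natCast, ← inv_pow]
      have := mul_pos hs0 a1
      have := mul_pos hpr a2
      linarith)
  -- apply the geometric step to the translate
  have hm' := hmax.conj ρ (h1 ^ j)
  have e1 : h1 ^ j * h1 * (h1 ^ j)⁻¹ = h1 := by group
  rw [e1] at hm'
  have inv1 : ∀ y : V2, qf (dir C D (ρ h1)) (mt (ρ (h1 ^ j)) *ᵥ y) = qf (dir C D (ρ h1)) y := by
    intro y
    have : dir C D (ρ h1) = mt (ρ (h1 ^ j)) * dir C D (ρ h1) * mt (ρ (h1 ^ j))⁻¹ := by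
      rw [← dir_conj, ← map_inv, ← map_mul, ← map_mul, e1]
    conv_lhs => rw [this]
    rw [qf_conj_mt]
  have inv2 : ∀ y : V2, qf (Ad C D (dir C D (ρ h1)) (dir C D (ρ g1))) (mt (ρ (h1 ^ j)) *ᵥ y)
      = qf (dir C D (ρ g1)) (mt (ρ (h1 ^ (j - 1))) *ᵥ y) := by
    intro y
    rw [Ad_dir hD _ _ th1, dir_conj, qf_conj_mt', mulVec_mulVec, ← mt_mul, ← map_inv, ← map_mul]
    congr 4
    group
  have hcross := q.cross hκ hP hQ (mt (ρ (h1 ^ j)) *ᵥ p) (mt (ρ (h1 ^ j)) *ᵥ r)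
    (by rw [inv1]; exact hpr) (by rw [inv1]; exact hr)
    (by rw [inv1, inv1]; exact hjA)
    (by
      rw [inv1, inv1, inv2, inv2]
      have : ¬ (0 ≤ f (j - 1)) := hjB
      push Not at this
      exact this.le)
  rw [Ad_dir hD _ _ th, Ad_dir hD _ _ th1, ← map_inv, ← map_inv, ← map_mul, ← map_mul, ← map_mul,
    ← map_mul] at hcross
  have conv : ∀ x : Γ, ∀ p r : V2, (σ * qf (dir C D (ρ x)) p) * (σ * qf (dir C D (ρ x)) r) < 0 →
      qf (mt (ρ x)) p * qf (mt (ρ x)) r < 0 := by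
    intro x p r hx
    rw [qf_dir, qf_dir] at hx
    have : σ * (D⁻¹ * qf (mt (ρ x)) p) * (σ * (D⁻¹ * qf (mt (ρ x)) r))
          = (σ * D⁻¹) ^ 2 * (qf (mt (ρ x)) p * qf (mt (ρ x)) r) := by ring
    rw [this] at hx
    by_contra hcon
    push Not at hcon
    have := mul_nonneg (sq_nonneg (σ * D⁻¹)) hcon
    linarith
  have cjc : ∀ a x : Γ, IsConj w x → IsConj w (a * x * a⁻¹) := by
    intro a x hx
    exact hx.trans (isConj_iff.mpr ⟨a, rfl⟩)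
  rcases hcross with h | h | h | h | h
  · exact pos_h1 g posg _ _ hm' ⟨cg, conv _ _ _ h⟩
  · exact pos_h1 _ he _ _ hm' ⟨ch, conv _ _ _ h⟩
  · exact pos_h1 g1 posg1 _ _ hm' ⟨cg1, conv _ _ _ h⟩
  · exact pos_h1 _ poshg _ _ hm' ⟨cjc _ _ cg, conv _ _ _ h⟩
  · exact pos_h1 _ poshg1 _ _ hm' ⟨cjc _ _ cg1, conv _ _ _ h⟩

end Pool.Agent.TH94.Gol
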