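import Mathlib
import Pool.Agent.TH94.Gol.Core

set_option autoImplicit false

namespace Pool.Agent.TH94.Gol

open Matrix

variable {C D : ℝ} {Γ : Type*} [Group Γ] (ρ : Γ →* SL2)

/-- discreteness: finitely many elements with bounded entries -/
def Disc : Prop := ∀ R : ℝ, {x : Γ | ∀ i j, |mt (ρ x) i j| ≤ R}.Finite

lemma eig_zpow (A : SL2) (μ : ℝ) (hμ : μ ≠ 0) (p : V2) (hp : mt A *ᵥ p = μ • p) (n : ℤ) :
    mt (A ^ n) *ᵥ p = (μ ^ n) • p := by
  have hnat : ∀ (B : SL2) (ν : ℝ), mt B *ᵥ p = ν • p → ∀ n : ℕ, mt (B ^ n) *ᵥ p = (ν ^ n) • p := by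
    intro B ν hB n
    induction n with
    | zero => simp [mt_one]
    | succ n ih =>
      rw [pow_succ', mt_mul, ← mulVec_mulVec, ih, mulVec_smul, hB, smul_smul]
      congr 1
  have hinv : mt A⁻¹ *ᵥ p = μ⁻¹ • p := by
    have : mt A⁻¹ *ᵥ (mt A *ᵥ p) = p := by rw [mulVec_mulVec, mt_inv_mul, one_mulVec]
    rw [hp, mulVec_smul] at this
    conv_rhs => rw [← this]
    rw [smul_smul, inv_mul_cancel₀ hμ, one_smul]
  rcases n with n | n
  · simpa using hnat A μ hp n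
  · have := hnat A⁻¹ μ⁻¹ hinv (n + 1)
    rw [zpow_negSucc, ← inv_pow, this, zpow_negSucc, inv_pow]

/-- the product identity for the values of a traceless form -/
lemma qf_mul_qf (M : M2) (hM : M 1 1 = - M 0 0) (p r : V2) :
    qf M p * qf M r = dt p (M *ᵥ r) ^ 2 - nq M * dt p r ^ 2 := by
  rw [qf_eq, qf_eq, nq]
  simp [dt, mulVec, dotProduct, Fin.sum_univ_two, hM]; ring

lemma bound_aux (K S a b m x y z t : ℝ) (ha : |a| ≤ K) (hb : |b| ≤ K) (hm : |m| ≤ K)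
    (hx : |x| ≤ S) (hy : |y| ≤ S) (hz : |z| ≤ S) (ht : |t| ≤ S) :
    |x * (-m * y + a * z) + t * (-b * y + m * z)| ≤ 4 * K * S ^ 2 := by
  have hK : 0 ≤ K := le_trans (abs_nonneg _) ha
  have hS : 0 ≤ S := le_trans (abs_nonneg _) hx
  have tri : ∀ u v w : ℝ, |u| ≤ S → |v| ≤ K → |w| ≤ S → |u * (v * w)| ≤ K * S ^ 2 := by
    intro u v w h1 h2 h3
    rw [abs_mul, abs_mul]
    have h4 : |v| * |w| ≤ K * S := mul_le_mul h2 h3 (abs_nonneg _) hK
    have h5 : |u| * (|v| * |w|) ≤ S * (K * S) :=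
      mul_le_mul h1 h4 (mul_nonneg (abs_nonneg _) (abs_nonneg _)) hS
    linarith
  have e : x * (-m * y + a * z) + t * (-b * y + m * z)
    = x * ((-m) * y) + x * (a * z) + (t * ((-b) * y) + t * (m * z)) := by ring
  rw [e]
  have h1 := tri x (-m) y hx (by rwa [abs_neg]) hy
  have h2 := tri x a z hx ha hz
  have h3 := tri t (-b) y ht (by rwa [abs_neg]) hy
  have h4 := tri t m z ht hm hz
  have h5 := abs_add_le (x * ((-m) * y)) (x * (a * z))
  have h6 := abs_add_le (t * ((-b) * y)) (t * (m * z))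
  have h7 := abs_add_le (x * ((-m) * y) + x * (a * z)) (t * ((-b) * y) + t * (m * z))
  linarith

/-- recovering a traceless matrix from its values at two independent vectors -/
lemma ent_bound (M : M2) (hM : M 1 1 = - M 0 0) (p r : V2) (hd : dt p r ≠ 0) (K : ℝ)
    (ha : |qf M p| ≤ K) (hb : |qf M r| ≤ K) (hm : |dt p (M *ᵥ r)| ≤ K) (i j : Fin 2) :
    |M i j| ≤ 4 * K * (|p 0| + |p 1| + |r 0| + |r 1|) ^ 2 / dt p r ^ 2 := by
  set S := |p 0| + |p 1| + |r 0| + |r 1| with hS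
  have n1 := abs_nonneg (p 0)
  have n2 := abs_nonneg (p 1)
  have n3 := abs_nonneg (r 0)
  have n4 := abs_nonneg (r 1)
  have hp : ∀ i, |p i| ≤ S := by intro i; fin_cases i <;> simp <;> linarith
  have hr : ∀ i, |r i| ≤ S := by intro i; fin_cases i <;> simp <;> linarith
  have hd2 : 0 < dt p r ^ 2 := by positivity
  rw [le_div_iff₀ hd2]
  have key : ∀ i j, ∃ x t : ℝ, |x| ≤ S ∧ |t| ≤ S ∧ M i j * dt p r ^ 2 =
      x * (-(dt p (M *ᵥ r)) * p i + qf M p * r i) + t * (-(qf M r) * p i + dt p (M *ᵥ r) * r i) := by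
    intro i j
    fin_cases j
    · refine ⟨r 1, -p 1, hr 1, by rw [abs_neg]; exact hp 1, ?_⟩
      fin_cases i <;> simp [qf_eq, dt, mulVec, dotProduct, Fin.sum_univ_two, hM] <;> ring
    · refine ⟨-r 0, p 0, by rw [abs_neg]; exact hr 0, hp 0, ?_⟩
      fin_cases i <;> simp [qf_eq, dt, mulVec, dotProduct, Fin.sum_univ_two, hM] <;> ring
  obtain ⟨x, t, hx, ht, he⟩ := key i j
  have : |M i j| * dt p r ^ 2 = |M i j * dt p r ^ 2| := by
    rw [abs_mul, abs_of_pos hd2]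
  rw [this, he]
  exact bound_aux K S _ _ _ x (p i) (r i) t ha hb hm hx (hp i) (hr i) ht

/-- **`Lk` is finite modulo the hyperbolic element `k`** -/
theorem Lk_fin (hdisc : Disc ρ) (w : Γ)
    (k : Γ) (l : ℝ) (hl : 1 < l ^ 2) (p r : V2) (hp : mt (ρ k) *ᵥ p = l • p)
    (hr : mt (ρ k) *ᵥ r = l⁻¹ • r) (hd : dt p r ≠ 0) :
    ∃ L0 : Set Γ, L0.Finite ∧ L0 ⊆ Lk ρ w p r ∧
      ∀ x ∈ Lk ρ w p r, ∃ n : ℤ, k ^ n * x * (k ^ n)⁻¹ ∈ L0 := by
  have hl0 : l ≠ 0 := by rintro rfl; norm_num at hl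
  set C := (mt (ρ w)).trace / 2 with hCdef
  have hw : (mt (ρ w)).trace = 2 * C := by rw [hCdef]; ring
  have hl4 : 1 < l ^ 4 := by nlinarith
  -- the shifted matrices
  have hMtr : ∀ x, (mt (ρ x)).trace = 2 * C → (mt (ρ x) - C • (1 : M2)) 1 1
      = - (mt (ρ x) - C • (1 : M2)) 0 0 := by
    intro x hx
    simp [trace, Fin.sum_univ_two] at hx ⊢
    linarith
  have hMnq : ∀ x, (mt (ρ x)).trace = 2 * C → nq (mt (ρ x) - C • (1 : M2)) = C ^ 2 - 1 := by
    intro x hx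
    have h1 := mt_det_eq (ρ x)
    have h2 : mt (ρ x) 1 1 = 2 * C - mt (ρ x) 0 0 := by
      rw [← hx]; simp [trace, Fin.sum_univ_two]
    rw [h2] at h1
    unfold nq
    simp
    linear_combination -h1
  have hqf : ∀ x y, qf (mt (ρ x) - C • (1 : M2)) y = qf (mt (ρ x)) y := by
    intro x y; rw [qf_sub, qf_smul, qf_one]; ring
  -- the fundamental domain
  let L0 : Set Γ := {x | x ∈ Lk ρ w p r ∧ |qf (mt (ρ x)) r| ≤ |qf (mt (ρ x)) p| ∧
    |qf (mt (ρ x)) p| ≤ l ^ 4 * |qf (mt (ρ x)) r|}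
  have hfin : L0.Finite := by
    set N := |C ^ 2 - 1| * dt p r ^ 2 with hN
    set K := l ^ 4 * N + 1 with hK
    apply (hdisc (4 * K * (|p 0| + |p 1| + |r 0| + |r 1|) ^ 2 / dt p r ^ 2 + |C|)).subset
    rintro x ⟨⟨hx1, hx2⟩, hx3, hx4⟩ i j
    have htx := trace_of_conj ρ hx1 hw
    have hid := qf_mul_qf _ (hMtr x htx) p r
    rw [hMnq x htx, hqf, hqf] at hid
    set a := qf (mt (ρ x)) p with ha
    set b := qf (mt (ρ x)) r with hb
    set m := dt p ((mt (ρ x) - C • (1 : M2)) *ᵥ r) with hm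
    have hN0 : 0 ≤ N := by positivity
    have hCN : (C ^ 2 - 1) * dt p r ^ 2 ≤ N := by
      rw [hN]; exact mul_le_mul_of_nonneg_right (le_abs_self _) (by positivity)
    have h1 : m ^ 2 ≤ N := by nlinarith
    have h2 : |a| * |b| ≤ N := by
      rw [← abs_mul, abs_of_neg hx2]; nlinarith [sq_nonneg m]
    have hlN : N ≤ l ^ 4 * N := by nlinarith
    have sqb : ∀ z : ℝ, z ^ 2 ≤ l ^ 4 * N → |z| ≤ K := by
      intro z hz
      rw [hK]
      have h0 := abs_nonneg z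
      have h3 : |z| ^ 2 = z ^ 2 := sq_abs z
      by_contra hcon
      push Not at hcon
      nlinarith
    have hmK : |m| ≤ K := sqb m (by linarith)
    have hbK : |b| ≤ K := by
      apply sqb
      rw [← sq_abs]
      have := mul_le_mul_of_nonneg_right hx3 (abs_nonneg b)
      nlinarith
    have haK : |a| ≤ K := by
      apply sqb
      rw [← sq_abs]
      have h5 := mul_le_mul_of_nonneg_left hx4 (abs_nonneg a)
      have h6 := mul_le_mul_of_nonneg_left h2 (by positivity : (0:ℝ) ≤ l ^ 4)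
      nlinarith
    have h7 := ent_bound (mt (ρ x) - C • (1 : M2)) (hMtr x htx) p r hd K (by rw [hqf]; exact haK)
      (by rw [hqf]; exact hbK) hmK i j
    have h8 : mt (ρ x) i j = (mt (ρ x) - C • (1 : M2)) i j + C * (1 : M2) i j := by
      simp
    rw [h8]
    have h9 : |C * (1 : M2) i j| ≤ |C| := by
      rw [abs_mul]
      have : |(1 : M2) i j| ≤ 1 := by
        rw [Matrix.one_apply]; split_ifs <;> simp
      exact mul_le_of_le_one_right (abs_nonneg _) this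
    have h10 := abs_add_le ((mt (ρ x) - C • (1 : M2)) i j) (C * (1 : M2) i j)
    linarith
  -- translating into the domain
  have htrans : ∀ x ∈ Lk ρ w p r, ∃ n : ℤ, k ^ n * x * (k ^ n)⁻¹ ∈ L0 := by
    intro x hx
    have hx2 := hx.2
    have ha0 : qf (mt (ρ x)) p ≠ 0 := by intro h; rw [h] at hx2; simp at hx2
    have hb0 : qf (mt (ρ x)) r ≠ 0 := by intro h; rw [h] at hx2; simp at hx2
    have hapos := abs_pos.mpr ha0
    have hbpos := abs_pos.mpr hb0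
    obtain ⟨n, hn1, hn2⟩ := exists_mem_Ico_zpow (div_pos hapos hbpos) hl4
    refine ⟨n, ?_⟩
    have hmem : k ^ n * x * (k ^ n)⁻¹ ∈ Lk ρ w p r := by
      have h1 := (Lk_conj ρ w p r (k ^ n) x).mpr hx
      rw [map_zpow, eig_zpow _ l hl0 p hp, eig_zpow _ l⁻¹ (inv_ne_zero hl0) r hr] at h1
      refine ⟨h1.1, ?_⟩
      have h2 := h1.2
      rw [qf_smulVec, qf_smulVec] at h2
      have e : (l ^ n) ^ 2 * qf (mt (ρ (k ^ n * x * (k ^ n)⁻¹))) p *
          ((l⁻¹ ^ n) ^ 2 * qf (mt (ρ (k ^ n * x * (k ^ n)⁻¹))) r) =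
          ((l ^ n) * (l⁻¹ ^ n)) ^ 2 * (qf (mt (ρ (k ^ n * x * (k ^ n)⁻¹))) p *
          qf (mt (ρ (k ^ n * x * (k ^ n)⁻¹))) r) := by ring
      rw [e, ← mul_zpow, mul_inv_cancel₀ hl0, _root_.one_zpow, one_pow, one_mul] at h2
      exact h2
    have hval : ∀ (z : V2) (ν : ℝ), ν ≠ 0 → mt (ρ k) *ᵥ z = ν • z →
        (ν ^ n) ^ 2 * qf (mt (ρ (k ^ n * x * (k ^ n)⁻¹))) z = qf (mt (ρ x)) z := by
      intro z ν hν hz
      rw [← qf_smulVec, ← eig_zpow (ρ k) ν hν z hz, ← map_zpow, map_mul, map_mul, map_inv, mt_mul,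
        mt_mul, qf_conj_mt]
    have hvp := hval p l hl0 hp
    have hvr := hval r l⁻¹ (inv_ne_zero hl0) hr
    set a' := qf (mt (ρ (k ^ n * x * (k ^ n)⁻¹))) p with ha'
    set b' := qf (mt (ρ (k ^ n * x * (k ^ n)⁻¹))) r with hb'
    have hln : 0 < (l ^ n) ^ 2 := by positivity
    have hbr : qf (mt (ρ x)) r = ((l ^ n) ^ 2)⁻¹ * b' := by
      rw [← hvr, _root_.inv_zpow, inv_pow]
    rw [← hvp, hbr, abs_mul, abs_mul, abs_of_pos hln, abs_of_pos (inv_pos.mpr hln)] at hn1 hn2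
    have hb'0 : 0 < |b'| := by
      apply abs_pos.mpr
      intro h0; rw [h0, mul_zero] at hbr; exact hb0 hbr
    have e4 : ((l : ℝ) ^ 4) ^ n = (l ^ n) ^ 2 * (l ^ n) ^ 2 := by
      rw [← zpow_natCast, ← zpow_natCast, ← _root_.zpow_mul, ← _root_.zpow_mul, ← zpow_add₀ hl0]
      congr 1; push_cast; ring
    have e5 : (l ^ n) ^ 2 * |a'| / (((l ^ n) ^ 2)⁻¹ * |b'|) = (l ^ n) ^ 2 * (l ^ n) ^ 2 * (|a'| / |b'|) := by
      field_simp
    rw [e5, e4] at hn1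
    rw [zpow_add_one₀ (by positivity), e5, e4] at hn2
    have hL : 0 < (l ^ n) ^ 2 * (l ^ n) ^ 2 := mul_pos hln hln
    refine ⟨hmem, ?_, ?_⟩
    · have h1 : 1 ≤ |a'| / |b'| := by
        by_contra hcon
        push Not at hcon
        have := mul_lt_mul_of_pos_left hcon hL
        linarith
      rwa [one_le_div hb'0] at h1
    · have h1 : |a'| / |b'| < l ^ 4 := lt_of_mul_lt_mul_left hn2 hL.le
      rw [div_lt_iff₀ hb'0] at h1
      exact h1.le
  exact ⟨L0, hfin, fun x hx => hx.1, htrans⟩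

/-- **existence of a greatest element of `Lk`** -/
theorem exists_isMaxLk (hdisc : Disc ρ) (w : Γ) (P : TPO Γ)
    (k : Γ) (hk : P.null k) (l : ℝ) (hl : 1 < l ^ 2) (p r : V2) (hp : mt (ρ k) *ᵥ p = l • p)
    (hr : mt (ρ k) *ᵥ r = l⁻¹ • r) (hd : dt p r ≠ 0) (hne : (Lk ρ w p r).Nonempty) :
    ∃ x, IsMaxLk ρ P w p r x := by
  obtain ⟨L0, hfin, hsub, htrans⟩ := Lk_fin ρ hdisc w k l hl p r hp hr hd
  obtain ⟨x1, hx1⟩ := hne
  obtain ⟨n1, hn1⟩ := htrans x1 hx1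
  obtain ⟨x0, hx0, hmax⟩ := P.exists_max L0 hfin ⟨_, hn1⟩
  refine ⟨x0, hsub hx0, fun y hy => ?_⟩
  obtain ⟨n, hn⟩ := htrans y hy
  exact P.le_trans (P.le_of_null_conj' (P.null_zpow hk n) y) (hmax _ hn)

end Pool.Agent.TH94.Gol
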