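import Mathlib
import Pool.Agent.TH94.Gol.MaxLk

set_option autoImplicit false

namespace Pool.Agent.TH94.Gol

open Matrix Filter Topology

/-- eigenvectors of a hyperbolic matrix -/
lemma exists_eig (A : SL2) (hA : 4 < (mt A).trace ^ 2) :
    ∃ (l : ℝ) (p r : V2), 1 < l ^ 2 ∧ mt A *ᵥ p = l • p ∧ mt A *ᵥ r = l⁻¹ • r ∧ dt p r ≠ 0 := by
  set T := (mt A).trace with hT
  obtain ⟨l, hl, hleq⟩ : ∃ l : ℝ, 1 < l ^ 2 ∧ l ^ 2 - T * l + 1 = 0 := by
    have hs : Real.sqrt (T ^ 2 - 4) ^ 2 = T ^ 2 - 4 := Real.sq_sqrt (by linarith)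
    have hspos : 0 < Real.sqrt (T ^ 2 - 4) := Real.sqrt_pos.mpr (by linarith)
    rcases le_or_gt 0 T with h | h
    · refine ⟨(T + Real.sqrt (T ^ 2 - 4)) / 2, ?_, by nlinarith⟩
      have hT2 : 2 < T := by nlinarith
      have : 1 < (T + Real.sqrt (T ^ 2 - 4)) / 2 := by linarith
      nlinarith
    · refine ⟨(T - Real.sqrt (T ^ 2 - 4)) / 2, ?_, by nlinarith⟩
      have hT2 : T < -2 := by nlinarith
      have : (T - Real.sqrt (T ^ 2 - 4)) / 2 < -1 := by linarith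
      nlinarith
  have hl0 : l ≠ 0 := by rintro rfl; norm_num at hl
  have hTl : T = l + l⁻¹ := by field_simp; linarith
  have hdet := mt_det_eq A
  have htr : mt A 0 0 + mt A 1 1 = l + l⁻¹ := by
    rw [← hTl, hT]; simp [trace, Fin.sum_univ_two]
  have hne : l ≠ l⁻¹ := by
    intro h
    have : l * l = 1 := by nth_rewrite 2 [h]; exact mul_inv_cancel₀ hl0
    nlinarith
  -- Cayley Hamilton
  have CH : ∀ x y : ℝ, x + y = l + l⁻¹ → x * y = 1 →
      (mt A - x • (1 : M2)) * (mt A - y • (1 : M2)) = 0 := by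
    intro x y h1 h2
    have hd : mt A 1 1 = x + y - mt A 0 0 := by linarith
    rw [hd] at hdet
    ext i j
    fin_cases i <;> fin_cases j <;> simp [mul_apply, Fin.sum_univ_two, hd] <;> nlinarith
  have nz : ∀ y : ℝ, y * y ≠ 1 → ∃ e : V2, (mt A - y • (1 : M2)) *ᵥ e ≠ 0 := by
    intro y hy
    by_contra hcon
    push Not at hcon
    have e0 := hcon ![1, 0]
    have e1 := hcon ![0, 1]
    have a0 := congrFun e0 0
    have a1 := congrFun e0 1
    have b0 := congrFun e1 0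
    have b1 := congrFun e1 1
    simp [mulVec, dotProduct, Fin.sum_univ_two] at a0 a1 b0 b1
    apply hy
    have h1 : mt A 0 0 = y := by linarith
    have h2 : mt A 1 1 = y := by linarith
    rw [h1, h2, a1] at hdet
    linarith
  have hll : l * l⁻¹ = 1 := mul_inv_cancel₀ hl0
  obtain ⟨e, he⟩ := nz l⁻¹ (by
    intro h
    apply hne
    have : l = l * (l⁻¹ * l⁻¹) := by rw [h, mul_one]
    rw [← mul_assoc, hll, one_mul] at this
    exact this)
  obtain ⟨e', he'⟩ := nz l (by intro h; nlinarith)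
  set p := (mt A - l⁻¹ • (1 : M2)) *ᵥ e with hp
  set r := (mt A - l • (1 : M2)) *ᵥ e' with hr
  have hAp : mt A *ᵥ p = l • p := by
    have h1 := CH l l⁻¹ rfl hll
    have h2 : (mt A - l • (1 : M2)) *ᵥ p = 0 := by
      rw [hp, mulVec_mulVec, h1, zero_mulVec]
    rw [sub_mulVec, smul_mulVec, one_mulVec, sub_eq_zero] at h2
    exact h2
  have hAr : mt A *ᵥ r = l⁻¹ • r := by
    have h1 := CH l⁻¹ l (add_comm _ _) (by rw [mul_comm]; exact hll)
    have h2 : (mt A - l⁻¹ • (1 : M2)) *ᵥ r = 0 := by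
      rw [hr, mulVec_mulVec, h1, zero_mulVec]
    rw [sub_mulVec, smul_mulVec, one_mulVec, sub_eq_zero] at h2
    exact h2
  refine ⟨l, p, r, hl, hAp, hAr, ?_⟩
  intro hd
  -- p and r are parallel
  have h3 : ∀ i, p 0 * r i = r 0 * p i := by
    intro i; fin_cases i
    · simp [mul_comm]
    · simp [dt] at hd ⊢; linarith
  have h4 : ∀ i, p 1 * r i = r 1 * p i := by
    intro i; fin_cases i
    · simp [dt] at hd ⊢; linarith
    · simp [mul_comm]
  have key : ∀ c : ℝ, ∀ d : ℝ, (c • r = d • p) → c = 0 := by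
    intro c d hcd
    by_contra hc
    have h5 : r = (c⁻¹ * d) • p := by
      rw [mul_smul, ← hcd, smul_smul, inv_mul_cancel₀ hc, one_smul]
    have h6 : mt A *ᵥ r = (c⁻¹ * d) • (l • p) := by rw [h5, mulVec_smul, hAp]
    rw [hAr, smul_smul, mul_comm, mul_smul, ← h5] at h6
    have h7 : (l - l⁻¹) • r = 0 := by rw [sub_smul, h6, sub_self]
    rcases smul_eq_zero.mp h7 with h8 | h8
    · exact hne (sub_eq_zero.mp h8)
    · exact he' h8
  have h5 : p 0 = 0 := key _ _ (by ext i; simpa using h3 i)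
  have h6 : p 1 = 0 := key _ _ (by ext i; simpa using h4 i)
  apply he
  ext i; fin_cases i <;> simp [h5, h6]

/-- three zeros of a binary quadratic form -/
lemma three_zeros (M : M2) (x y z : V2) (hxy : dt x y ≠ 0) (hyz : dt y z ≠ 0) (hxz : dt x z ≠ 0)
    (hx : qf M x = 0) (hy : qf M y = 0) (hz : qf M z = 0) :
    M 1 0 = 0 ∧ M 0 1 = 0 ∧ M 1 1 = M 0 0 := by
  have hV : dt x y * dt y z * dt x z ≠ 0 := mul_ne_zero (mul_ne_zero hxy hyz) hxz
  rw [qf_eq] at hx hy hz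
  have e1 : M 1 0 * (dt x y * dt y z * dt x z) = 0 := by
    unfold dt
    linear_combination (y 1 * z 1 * (y 0 * z 1 - y 1 * z 0)) * hx
      - (x 1 * z 1 * (x 0 * z 1 - x 1 * z 0)) * hy + (x 1 * y 1 * (x 0 * y 1 - x 1 * y 0)) * hz
  have e2 : M 0 1 * (dt x y * dt y z * dt x z) = 0 := by
    unfold dt
    linear_combination -(y 0 * z 0 * (y 0 * z 1 - y 1 * z 0)) * hx
      + (x 0 * z 0 * (x 0 * z 1 - x 1 * z 0)) * hy - (x 0 * y 0 * (x 0 * y 1 - x 1 * y 0)) * hz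
  have e3 : (M 1 1 - M 0 0) * (dt x y * dt y z * dt x z) = 0 := by
    unfold dt
    linear_combination -((y 0 * z 1 + y 1 * z 0) * (y 0 * z 1 - y 1 * z 0)) * hx
      + ((x 0 * z 1 + x 1 * z 0) * (x 0 * z 1 - x 1 * z 0)) * hy
      - ((x 0 * y 1 + x 1 * y 0) * (x 0 * y 1 - x 1 * y 0)) * hz
  refine ⟨(mul_eq_zero.mp e1).resolve_right hV, (mul_eq_zero.mp e2).resolve_right hV, ?_⟩
  have := (mul_eq_zero.mp e3).resolve_right hV
  linarith

/-- crossing criterion in terms of traces -/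
lemma cross_of_ip (K : SL2) (M : M2) (hM : M 1 1 = - M 0 0) (l : ℝ) (p r : V2)
    (hp : mt K *ᵥ p = l • p) (hr : mt K *ᵥ r = l⁻¹ • r) (hl : 1 < l ^ 2) (hd : dt p r ≠ 0)
    (h : ((mt K * M).trace / 2) ^ 2 < (((mt K).trace / 2) ^ 2 - 1) * nq M) :
    qf M p * qf M r < 0 := by
  have hl0 : l ≠ 0 := by rintro rfl; norm_num at hl
  have hll : l * l⁻¹ = 1 := mul_inv_cancel₀ hl0
  -- trace K = l + l⁻¹
  have tr1 : ∀ X : M2, dt (X *ᵥ p) r + dt p (X *ᵥ r) = X.trace * dt p r := by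
    intro X
    simp [dt, mulVec, dotProduct, Fin.sum_univ_two, trace]; ring
  have hT : (mt K).trace = l + l⁻¹ := by
    have := tr1 (mt K)
    rw [hp, hr, dt_smul_left, dt_smul_right] at this
    have h2 : ((mt K).trace - (l + l⁻¹)) * dt p r = 0 := by linear_combination -this
    rcases mul_eq_zero.mp h2 with h3 | h3
    · linarith
    · exact absurd h3 hd
  -- dt p (M r)
  have htr : M.trace = 0 := by simp [trace, Fin.sum_univ_two, hM]
  have h0 := tr1 M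
  rw [htr, zero_mul] at h0
  -- trace (K M)
  have hKM : (mt K * M).trace * dt p r = -((l - l⁻¹) * dt p (M *ᵥ r)) := by
    have h1 := tr1 (M * mt K)
    rw [← mulVec_mulVec, ← mulVec_mulVec, hp, hr, mulVec_smul, mulVec_smul, dt_smul_left,
      dt_smul_right, trace_mul_comm] at h1
    linear_combination -h1 + l * h0
  rw [qf_mul_qf M hM]
  have hl' : 0 < (l - l⁻¹) ^ 2 := by
    have : l - l⁻¹ ≠ 0 := by
      intro h
      have : l * l = 1 := by
        have : l = l⁻¹ := sub_eq_zero.mp h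
        nth_rewrite 2 [this]; exact hll
      nlinarith
    positivity
  have e1 : ((mt K).trace / 2) ^ 2 - 1 = (l - l⁻¹) ^ 2 / 4 := by
    rw [hT]
    linear_combination hll
  rw [e1] at h
  have hd2 : 0 < dt p r ^ 2 := by positivity
  have e2 : ((mt K * M).trace / 2) ^ 2 * dt p r ^ 2 = (l - l⁻¹) ^ 2 / 4 * dt p (M *ᵥ r) ^ 2 := by
    have : ((mt K * M).trace / 2) ^ 2 * dt p r ^ 2 = ((mt K * M).trace * dt p r) ^ 2 / 4 := by ring
    rw [this, hKM]; ring
  have h5 := mul_lt_mul_of_pos_right h hd2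
  rw [e2] at h5
  have h6 : (l - l⁻¹) ^ 2 / 4 * (dt p (M *ᵥ r) ^ 2 - nq M * dt p r ^ 2) < 0 := by linarith
  by_contra hcon
  push Not at hcon
  have := mul_nonneg (by positivity : 0 ≤ (l - l⁻¹) ^ 2 / 4) hcon
  linarith

/-- conjugating into the basis `zp, zm` -/
noncomputable def cb (zp zm : V2) (X : M2) : M2 :=
  !![dt (X *ᵥ zp) zm / dt zp zm, dt (X *ᵥ zm) zm / dt zp zm;
     dt zp (X *ᵥ zp) / dt zp zm, dt zp (X *ᵥ zm) / dt zp zm]

lemma cb_eq (zp zm : V2) (X : M2) : cb zp zm X =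
    ((dt zp zm)⁻¹ • !![zm 1, - zm 0; - zp 1, zp 0]) * X * !![zp 0, zm 0; zp 1, zm 1] := by
  ext i j
  fin_cases i <;> fin_cases j <;>
    simp [cb, mul_apply, Fin.sum_univ_two, dt, mulVec, vecMul, dotProduct] <;> ring

lemma cb_mul (zp zm : V2) (hd : dt zp zm ≠ 0) (X Y : M2) :
    cb zp zm (X * Y) = cb zp zm X * cb zp zm Y := by
  have h : (!![zp 0, zm 0; zp 1, zm 1] : M2) * ((dt zp zm)⁻¹ • !![zm 1, - zm 0; - zp 1, zp 0]) = 1 := by
    have hd' : zp 0 * zm 1 - zp 1 * zm 0 ≠ 0 := hd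
    ext i j
    fin_cases i <;> fin_cases j <;> simp [mul_apply, Fin.sum_univ_two, dt] <;> field_simp <;> ring
  rw [cb_eq, cb_eq, cb_eq]
  calc _ = ((dt zp zm)⁻¹ • !![zm 1, - zm 0; - zp 1, zp 0]) * X * 1 * Y * !![zp 0, zm 0; zp 1, zm 1] := by
        simp only [mul_assoc, one_mul]
    _ = _ := by rw [← h]; simp only [mul_assoc]

lemma cb_trace (zp zm : V2) (hd : dt zp zm ≠ 0) (X : M2) : (cb zp zm X).trace = X.trace := by
  have hd' : zp 0 * zm 1 - zp 1 * zm 0 ≠ 0 := hd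
  simp [cb, trace, Fin.sum_univ_two, dt, mulVec, dotProduct]
  field_simp
  ring

lemma cb_diag (zp zm : V2) (hd : dt zp zm ≠ 0) (X : M2) (a b : ℝ) (hp : X *ᵥ zp = a • zp)
    (hm : X *ᵥ zm = b • zm) : cb zp zm X = !![a, 0; 0, b] := by
  ext i j
  fin_cases i <;> fin_cases j <;> simp [cb, hp, hm, dt_smul_left, dt_smul_right, dt_self, hd]

/-- the analytic part of the ping-pong argument -/
lemma exists_N (a b c d a' b' c' d' m x y n ν : ℝ) (hν : 1 < ν) (hb : b ≠ 0) (hc : c' ≠ 0)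
    (hmn : m ^ 2 < n) : ∃ N : ℕ,
    (((a * a' + ν ^ (2 * N) * (b * c')) * m + ((ν⁻¹) ^ N * (a * b') + ν ^ N * (b * d')) * y
      + ((ν⁻¹) ^ N * (c * a') + ν ^ N * (d * c')) * x
      - ((ν⁻¹) ^ (2 * N) * (c * b') + d * d') * m) / 2) ^ 2
    < (((ν ^ (2 * N) * (b * c') + (a * a' + d * d') + (ν⁻¹) ^ (2 * N) * (c * b')) / 2) ^ 2 - 1) * n := by
  have hν0 : 0 < ν := by linarith
  let G : ℝ → ℝ := fun z =>
    (((b * c') + z ^ 2 * (a * a' + d * d') + z ^ 4 * (c * b')) ^ 2 / 4 - z ^ 4) * n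
    - ((b * c') * m + z * (b * d' * y + d * c' * x) + z ^ 2 * ((a * a' - d * d') * m)
        + z ^ 3 * (a * b' * y + c * a' * x) - z ^ 4 * (c * b' * m)) ^ 2 / 4
  have hG0 : 0 < G 0 := by
    have : G 0 = (b * c') ^ 2 / 4 * (n - m ^ 2) := by simp [G]; ring
    rw [this]
    have hbc : b * c' ≠ 0 := mul_ne_zero hb hc
    have : 0 < n - m ^ 2 := by linarith
    positivity
  have hGc : Continuous G := by fun_prop
  have ht : Tendsto (fun N : ℕ => (ν⁻¹) ^ N) atTop (𝓝 0) :=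
    tendsto_pow_atTop_nhds_zero_of_lt_one (by positivity) (inv_lt_one_of_one_lt₀ hν)
  have ht2 : Tendsto (fun N : ℕ => G ((ν⁻¹) ^ N)) atTop (𝓝 (G 0)) :=
    (hGc.tendsto 0).comp ht
  obtain ⟨N, hN⟩ := (ht2.eventually (lt_mem_nhds hG0)).exists
  refine ⟨N, ?_⟩
  set z := (ν⁻¹) ^ N with hz
  have hzν : z * ν ^ N = 1 := by rw [hz, ← mul_pow, inv_mul_cancel₀ hν0.ne', one_pow]
  have hz0 : 0 < z := by positivity
  have e1 : (ν⁻¹) ^ (2 * N) = z ^ 2 := by rw [hz, ← pow_mul, mul_comm]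
  have e2 : ν ^ (2 * N) = (ν ^ N) ^ 2 := by rw [← pow_mul, mul_comm]
  rw [e1, e2]
  set Z := ν ^ N with hZ
  have hval : z ^ 4 * ((((Z ^ 2 * (b * c') + (a * a' + d * d') + z ^ 2 * (c * b')) / 2) ^ 2 - 1) * n
     - (((a * a' + Z ^ 2 * (b * c')) * m + (z * (a * b') + Z * (b * d')) * y
      + (z * (c * a') + Z * (d * c')) * x
      - (z ^ 2 * (c * b') + d * d') * m) / 2) ^ 2) = G z := by
    have hz2 : z ^ 2 * Z ^ 2 = 1 := by rw [← mul_pow, hzν, one_pow]
    have s1 : z ^ 2 * (Z ^ 2 * (b * c') + (a * a' + d * d') + z ^ 2 * (c * b'))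
        = (b * c') + z ^ 2 * (a * a' + d * d') + z ^ 4 * (c * b') := by
      linear_combination (b * c') * hz2
    have s2 : z ^ 2 * ((a * a' + Z ^ 2 * (b * c')) * m + (z * (a * b') + Z * (b * d')) * y
      + (z * (c * a') + Z * (d * c')) * x
      - (z ^ 2 * (c * b') + d * d') * m) = (b * c') * m + z * (b * d' * y + d * c' * x) + z ^ 2 * ((a * a' - d * d') * m)
        + z ^ 3 * (a * b' * y + c * a' * x) - z ^ 4 * (c * b' * m) := by
      linear_combination (b * c' * m) * hz2 + z * (b * d' * y + d * c' * x) * hzν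
    have : z ^ 4 * ((((Z ^ 2 * (b * c') + (a * a' + d * d') + z ^ 2 * (c * b')) / 2) ^ 2 - 1) * n
     - (((a * a' + Z ^ 2 * (b * c')) * m + (z * (a * b') + Z * (b * d')) * y
      + (z * (c * a') + Z * (d * c')) * x
      - (z ^ 2 * (c * b') + d * d') * m) / 2) ^ 2)
      = ((z ^ 2 * (Z ^ 2 * (b * c') + (a * a' + d * d') + z ^ 2 * (c * b'))) ^ 2 / 4 - z ^ 4) * n
        - (z ^ 2 * ((a * a' + Z ^ 2 * (b * c')) * m + (z * (a * b') + Z * (b * d')) * y
      + (z * (c * a') + Z * (d * c')) * x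
      - (z ^ 2 * (c * b') + d * d') * m)) ^ 2 / 4 := by ring
    rw [this, s1, s2]
  rw [← hval] at hN
  have := (mul_pos_iff_of_pos_left (by positivity : (0:ℝ) < z ^ 4)).mp hN
  linarith

end Pool.Agent.TH94.Gol
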