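import Mathlib
import Pool.Agent.TH94.Gol.Ker

set_option autoImplicit false

namespace Pool.Agent.TH94.Gol

open Matrix

variable {Γ : Type*} [Group Γ] (ρ : Γ →* SL2)

lemma trace_eq (A : M2) : A.trace = A 0 0 + A 1 1 := by simp [trace, Fin.sum_univ_two]

lemma exists_moving (hinj : Function.Injective ρ) (tf : ∀ x : Γ, x ^ 2 = 1 → x = 1) (P : TPO Γ)
    (hk : ∃ k, k ≠ 1 ∧ P.null k) (g : Γ) (hg : (mt (ρ g)).trace ≠ 0) (z : V2)
    (hz : qf (mt (ρ g)) z ≠ 0) : ∃ k, P.null k ∧ qf (mt (ρ k)) z ≠ 0 := by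
  by_contra hcon
  push Not at hcon
  obtain ⟨k, hk1, hk⟩ := hk
  have h0 := hcon k hk
  have hshift : ∀ x : Γ, qf (mt (ρ k)) (mt (ρ x) *ᵥ z) = 0 := by
    intro x
    have h1 := hcon (x⁻¹ * k * x⁻¹⁻¹) ((P.null_conj _ _).mpr hk)
    rw [map_mul, map_mul, map_inv, map_inv, map_inv, inv_inv, mt_mul, mt_mul] at h1
    have h2 := qf_conj_mt' (ρ x)⁻¹ (mt (ρ k)) z
    rw [inv_inv] at h2
    rw [← h2]; exact h1
  have h1 := hshift g
  have h2 := hshift (g * g)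
  rw [map_mul, mt_mul] at h2
  have d1 : dt z (mt (ρ g) *ᵥ z) ≠ 0 := hz
  have d2 : dt (mt (ρ g) *ᵥ z) ((mt (ρ g) * mt (ρ g)) *ᵥ z) ≠ 0 := by
    rw [← mulVec_mulVec, dt_mulVec, mt_det, one_mul]; exact hz
  have d3 : dt z ((mt (ρ g) * mt (ρ g)) *ᵥ z) ≠ 0 := by
    have e : mt (ρ g) * mt (ρ g) = (mt (ρ g)).trace • mt (ρ g) - 1 := by
      have := mt_mul_inv (ρ g)
      rw [mt_inv_eq, mul_sub, mul_smul_comm, mul_one] at this
      rw [← this]; abel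
    rw [e, sub_mulVec, smul_mulVec, one_mulVec]
    have : dt z ((mt (ρ g)).trace • mt (ρ g) *ᵥ z - z) = (mt (ρ g)).trace * dt z (mt (ρ g) *ᵥ z) := by
      simp [dt]; ring
    rw [this]
    exact mul_ne_zero hg hz
  obtain ⟨e1, e2, e3⟩ := three_zeros (mt (ρ k)) _ _ _ d1 d2 d3 h0 h1 h2
  have hdet := mt_det_eq (ρ k)
  rw [e1, e3] at hdet
  have hkk : k ^ 2 = 1 := by
    apply hinj
    apply mt_inj
    rw [map_pow, map_one, pow_two, mt_mul, mt_one]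
    ext i j
    fin_cases i <;> fin_cases j <;> simp [mul_apply, Fin.sum_univ_two, e1, e2, e3] <;> linarith
  exact hk1 (tf k hkk)

/-- **a null hyperbolic element whose axis crosses an axis of a conjugate of `w`** -/
theorem exists_k (hinj : Function.Injective ρ) (tf : ∀ x : Γ, x ^ 2 = 1 → x = 1) (P : TPO Γ)
    (hk : ∃ k, k ≠ 1 ∧ P.null k) (w g h : Γ) (cg : IsConj w g)
    (hg : (mt (ρ g)).trace ≠ 0) (μ : ℝ) (zp zm : V2) (hμ : 1 < μ ^ 2)
    (hzp : mt (ρ h) *ᵥ zp = μ • zp) (hzm : mt (ρ h) *ᵥ zm = μ⁻¹ • zm) (hd : dt zp zm ≠ 0)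
    (hcr : qf (mt (ρ g)) zp * qf (mt (ρ g)) zm < 0) :
    ∃ (k : Γ) (l : ℝ) (p r : V2), P.null k ∧ 1 < l ^ 2 ∧ mt (ρ k) *ᵥ p = l • p ∧
      mt (ρ k) *ᵥ r = l⁻¹ • r ∧ dt p r ≠ 0 ∧ (Lk ρ w p r).Nonempty := by
  have hμ0 : μ ≠ 0 := by rintro rfl; norm_num at hμ
  have hqp : qf (mt (ρ g)) zp ≠ 0 := by intro h0; rw [h0] at hcr; simp at hcr
  have hqm : qf (mt (ρ g)) zm ≠ 0 := by intro h0; rw [h0] at hcr; simp at hcr
  obtain ⟨k1, hk1, hk1'⟩ := exists_moving ρ hinj tf P hk g hg zm hqm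
  obtain ⟨k2, hk2, hk2'⟩ := exists_moving ρ hinj tf P hk g hg zp hqp
  set T := (mt (ρ g)).trace with hT
  set M := mt (ρ g) - (T / 2) • (1 : M2) with hM
  have hMtr : M 1 1 = - M 0 0 := by
    rw [hM]; rw [trace_eq] at hT; simp; linarith
  have hMqf : ∀ y, qf M y = qf (mt (ρ g)) y := by
    intro y; rw [hM, qf_sub, qf_smul, qf_one]; ring
  -- matrices in the eigenbasis
  obtain ⟨a, b, c, d, hX⟩ : ∃ a b c d : ℝ, cb zp zm (mt (ρ k1)) = !![a, b; c, d] :=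
    ⟨_, _, _, _, rfl⟩
  obtain ⟨a', b', c', d', hY⟩ : ∃ a b c d : ℝ, cb zp zm (mt (ρ k2)) = !![a, b; c, d] :=
    ⟨_, _, _, _, rfl⟩
  have hb : b ≠ 0 := by
    have h1 := congrFun (congrFun hX 0) 1
    have h2 : dt (mt (ρ k1) *ᵥ zm) zm / dt zp zm = b := h1
    rw [← h2]
    refine div_ne_zero ?_ hd
    rw [dt_swap]
    exact neg_ne_zero.mpr hk1'
  have hc : c' ≠ 0 := by
    have h1 := congrFun (congrFun hY 1) 0
    have h2 : dt zp (mt (ρ k2) *ᵥ zp) / dt zp zm = c' := h1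
    rw [← h2]
    exact div_ne_zero hk2' hd
  set m := cb zp zm M 0 0 with hm
  set x := cb zp zm M 0 1 with hx
  set y := cb zp zm M 1 0 with hy
  have hm' : cb zp zm M 1 1 = - m := by
    have h1 := cb_trace zp zm hd M
    rw [trace_eq, trace_eq, hMtr] at h1
    linarith
  have hMm : cb zp zm M = !![m, x; y, -m] := by
    ext i j; fin_cases i <;> fin_cases j <;> simp [hm, hx, hy, hm']
  have hmn : m ^ 2 < nq M := by
    have h1 := qf_mul_qf M hMtr zp zm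
    rw [hMqf, hMqf] at h1
    rw [h1] at hcr
    have h2 : cb zp zm M 1 1 = dt zp (M *ᵥ zm) / dt zp zm := by simp [cb]
    rw [hm'] at h2
    have h3 : dt zp (M *ᵥ zm) = - m * dt zp zm := by rw [h2]; field_simp
    rw [h3] at hcr
    have hd2 : 0 < dt zp zm ^ 2 := by positivity
    have h4 : dt zp zm ^ 2 * (m ^ 2 - nq M) < 0 := by nlinarith
    by_contra hcon
    push Not at hcon
    have := mul_nonneg hd2.le (sub_nonneg.mpr hcon)
    linarith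
  obtain ⟨N, hN⟩ := exists_N a b c d a' b' c' d' m x y (nq M) (μ ^ 2) hμ hb hc hmn
  set k := (h ^ N * k1 * (h ^ N)⁻¹) * ((h ^ N)⁻¹ * k2 * (h ^ N)⁻¹⁻¹) with hkdef
  have hknull : P.null k := P.null_mul ((P.null_conj _ _).mpr hk1) ((P.null_conj _ _).mpr hk2)
  set s := μ ^ N with hs
  set t := (μ⁻¹) ^ N with ht
  have hst : s * t = 1 := by rw [hs, ht, ← mul_pow, mul_inv_cancel₀ hμ0, one_pow]
  have hA : cb zp zm (mt (ρ (h ^ N))) = !![s, 0; 0, t] := by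
    apply cb_diag zp zm hd
    · have := eig_zpow (ρ h) μ hμ0 zp hzp N
      rw [zpow_natCast, zpow_natCast, ← map_pow] at this
      exact this
    · have := eig_zpow (ρ h) μ⁻¹ (inv_ne_zero hμ0) zm hzm N
      rw [zpow_natCast, zpow_natCast, ← map_pow] at this
      exact this
  have hAi : cb zp zm (mt (ρ (h ^ N)⁻¹)) = !![t, 0; 0, s] := by
    apply cb_diag zp zm hd
    · have := eig_zpow (ρ h) μ hμ0 zp hzp (-N)
      rw [_root_.zpow_neg, _root_.zpow_neg, zpow_natCast, zpow_natCast, ← map_pow, ← map_inv] at this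
      rw [this, ht, inv_pow]
    · have := eig_zpow (ρ h) μ⁻¹ (inv_ne_zero hμ0) zm hzm (-N)
      rw [_root_.zpow_neg, _root_.zpow_neg, zpow_natCast, zpow_natCast, ← map_pow, ← map_inv] at this
      rw [this, inv_pow, inv_inv]
  have hcbk : cb zp zm (mt (ρ k)) = (!![s, 0; 0, t] * !![a, b; c, d] * !![t, 0; 0, s]) *
      (!![t, 0; 0, s] * !![a', b'; c', d'] * !![s, 0; 0, t]) := by
    rw [hkdef, inv_inv, map_mul, map_mul, map_mul, map_mul, map_mul, mt_mul, mt_mul, mt_mul, mt_mul,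
      mt_mul, cb_mul _ _ hd, cb_mul _ _ hd, cb_mul _ _ hd, cb_mul _ _ hd, cb_mul _ _ hd, hA, hX, hY]
    rw [hAi]
  have e1 : (μ ^ 2) ^ (2 * N) = s ^ 4 := by rw [hs, ← pow_mul, ← pow_mul]; congr 1; ring
  have e2 : ((μ ^ 2)⁻¹) ^ N = t ^ 2 := by rw [ht, ← pow_mul, inv_pow, inv_pow, ← pow_mul]; congr 2; ring
  have e3 : (μ ^ 2) ^ N = s ^ 2 := by rw [hs, ← pow_mul, ← pow_mul]; congr 1; ring
  have e4 : ((μ ^ 2)⁻¹) ^ (2 * N) = t ^ 4 := by
    rw [ht, ← pow_mul, inv_pow, inv_pow, ← pow_mul]; congr 2; ring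
  rw [e1, e2, e3, e4] at hN
  have htrk : (mt (ρ k)).trace = s ^ 4 * (b * c') + (a * a' + d * d') + t ^ 4 * (c * b') := by
    rw [← cb_trace zp zm hd, hcbk, trace_eq]
    simp [mul_apply, Fin.sum_univ_two]
    linear_combination (a * a' + d * d') * (s * t + 1) * hst
  have htrkM : (mt (ρ k) * M).trace = (a * a' + s ^ 4 * (b * c')) * m + (t ^ 2 * (a * b') + s ^ 2 * (b * d')) * y
      + (t ^ 2 * (c * a') + s ^ 2 * (d * c')) * x
      - (t ^ 4 * (c * b') + d * d') * m := by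
    rw [← cb_trace zp zm hd, cb_mul _ _ hd, hcbk, hMm, trace_eq]
    simp [mul_apply, Fin.sum_univ_two]
    linear_combination ((a * a' - d * d') * m * (s * t + 1) + (t ^ 2 * a * b' + s ^ 2 * b * d') * y
      + (t ^ 2 * c * a' + s ^ 2 * d * c') * x) * hst
  rw [← htrk, ← htrkM] at hN
  have hnq : 0 < nq M := lt_of_le_of_lt (sq_nonneg m) hmn
  have htr4 : 4 < (mt (ρ k)).trace ^ 2 := by
    have h1 : 0 < (((mt (ρ k)).trace / 2) ^ 2 - 1) * nq M := lt_of_le_of_lt (sq_nonneg _) hN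
    have h2 := (mul_pos_iff_of_pos_right hnq).mp h1
    nlinarith
  obtain ⟨l, p, r, hl, hp, hr, hpr⟩ := exists_eig (ρ k) htr4
  refine ⟨k, l, p, r, hknull, hl, hp, hr, hpr, g, cg, ?_⟩
  have := cross_of_ip (ρ k) M hMtr l p r hp hr hl hpr hN
  rwa [hMqf, hMqf] at this

end Pool.Agent.TH94.Gol
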