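import Mathlib
import Pool.Agent.TH94.Gol.Ker2

set_option autoImplicit false

namespace Pool.Agent.TH94.Gol

open Matrix

/-- iterated commutators -/
def itc {Γ : Type*} [Group Γ] (a b : Γ) : ℕ → Γ
  | 0 => a
  | n + 1 => itc a b n * b * (itc a b n)⁻¹ * b⁻¹

/-- the algebraic property of the group used in the proof -/
def HasSep (Γ : Type*) [Group Γ] : Prop :=
  ∀ c e : Γ, c ≠ 1 → e ≠ 1 → ∃ P : TPO Γ, ¬ P.null c ∧ ¬ P.null e ∧
    ∃ n, ∀ a ∈ commutator Γ, ∀ b ∈ commutator Γ, P.null (itc a b n)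

lemma HasSep.torsionFree {Γ : Type*} [Group Γ] (hs : HasSep Γ) (x : Γ) (n : ℕ) (hn : n ≠ 0)
    (hx : x ^ n = 1) : x = 1 := by
  by_contra hne
  obtain ⟨P, hP, -, -⟩ := hs x x hne hne
  obtain ⟨m, rfl⟩ := Nat.exists_eq_succ_of_ne_zero hn
  rcases P.pos_or_pos_of_not_null hP with h | h
  · have := P.pos_pow h m
    rw [← Nat.succ_eq_add_one, hx] at this
    exact this (by simpa using P.nn_one)
  · have := P.pos_pow h m
    rw [inv_pow, ← Nat.succ_eq_add_one, hx] at this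
    exact this (by simpa using P.nn_one)

lemma HasSep.not_conj_inv {Γ : Type*} [Group Γ] (hs : HasSep Γ) (x : Γ) (hx : x ≠ 1) :
    ¬ IsConj x x⁻¹ := by
  intro h
  obtain ⟨P, hP, -, -⟩ := hs x x hx hx
  obtain ⟨c, hc⟩ := isConj_iff.mp h
  rcases P.pos_or_pos_of_not_null hP with h | h
  · have := (P.pos_conj c x).mpr h
    rw [hc] at this
    exact this (by simpa using h.nn)
  · have h2 : P.pos (c * x * c⁻¹) := by rw [hc]; exact h
    rw [P.pos_conj] at h2
    exact h2 h.nn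

/-! ### more about eigenvectors -/

lemma tr_id (X : M2) (p r : V2) : dt (X *ᵥ p) r + dt p (X *ᵥ r) = X.trace * dt p r := by
  simp [dt, mulVec, dotProduct, Fin.sum_univ_two, trace]; ring

lemma trace_eig (X : M2) (l l' : ℝ) (p r : V2) (hp : X *ᵥ p = l • p) (hr : X *ᵥ r = l' • r)
    (hd : dt p r ≠ 0) : X.trace = l + l' := by
  have := tr_id X p r
  rw [hp, hr, dt_smul_left, dt_smul_right] at this
  have h2 : (X.trace - (l + l')) * dt p r = 0 := by linear_combination -this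
  rcases mul_eq_zero.mp h2 with h3 | h3
  · linarith
  · exact absurd h3 hd

lemma tracless_symm (X : M2) (hX : X 1 1 = - X 0 0) (p r : V2) :
    dt r (X *ᵥ p) = dt p (X *ᵥ r) := by
  have h := tr_id X p r
  have h0 : X.trace = 0 := by rw [trace_eq, hX]; ring
  rw [h0, zero_mul, dt_swap (X *ᵥ p) r] at h
  linarith

/-- the value of the product at a vector, in the eigenbasis of the second factor -/
lemma qf_prod (u v : M2) (hu : u 1 1 = - u 0 0) (zp zm : V2) (hp : v *ᵥ zp = zp)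
    (hm : v *ᵥ zm = - zm) (a b : ℝ) :
    qf (u * v) (a • zp + b • zm) = a ^ 2 * qf u zp - b ^ 2 * qf u zm := by
  have hs := tracless_symm u hu zp zm
  unfold qf
  rw [← mulVec_mulVec, mulVec_add, mulVec_smul, mulVec_smul, hp, hm, mulVec_add, mulVec_smul,
    mulVec_smul, mulVec_neg]
  have e : dt (a • zp + b • zm) (a • (u *ᵥ zp) + b • -(u *ᵥ zm))
    = a ^ 2 * dt zp (u *ᵥ zp) - b ^ 2 * dt zm (u *ᵥ zm) + a * b * (dt zm (u *ᵥ zp) - dt zp (u *ᵥ zm)) := by
    simp [dt]; ring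
  rw [e, hs]; ring

lemma neg_prod {σ : ℝ} (u v : M2) (hu : u 1 1 = - u 0 0) (zp zm : V2) (hp : v *ᵥ zp = zp)
    (hm : v *ᵥ zm = - zm) (hd : dt zp zm ≠ 0) (h1 : σ * qf u zp < 0) (h2 : 0 < σ * qf u zm) :
    Neg σ (u * v) := by
  intro y hy
  rw [vec_decomp zp zm y hd, qf_prod u v hu zp zm hp hm]
  set a := dt y zm / dt zp zm with ha
  set b := dt zp y / dt zp zm with hb
  have e : σ * (a ^ 2 * qf u zp - b ^ 2 * qf u zm) = a ^ 2 * (σ * qf u zp) - b ^ 2 * (σ * qf u zm) := by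
    ring
  rw [e]
  have hab : a ≠ 0 ∨ b ≠ 0 := by
    by_contra hcon
    push Not at hcon
    apply hy
    rw [vec_decomp zp zm y hd, ← ha, ← hb, hcon.1, hcon.2, zero_smul, zero_smul, add_zero]
  rcases hab with h | h
  · have := mul_neg_of_pos_of_neg (by positivity : 0 < a ^ 2) h1
    have := mul_nonneg (sq_nonneg b) h2.le
    linarith
  · have := mul_pos (by positivity : 0 < b ^ 2) h2
    have := mul_nonpos_of_nonneg_of_nonpos (sq_nonneg a) h1.le
    linarith

lemma ip_sq_lt {u v : M2} (hu : U2 u) (zp zm : V2) (hp : v *ᵥ zp = zp)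
    (hm : v *ᵥ zm = - zm) (hd : dt zp zm ≠ 0) (h : qf u zp * qf u zm < 0) : ip u v ^ 2 < 1 := by
  have h1 := qf_mul_qf u hu.ent.1 zp zm
  have h2 := tr_id (u * v) zp zm
  have hs := tracless_symm u hu.ent.1 zp zm
  rw [← mulVec_mulVec, ← mulVec_mulVec, hp, hm, mulVec_neg] at h2
  have h3 : dt (u *ᵥ zp) zm + dt zp (-(u *ᵥ zm)) = -2 * dt zp (u *ᵥ zm) := by
    rw [dt_swap (u *ᵥ zp) zm, hs]; simp [dt]; ring
  rw [h3] at h2
  have h4 : ip u v * dt zp zm = - dt zp (u *ᵥ zm) := by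
    unfold ip; linarith
  rw [h1] at h
  have h5 : nq u = 1 := hu.ent.2
  rw [h5] at h
  have h6 : (ip u v * dt zp zm) ^ 2 = dt zp (u *ᵥ zm) ^ 2 := by rw [h4]; ring
  have hd2 : 0 < dt zp zm ^ 2 := by positivity
  have h7 : dt zp zm ^ 2 * (ip u v ^ 2 - 1) < 0 := by nlinarith
  by_contra hcon
  push Not at hcon
  have := mul_nonneg hd2.le (sub_nonneg.mpr hcon)
  linarith

/-- the two proportionality factors -/
lemma Quad.ab {C D : ℝ} {u v u1 v1 : M2} (q : Quad C D u v u1 v1) {σ : ℝ}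
    (hF : Neg σ (u * v - u1 * v1)) :
    ∃ α β : ℝ, u + v1 = α • (u * v - u1 * v1) ∧ v + u1 = β • (u * v - u1 * v1) ∧ α - β = D / C := by
  have hF0 : (u * v - u1 * v1) 1 0 ≠ 0 := by
    intro h0
    have := ((neg_iff q.trF).mp hF).1
    rw [h0] at this; simp at this
  obtain ⟨α, hα⟩ := q.P_prop hF0
  refine ⟨α, α - D / C, hα, ?_, by ring⟩
  have h := q.rel1
  rw [hα] at h
  have hC0 := q.hC0
  have h5 : C • (v + u1) = C • ((α - D / C) • (u * v - u1 * v1)) := by
    generalize u * v - u1 * v1 = F at h ⊢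
    rw [smul_sub] at h
    have h6 : C • (v + u1) = C • α • F - D • F := by
      rw [← h]; abel
    rw [h6, sub_smul, smul_sub]
    congr 1
    rw [smul_smul, mul_div_cancel₀ _ hC0]
  exact smul_right_injective M2 hC0 h5

/-- sign of an eigenvector of `c` -/
lemma Quad.eig_c {C D : ℝ} {u v u1 v1 : M2} (q : Quad C D u v u1 v1) (y : V2) (μ : ℝ)
    (hy : (el C D u1 * eli C D v1) *ᵥ y = μ • y) :
    C * (1 - μ) * qf u1 y = D * qf (u1 * v1) y := by
  have hD := q.hD
  -- h₁⁻¹ y = μ g₁⁻¹ y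
  have h1 : eli C D v1 *ᵥ y = μ • (eli C D u1 *ᵥ y) := by
    have := congrArg (fun z => eli C D u1 *ᵥ z) hy
    simp only [mulVec_mulVec, mulVec_smul] at this
    rw [← mul_assoc, eli_mul_el q.hu1 q.hC, one_mul] at this
    exact this
  have h2 := congrArg (fun z => dt y z) h1
  simp only [dt_smul_right] at h2
  have e1 : ∀ M : M2, dt y (eli C D M *ᵥ y) = - (D * qf M y) := by
    intro M
    have : dt y (eli C D M *ᵥ y) = qf (eli C D M) y := rfl
    rw [this]
    unfold eli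
    rw [qf_sub, qf_smul, qf_one, qf_smul]; ring
  rw [e1, e1] at h2
  have h3 : qf v1 y = μ * qf u1 y := by
    have : D * (qf v1 y - μ * qf u1 y) = 0 := by linear_combination -h2
    rcases mul_eq_zero.mp this with h | h
    · exact absurd h hD
    · linarith
  have h4 : qf (el C D u1 * eli C D v1) y = 0 := by
    unfold qf; rw [hy, dt_smul_right, dt_self, mul_zero]
  have e2 : el C D u1 * eli C D v1 = (C * C) • (1 : M2) + (C * D) • u1 - (C * D) • v1 -
      (D * D) • (u1 * v1) := by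
    unfold el eli
    simp only [mul_sub, add_mul, smul_mul_assoc, mul_smul_comm, one_mul, mul_one]
    module
  rw [e2, qf_sub, qf_sub, qf_add, qf_smul, qf_smul, qf_smul, qf_smul, qf_one, h3] at h4
  have : D * (C * (1 - μ) * qf u1 y - D * qf (u1 * v1) y) = 0 := by linear_combination h4
  rcases mul_eq_zero.mp this with h | h
  · exact absurd h hD
  · linarith

lemma Neg.conj {σ : ℝ} {M : M2} (h : Neg σ M) (A : SL2) : Neg σ (mt A * M * mt A⁻¹) := by
  intro y hy
  rw [qf_conj_mt']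
  apply h
  intro h0
  apply hy
  have : mt A *ᵥ (mt A⁻¹ *ᵥ y) = y := by rw [mulVec_mulVec, mt_mul_inv, one_mulVec]
  rw [← this, h0, mulVec_zero]

section
variable {Γ : Type*} [Group Γ] (ρ : Γ →* SL2) {C D : ℝ}

lemma quad_of_rel (hC : C ^ 2 - D ^ 2 = 1) (hCD : 0 < C * D) (g h g1 h1 : Γ)
    (tg : (mt (ρ g)).trace = 2 * C) (th : (mt (ρ h)).trace = 2 * C)
    (tg1 : (mt (ρ g1)).trace = 2 * C) (th1 : (mt (ρ h1)).trace = 2 * C)
    (rel : g * h⁻¹ = g1 * h1⁻¹) :
    Quad C D (dir C D (ρ g)) (dir C D (ρ h)) (dir C D (ρ g1)) (dir C D (ρ h1)) := by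
  have hD : D ≠ 0 := by rintro rfl; simp at hCD
  refine ⟨dir_U2 hD hC _ tg, dir_U2 hD hC _ th, dir_U2 hD hC _ tg1, dir_U2 hD hC _ th1, ?_, hC, hCD⟩
  show el C D _ * eli C D _ = el C D _ * eli C D _
  rw [el_dir hD, el_dir hD, eli_dir hD _ th, eli_dir hD _ th1, ← mt_mul, ← mt_mul,
    ← map_inv, ← map_inv, ← map_mul, ← map_mul, rel]

/-- eigenvectors of `A` as eigenvectors of its direction -/
lemma dir_eig (hC : C ^ 2 - D ^ 2 = 1) (hCD : 0 < C * D) (A : SL2) (hA : (mt A).trace = 2 * C)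
    (μ : ℝ) (zp zm : V2) (hμ : 1 < μ ^ 2) (hp : mt A *ᵥ zp = μ • zp) (hm : mt A *ᵥ zm = μ⁻¹ • zm)
    (hd : dt zp zm ≠ 0) : dir C D A *ᵥ zp = zp ∧ dir C D A *ᵥ zm = - zm := by
  have hD : D ≠ 0 := by rintro rfl; simp at hCD
  have hμ0 : μ ≠ 0 := by rintro rfl; norm_num at hμ
  have hT := trace_eig _ _ _ zp zm hp hm hd
  rw [hA] at hT
  have hμμ : μ * μ⁻¹ = 1 := mul_inv_cancel₀ hμ0
  -- μ = C + D
  have h1 : (μ - C) ^ 2 = D ^ 2 := by
    have : μ⁻¹ = 2 * C - μ := by linarith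
    rw [this] at hμμ
    linear_combination -hμμ + hC
  have hμD : μ = C + D := by
    have h2 : (μ - C - D) * (μ - C + D) = 0 := by linear_combination h1
    rcases mul_eq_zero.mp h2 with h | h
    · linarith
    · exfalso
      have h3 : μ = C - D := by linarith
      rw [h3] at hμ
      nlinarith [sq_nonneg D]
  have hμ' : μ⁻¹ = C - D := by linarith
  constructor
  · unfold dir
    rw [smul_mulVec, sub_mulVec, smul_mulVec, one_mulVec, hp, hμD, ← sub_smul, smul_smul]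
    have : D⁻¹ * (C + D - C) = 1 := by field_simp; ring
    rw [this, one_smul]
  · unfold dir
    rw [smul_mulVec, sub_mulVec, smul_mulVec, one_mulVec, hm, hμ', ← sub_smul, smul_smul]
    have : D⁻¹ * (C - D - C) = -1 := by field_simp; ring
    rw [this, neg_smul, one_smul]

end

end Pool.Agent.TH94.Gol
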