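import Mathlib
import Pool.Agent.TH94.Gol.NoCancel

set_option autoImplicit false

namespace Pool.Agent.TH94.Gol

open Matrix

variable {Γ : Type*} [Group Γ] (ρ : Γ →* SL2) {C D : ℝ}

lemma isConj_conj {w x : Γ} (a : Γ) (hx : IsConj w x) : IsConj w (a * x * a⁻¹) :=
  hx.trans (isConj_iff.mpr ⟨a, rfl⟩)

/-- **selection of a good translate** -/
theorem exists_good (hC : C ^ 2 - D ^ 2 = 1) (hCD : 0 < C * D) (hinj : Function.Injective ρ)
    (w : Γ) (hw : (mt (ρ w)).trace = 2 * C) (hww : ¬ IsConj w w⁻¹)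
    (σ : ℝ) (g h g1 h1 : Γ) (cg : IsConj w g) (ch : IsConj w h) (cg1 : IsConj w g1)
    (ch1 : IsConj w h1) (rel : g * h⁻¹ = g1 * h1⁻¹)
    (hκ : ip (dir C D (ρ g)) (dir C D (ρ h)) ^ 2 < 1)
    (hn : Neg σ (dir C D (ρ g) * dir C D (ρ h)))
    (hn1 : Pos σ (dir C D (ρ g1) * dir C D (ρ h1))) :
    ∃ j : ℤ,
      Neg σ (dir C D (ρ g) + dir C D (ρ ((g * h⁻¹) ^ j * h1 * ((g * h⁻¹) ^ j)⁻¹))) ∧
      Pos σ (dir C D (ρ h) + dir C D (ρ ((g * h⁻¹) ^ j * g1 * ((g * h⁻¹) ^ j)⁻¹))) := by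
  have hD : D ≠ 0 := by rintro rfl; simp at hCD
  have tg := trace_of_conj ρ cg hw
  have th := trace_of_conj ρ ch hw
  have tg1 := trace_of_conj ρ cg1 hw
  have th1 := trace_of_conj ρ ch1 hw
  set c := g * h⁻¹ with hc
  set u := dir C D (ρ g) with hu
  set v := dir C D (ρ h) with hv
  have huU : U2 u := dir_U2 hD hC _ tg
  have hvU : U2 v := dir_U2 hD hC _ th
  -- the translates
  let G : ℤ → Γ := fun j => c ^ j * g1 * (c ^ j)⁻¹
  let H : ℤ → Γ := fun j => c ^ j * h1 * (c ^ j)⁻¹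
  have cG : ∀ j, IsConj w (G j) := fun j => isConj_conj _ cg1
  have cH : ∀ j, IsConj w (H j) := fun j => isConj_conj _ ch1
  have tG : ∀ j, (mt (ρ (G j))).trace = 2 * C := fun j => trace_of_conj ρ (cG j) hw
  have tH : ∀ j, (mt (ρ (H j))).trace = 2 * C := fun j => trace_of_conj ρ (cH j) hw
  have relj : ∀ j, g * h⁻¹ = G j * (H j)⁻¹ := by
    intro j
    have : G j * (H j)⁻¹ = c ^ j * (g1 * h1⁻¹) * (c ^ j)⁻¹ := by
      show c ^ j * g1 * (c ^ j)⁻¹ * (c ^ j * h1 * (c ^ j)⁻¹)⁻¹ = _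
      group
    rw [this, ← rel, ← hc]
    group
  have q : ∀ j, Quad C D u v (dir C D (ρ (G j))) (dir C D (ρ (H j))) := fun j =>
    quad_of_rel ρ hC hCD g h (G j) (H j) tg th (tG j) (tH j) (relj j)
  have dG : ∀ j, dir C D (ρ (G j)) = mt (ρ (c ^ j)) * dir C D (ρ g1) * mt (ρ (c ^ j))⁻¹ := by
    intro j
    rw [← dir_conj, ← map_inv, ← map_mul, ← map_mul]
  have dH : ∀ j, dir C D (ρ (H j)) = mt (ρ (c ^ j)) * dir C D (ρ h1) * mt (ρ (c ^ j))⁻¹ := by
    intro j
    rw [← dir_conj, ← map_inv, ← map_mul, ← map_mul]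
  -- F is negative
  have hF : ∀ j, Neg σ (u * v - dir C D (ρ (G j)) * dir C D (ρ (H j))) := by
    intro j y hy
    have e : dir C D (ρ (G j)) * dir C D (ρ (H j)) =
        mt (ρ (c ^ j)) * (dir C D (ρ g1) * dir C D (ρ h1)) * mt (ρ (c ^ j))⁻¹ := by
      rw [dG, dH]
      calc _ = mt (ρ (c ^ j)) * dir C D (ρ g1) * (mt (ρ (c ^ j))⁻¹ * mt (ρ (c ^ j))) *
            dir C D (ρ h1) * mt (ρ (c ^ j))⁻¹ := by simp only [mul_assoc]
        _ = _ := by rw [mt_inv_mul, mul_one]; simp only [mul_assoc]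
    rw [qf_sub, e, qf_conj_mt']
    have h1 := hn y hy
    have h2 := hn1 (mt (ρ (c ^ j))⁻¹ *ᵥ y) (by
      intro h0
      apply hy
      have : mt (ρ (c ^ j)) *ᵥ (mt (ρ (c ^ j))⁻¹ *ᵥ y) = y := by
        rw [mulVec_mulVec, mt_mul_inv, one_mulVec]
      rw [← this, h0, mulVec_zero])
    rw [mul_sub]; linarith
  -- dichotomy for Q
  have hQ : ∀ j, Pos σ (v + dir C D (ρ (G j))) ∨ Neg σ (v + dir C D (ρ (G j))) := by
    intro j
    obtain ⟨α, β, -, hβ, -⟩ := (q j).ab (hF j)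
    rcases lt_trichotomy β 0 with hb | hb | hb
    · left
      intro y hy
      rw [hβ, qf_smul]
      have := mul_pos_of_neg_of_neg hb (hF j y hy)
      linarith
    · exfalso
      rw [hb, zero_smul] at hβ
      -- G j = h⁻¹
      have h1 : dir C D (ρ (G j)) = - v := by
        rw [eq_neg_iff_add_eq_zero, add_comm]; exact hβ
      have h2 : mt (ρ (G j)) = mt (ρ h)⁻¹ := by
        rw [← el_dir hD (ρ (G j)), ← eli_dir hD (ρ h) th, h1, el_neg]
      have h3 : G j = h⁻¹ := by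
        apply hinj
        rw [map_inv]
        exact mt_inj h2
      apply hww
      have h4 := cG j
      rw [h3] at h4
      obtain ⟨a, ha⟩ := isConj_iff.mp ch
      have h5 : IsConj h⁻¹ w⁻¹ := by
        apply IsConj.symm
        rw [isConj_iff]
        exact ⟨a, by rw [← ha]; group⟩
      exact h4.trans h5
    · right
      intro y hy
      rw [hβ, qf_smul]
      have := mul_neg_of_pos_of_neg hb (hF j y hy)
      linarith
  -- the shift
  have hshift : ∀ j, Neg σ (v + dir C D (ρ (G j))) → Neg σ (u + dir C D (ρ (H (j + 1)))) := by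
    intro j hj
    have hdet : (el C D v * eli C D u).det = 1 := by
      rw [det_mul, det_el hvU hC, det_eli huU hC, one_mul]
    have htr : 0 < (el C D v * eli C D u).trace := by
      have := tr_c_pos huU hvU hC hκ; linarith
    have t1 : Neg σ ((el C D v * eli C D u) * (v + dir C D (ρ (G j)))) := by
      refine cone_mul (add_tr hvU.ent.1 (q j).hu1.ent.1) ?_ hdet htr hj
      rw [(q j).cQ]
      exact add_tr (q j).hv1.ent.1 (Ad_U2 hvU huU hC).ent.1
    rw [(q j).cQ] at t1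
    have t2 := t1.conj (ρ c)
    have e : mt (ρ c) * (dir C D (ρ (H j)) + Ad C D v u) * mt (ρ c)⁻¹
        = u + dir C D (ρ (H (j + 1))) := by
      rw [hu, hv, Ad_dir hD _ _ th, mul_add, add_mul, ← dir_conj, ← dir_conj, add_comm]
      congr 2
      · rw [← map_inv, ← map_inv, ← map_mul, ← map_mul, ← map_mul, ← map_mul, hc]
        congr 1
        group
      · rw [← map_inv, ← map_mul, ← map_mul]
        congr 1
        show c * (c ^ j * h1 * (c ^ j)⁻¹) * c⁻¹ = c ^ (j + 1) * h1 * (c ^ (j + 1))⁻¹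
        have e3 : c ^ (j + 1) = c * c ^ j := by rw [← _root_.zpow_one_add, add_comm]
        have e4 : (c * c ^ j)⁻¹ = (c ^ j)⁻¹ * c⁻¹ := _root_.mul_inv_rev _ _
        rw [e3, e4]
        simp only [mul_assoc]
    rwa [e] at t2
  -- eigenvectors of c
  have htrc : 2 < (mt (ρ c)).trace := by
    have h1 : mt (ρ c) = el C D u * eli C D v := by
      rw [hu, hv, el_dir hD, eli_dir hD _ th, ← mt_mul, ← map_inv, ← map_mul]
    rw [h1, tr_c hvU huU, ip_comm]
    have : ip u v < 1 := by nlinarith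
    have hD2 : 0 < D ^ 2 := by positivity
    nlinarith
  obtain ⟨l, yp, ym, hl, hyp, hym, hdy⟩ := exists_eig (ρ c) (by nlinarith)
  have hl0 : l ≠ 0 := by rintro rfl; norm_num at hl
  have hll : l * l⁻¹ = 1 := mul_inv_cancel₀ hl0
  have hlpos : 1 < l := by
    have h1 := trace_eig _ _ _ _ _ hyp hym hdy
    rw [h1] at htrc
    by_contra hcon
    push Not at hcon
    have h2 : l < -1 := by nlinarith
    have h3 : l⁻¹ < 0 := inv_lt_zero.mpr (by linarith)
    linarith
  have hcel : mt (ρ c) = el C D (dir C D (ρ g1)) * eli C D (dir C D (ρ h1)) := by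
    rw [el_dir hD, eli_dir hD _ th1, ← mt_mul, ← map_inv, ← map_mul, ← rel]
  have q0 := quad_of_rel ρ hC hCD g h g1 h1 tg th tg1 th1 rel
  have hyp0 : yp ≠ 0 := by rintro rfl; simp [dt] at hdy
  have hym0 : ym ≠ 0 := by rintro rfl; simp [dt] at hdy
  -- signs at the eigenvectors of c
  have hneg : σ * qf (dir C D (ρ g1)) yp < 0 := by
    have t1 := q0.eig_c yp l (by rw [← hcel]; exact hyp)
    have h2 := hn1 yp hyp0
    -- C (1-l) q = D * n
    have h3 : (C * D) * ((1 - l) * (σ * qf (dir C D (ρ g1)) yp)) =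
        D ^ 2 * (σ * qf (dir C D (ρ g1) * dir C D (ρ h1)) yp) := by
      linear_combination (σ * D) * t1
    have h4 : 0 < (C * D) * ((1 - l) * (σ * qf (dir C D (ρ g1)) yp)) := by
      rw [h3]; positivity
    have h5 := (mul_pos_iff_of_pos_left hCD).mp h4
    by_contra hcon
    push Not at hcon
    have := mul_nonneg (by linarith : 0 ≤ l - 1) hcon
    linarith
  have hpos : 0 < σ * qf (dir C D (ρ g1)) ym := by
    have t1 := q0.eig_c ym l⁻¹ (by rw [← hcel]; exact hym)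
    have h2 := hn1 ym hym0
    have h3 : (C * D) * ((1 - l⁻¹) * (σ * qf (dir C D (ρ g1)) ym)) =
        D ^ 2 * (σ * qf (dir C D (ρ g1) * dir C D (ρ h1)) ym) := by
      linear_combination (σ * D) * t1
    have h4 : 0 < (C * D) * ((1 - l⁻¹) * (σ * qf (dir C D (ρ g1)) ym)) := by
      rw [h3]; positivity
    have h5 := (mul_pos_iff_of_pos_left hCD).mp h4
    have h6 : 0 < 1 - l⁻¹ := by
      have := inv_lt_one_of_one_lt₀ hlpos
      linarith
    exact (mul_pos_iff_of_pos_left h6).mp h5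
  -- values along the sequence
  have valp : ∀ j : ℤ, (l ^ j) ^ 2 * qf (dir C D (ρ (G j))) yp = qf (dir C D (ρ g1)) yp := by
    intro j
    rw [← qf_smulVec, ← eig_zpow (ρ c) l hl0 yp hyp j, ← map_zpow, dG, qf_conj_mt]
  have valm : ∀ j : ℤ, (l⁻¹ ^ j) ^ 2 * qf (dir C D (ρ (G j))) ym = qf (dir C D (ρ g1)) ym := by
    intro j
    rw [← qf_smulVec, ← eig_zpow (ρ c) l⁻¹ (inv_ne_zero hl0) ym hym j, ← map_zpow, dG, qf_conj_mt]
  have hl2 : 1 < l ^ 2 := hl
  -- large j
  obtain ⟨n0, hn0⟩ := pow_unbounded_of_one_lt (|σ * qf v ym| / (σ * qf (dir C D (ρ g1)) ym)) hl2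
  obtain ⟨n1, hn1'⟩ := pow_unbounded_of_one_lt (|σ * qf v yp| / (-(σ * qf (dir C D (ρ g1)) yp))) hl2
  obtain ⟨j, hjA, hjB⟩ := int_switch (fun j => Pos σ (v + dir C D (ρ (G j)))) n0 (by
      intro j hj
      obtain ⟨n, rfl⟩ : ∃ n : ℕ, j = n := ⟨j.toNat, by omega⟩
      rcases hQ n with h | h
      · exact h
      · exfalso
        have h1 := h ym hym0
        have h2 := valm n
        rw [zpow_natCast] at h2
        rw [qf_add] at h1
        have hle : (l ^ 2) ^ n0 ≤ (l ^ 2) ^ n := pow_le_pow_right₀ hl2.le (by omega)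
        have h3 : |σ * qf v ym| < (σ * qf (dir C D (ρ g1)) ym) * (l ^ 2) ^ n := by
          have := (div_lt_iff₀ hpos).mp (lt_of_lt_of_le hn0 hle)
          linarith
        have h4 : (l ^ 2) ^ n * (l⁻¹ ^ n) ^ 2 = 1 := by
          rw [← pow_mul, mul_comm 2 n, pow_mul, ← mul_pow, ← mul_pow, hll, one_pow, one_pow]
        have h5 : σ * qf (dir C D (ρ (G n))) ym = (σ * qf (dir C D (ρ g1)) ym) * (l ^ 2) ^ n := by
          rw [← h2]; linear_combination -(σ * qf (dir C D (ρ (G n))) ym) * h4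
        have h6 := neg_abs_le (σ * qf v ym)
        linarith) (-n1) (by
      intro h
      have h1 := h yp hyp0
      have h2 := valp (-n1)
      rw [_root_.zpow_neg, zpow_natCast] at h2
      rw [qf_add] at h1
      have h3 : |σ * qf v yp| < (-(σ * qf (dir C D (ρ g1)) yp)) * (l ^ 2) ^ n1 := by
        have := (div_lt_iff₀ (by linarith : 0 < -(σ * qf (dir C D (ρ g1)) yp))).mp hn1'
        linarith
      have h4 : (l ^ 2) ^ n1 * ((l ^ n1)⁻¹) ^ 2 = 1 := by
        rw [← pow_mul, mul_comm 2 n1, pow_mul, ← mul_pow, mul_inv_cancel₀ (by positivity), one_pow]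
      have h5 : σ * qf (dir C D (ρ (G (-n1)))) yp = (σ * qf (dir C D (ρ g1)) yp) * (l ^ 2) ^ n1 := by
        rw [← h2]; linear_combination -(σ * qf (dir C D (ρ (G (-n1)))) yp) * h4
      have h6 := le_abs_self (σ * qf v yp)
      linarith)
  refine ⟨j, ?_, hjA⟩
  have h1 := hshift (j - 1) ((hQ (j - 1)).resolve_left hjB)
  have e : j - 1 + 1 = j := by ring
  rw [e] at h1
  exact h1

end Pool.Agent.TH94.Gol
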