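import Mathlib
import Pool.Agent.TH94.Gol.Shift

set_option autoImplicit false

namespace Pool.Agent.TH94.Gol

open Matrix
open scoped commutatorElement

lemma cb_inj (zp zm : V2) (hd : dt zp zm ≠ 0) (X Y : M2) (h : cb zp zm X = cb zp zm Y) : X = Y := by
  have hd' : zp 0 * zm 1 - zp 1 * zm 0 ≠ 0 := hd
  set Bi : M2 := (dt zp zm)⁻¹ • !![zm 1, - zm 0; - zp 1, zp 0] with hBi
  set B : M2 := !![zp 0, zm 0; zp 1, zm 1] with hB
  have h1 : B * Bi = 1 := by
    rw [hB, hBi]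
    ext i j
    fin_cases i <;> fin_cases j <;> simp [mul_apply, Fin.sum_univ_two, dt] <;> field_simp <;> ring
  rw [cb_eq, cb_eq, ← hBi, ← hB] at h
  calc X = (B * Bi) * X * (B * Bi) := by rw [h1, one_mul, mul_one]
    _ = B * (Bi * X * B) * Bi := by simp only [mul_assoc]
    _ = B * (Bi * Y * B) * Bi := by rw [h]
    _ = (B * Bi) * Y * (B * Bi) := by simp only [mul_assoc]
    _ = Y := by rw [h1, one_mul, mul_one]

lemma cb_one (zp zm : V2) (hd : dt zp zm ≠ 0) : cb zp zm 1 = 1 := by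
  rw [cb_diag zp zm hd 1 1 1 (by simp) (by simp)]
  ext i j; fin_cases i <;> fin_cases j <;> simp

lemma cb_neg (zp zm : V2) (X : M2) : cb zp zm (-X) = - cb zp zm X := by
  rw [cb_eq, cb_eq, mul_neg, neg_mul]

lemma cb_det (zp zm : V2) (hd : dt zp zm ≠ 0) (X : M2) : (cb zp zm X).det = X.det := by
  have hd' : zp 0 * zm 1 - zp 1 * zm 0 ≠ 0 := hd
  rw [cb_eq, det_mul, det_mul]
  have h1 : ((dt zp zm)⁻¹ • !![zm 1, - zm 0; - zp 1, zp 0] : M2).det * (!![zp 0, zm 0; zp 1, zm 1] : M2).det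
      = 1 := by
    rw [← det_mul]
    have : ((dt zp zm)⁻¹ • !![zm 1, - zm 0; - zp 1, zp 0] : M2) * !![zp 0, zm 0; zp 1, zm 1] = 1 := by
      ext i j
      fin_cases i <;> fin_cases j <;> simp [mul_apply, Fin.sum_univ_two, dt] <;> field_simp <;> ring
    rw [this, det_one]
  linear_combination X.det * h1

variable {Γ : Type*} [Group Γ] (ρ : Γ →* SL2)

lemma comm_step (hinj : Function.Injective ρ) (tf : ∀ x : Γ, x ^ 4 = 1 → x = 1) (a b : Γ)
    (hb : 4 < (mt (ρ b)).trace ^ 2) (h : a * b ≠ b * a) :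
    (a * b * a⁻¹ * b⁻¹) * b ≠ b * (a * b * a⁻¹ * b⁻¹) := by
  intro heq
  have hcomm : (a * b * a⁻¹) * b = b * (a * b * a⁻¹) := by
    have h1 : (a * b * a⁻¹ * b⁻¹) * b = a * b * a⁻¹ := by group
    rw [h1] at heq
    have h2 : b * (a * b * a⁻¹ * b⁻¹) * b = b * (a * b * a⁻¹) := by group
    rw [← h2, ← heq]
  obtain ⟨l, p, r, hl, hp, hr, hd⟩ := exists_eig (ρ b) hb
  have hl0 : l ≠ 0 := by rintro rfl; norm_num at hl
  have hll : l * l⁻¹ = 1 := mul_inv_cancel₀ hl0
  have hne : l - l⁻¹ ≠ 0 := by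
    intro h0
    have : l * l = 1 := by
      have h3 : l = l⁻¹ := sub_eq_zero.mp h0
      nth_rewrite 2 [h3]; exact hll
    nlinarith
  have hB := cb_diag p r hd (mt (ρ b)) l l⁻¹ hp hr
  obtain ⟨x, y, z, t, hA⟩ : ∃ x y z t : ℝ, cb p r (mt (ρ a)) = !![x, y; z, t] := ⟨_, _, _, _, rfl⟩
  have hdet := cb_det p r hd (mt (ρ a))
  rw [hA, mt_det, det_fin_two_of] at hdet
  have hAi : cb p r (mt (ρ a⁻¹)) = !![t, -y; -z, x] := by
    have h1 : cb p r (mt (ρ a)) * cb p r (mt (ρ a⁻¹)) = 1 := by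
      rw [← cb_mul _ _ hd, map_inv, mt_mul_inv, cb_one _ _ hd]
    have h2 : (!![t, -y; -z, x] : M2) * cb p r (mt (ρ a)) = 1 := by
      rw [hA]; ext i j; fin_cases i <;> fin_cases j <;> simp [mul_apply, Fin.sum_univ_two] <;> linarith
    calc cb p r (mt (ρ a⁻¹)) = ((!![t, -y; -z, x] : M2) * cb p r (mt (ρ a))) * cb p r (mt (ρ a⁻¹)) := by
          rw [h2, one_mul]
      _ = _ := by rw [mul_assoc, h1, mul_one]
  have h3 := congrArg (fun g => cb p r (mt (ρ g))) hcomm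
  simp only [map_mul, mt_mul, cb_mul p r hd] at h3
  rw [hA, hB, hAi] at h3
  have e01 := congrFun (congrFun h3 0) 1
  have e10 := congrFun (congrFun h3 1) 0
  simp [mul_apply, Fin.sum_univ_two] at e01 e10
  have f1 : x * y = 0 := by
    have : (l - l⁻¹) ^ 2 * (x * y) = 0 := by linear_combination e01
    exact (mul_eq_zero.mp this).resolve_left (by positivity)
  have f2 : z * t = 0 := by
    have : (l - l⁻¹) ^ 2 * (z * t) = 0 := by linear_combination e10
    exact (mul_eq_zero.mp this).resolve_left (by positivity)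
  rcases mul_eq_zero.mp f1 with hx | hy
  · -- antidiagonal
    have hz : z ≠ 0 := by rintro rfl; rw [hx] at hdet; simp at hdet
    have ht : t = 0 := (mul_eq_zero.mp f2).resolve_left hz
    rw [hx, ht] at hA hdet
    have h4 : mt (ρ (a ^ 4)) = 1 := by
      have h5 : mt (ρ a) * mt (ρ a) = -1 := by
        apply cb_inj p r hd
        rw [cb_mul _ _ hd, cb_neg, cb_one _ _ hd, hA]
        ext i j; fin_cases i <;> fin_cases j <;> simp [mul_apply, Fin.sum_univ_two] <;> linarith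
      have : a ^ 4 = a * a * (a * a) := by
        rw [show (4:ℕ) = 2 + 2 from rfl, pow_add, pow_two]
      rw [this, map_mul, map_mul, mt_mul, mt_mul, h5]; simp
    have h5 : a ^ 4 = 1 := by
      apply hinj
      rw [map_one]
      exact mt_inj (by rw [h4, mt_one])
    have := tf a h5
    rw [this] at h
    simp at h
  · have ht : t ≠ 0 := by rintro rfl; rw [hy] at hdet; simp at hdet
    have hz : z = 0 := (mul_eq_zero.mp f2).resolve_right ht
    apply h
    apply hinj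
    apply mt_inj
    rw [map_mul, map_mul, mt_mul, mt_mul]
    apply cb_inj p r hd
    rw [cb_mul _ _ hd, cb_mul _ _ hd, hA, hB, hy, hz]
    ext i j; fin_cases i <;> fin_cases j <;> simp [mul_apply, Fin.sum_univ_two, mul_comm]

lemma itc_ne (hinj : Function.Injective ρ) (tf : ∀ x : Γ, x ^ 4 = 1 → x = 1) (a b : Γ)
    (hb : 4 < (mt (ρ b)).trace ^ 2) (h : a * b ≠ b * a) (n : ℕ) :
    itc a b n * b ≠ b * itc a b n := by
  induction n with
  | zero => exact h
  | succ n ih => exact comm_step ρ hinj tf _ _ hb ih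

/-- **no cancellation** -/
theorem no_cancel (hs : HasSep Γ) (hinj : Function.Injective ρ) (hdisc : Disc ρ)
    {C D : ℝ} (hC : C ^ 2 - D ^ 2 = 1) (hCD : 0 < C * D)
    (w : Γ) (hw : (mt (ρ w)).trace = 2 * C) (σ : ℝ) (g h g1 h1 : Γ)
    (cg : IsConj w g) (ch : IsConj w h) (cg1 : IsConj w g1)
    (ch1 : IsConj w h1) (rel : g * h⁻¹ = g1 * h1⁻¹)
    (μ : ℝ) (zp zm : V2) (hμ : 1 < μ ^ 2) (hzp : mt (ρ h) *ᵥ zp = μ • zp)
    (hzm : mt (ρ h) *ᵥ zm = μ⁻¹ • zm) (hd : dt zp zm ≠ 0)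
    (hsp : σ * qf (dir C D (ρ g)) zp < 0) (hsm : 0 < σ * qf (dir C D (ρ g)) zm)
    (μ' : ℝ) (zp' zm' : V2) (hμ' : 1 < μ' ^ 2) (hzp' : mt (ρ h1) *ᵥ zp' = μ' • zp')
    (hzm' : mt (ρ h1) *ᵥ zm' = μ'⁻¹ • zm') (hd' : dt zp' zm' ≠ 0)
    (hsp' : 0 < σ * qf (dir C D (ρ g1)) zp') (hsm' : σ * qf (dir C D (ρ g1)) zm' < 0) : False := by
  have hD : D ≠ 0 := by rintro rfl; simp at hCD
  have hC0 : C ≠ 0 := by rintro rfl; simp at hCD
  have hD2 : 0 < D ^ 2 := by positivity
  have tg := trace_of_conj ρ cg hw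
  have th := trace_of_conj ρ ch hw
  have tg1 := trace_of_conj ρ cg1 hw
  have th1 := trace_of_conj ρ ch1 hw
  have hσ0 : σ ≠ 0 := by rintro rfl; simp at hsp
  have htr4 : 4 < (2 * C) ^ 2 := by nlinarith
  have uU := dir_U2 (D := D) hD hC _ tg
  have vU := dir_U2 (D := D) hD hC _ th
  have u1U := dir_U2 (D := D) hD hC _ tg1
  have v1U := dir_U2 (D := D) hD hC _ th1
  obtain ⟨ev, ev'⟩ := dir_eig hC hCD _ th μ zp zm hμ hzp hzm hd
  obtain ⟨ev1, ev1'⟩ := dir_eig hC hCD _ th1 μ' zp' zm' hμ' hzp' hzm' hd'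
  have hn : Neg σ (dir C D (ρ g) * dir C D (ρ h)) :=
    neg_prod _ _ uU.ent.1 zp zm ev ev' hd hsp hsm
  have hn1 : Pos σ (dir C D (ρ g1) * dir C D (ρ h1)) := by
    have := neg_prod (σ := -σ) _ _ u1U.ent.1 zp' zm' ev1 ev1' hd' (by linarith) (by linarith)
    exact (neg_neg_iff _ _).mp this
  have hσ2 : 0 < σ ^ 2 := by positivity
  have hcr : qf (dir C D (ρ g)) zp * qf (dir C D (ρ g)) zm < 0 := by
    have h1 := mul_neg_of_neg_of_pos hsp hsm
    have e : σ * qf (dir C D (ρ g)) zp * (σ * qf (dir C D (ρ g)) zm)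
      = σ ^ 2 * (qf (dir C D (ρ g)) zp * qf (dir C D (ρ g)) zm) := by ring
    rw [e] at h1
    by_contra hcon
    push Not at hcon
    have := mul_nonneg hσ2.le hcon
    linarith
  have hκ : ip (dir C D (ρ g)) (dir C D (ρ h)) ^ 2 < 1 := ip_sq_lt uU zp zm ev ev' hd hcr
  have hcr' : qf (mt (ρ g)) zp * qf (mt (ρ g)) zm < 0 := by
    rw [qf_dir, qf_dir] at hcr
    have e : D⁻¹ * qf (mt (ρ g)) zp * (D⁻¹ * qf (mt (ρ g)) zm)
      = (D⁻¹) ^ 2 * (qf (mt (ρ g)) zp * qf (mt (ρ g)) zm) := by ring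
    rw [e] at hcr
    by_contra hcon
    push Not at hcon
    have := mul_nonneg (sq_nonneg D⁻¹) hcon
    linarith
  have tf2 : ∀ x : Γ, x ^ 2 = 1 → x = 1 := fun x hx => hs.torsionFree x 2 (by norm_num) hx
  have tf4 : ∀ x : Γ, x ^ 4 = 1 → x = 1 := fun x hx => hs.torsionFree x 4 (by norm_num) hx
  -- w is not conjugate to its inverse
  have hw1 : w ≠ 1 := by
    rintro rfl
    rw [map_one, mt_one] at hw
    have : (1 : M2).trace = 2 := by simp
    rw [this] at hw
    nlinarith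
  have hww := hs.not_conj_inv w hw1
  -- the good translate
  obtain ⟨j, hP, hQ⟩ := exists_good ρ hC hCD hinj w hw hww σ g h g1 h1 cg ch cg1 ch1 rel hκ hn hn1
  set c := g * h⁻¹ with hc
  set x := c ^ j with hx
  set G := x * g1 * x⁻¹ with hG
  set H := x * h1 * x⁻¹ with hH
  have cG : IsConj w G := isConj_conj _ cg1
  have cH : IsConj w H := isConj_conj _ ch1
  have tG := trace_of_conj ρ cG hw
  have tH := trace_of_conj ρ cH hw
  have relj : g * h⁻¹ = G * H⁻¹ := by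
    have : G * H⁻¹ = x * (g1 * h1⁻¹) * x⁻¹ := by rw [hG, hH]; group
    rw [this, ← rel, hx, ← hc]; group
  have q := quad_of_rel ρ hC hCD g h G H tg th tG tH relj
  -- c and e are nontrivial
  have hgh : g ≠ h := by
    rintro rfl
    have : qf (mt (ρ g)) zp = 0 := by unfold qf; rw [hzp, dt_smul_right, dt_self, mul_zero]
    rw [this] at hcr'; simp at hcr'
  have hc1 : c ≠ 1 := by
    intro h0; exact hgh (mul_inv_eq_one.mp h0)
  have he1 : H⁻¹ * h ≠ 1 := by
    intro h0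
    have h2 : H = h := inv_mul_eq_one.mp h0
    have h3 : G = g := by
      rw [h2] at relj; exact (mul_right_cancel relj).symm
    have hFn := q.negF hP hQ
    have := hFn ![1, 0] (by intro h; have := congrFun h 0; simp at this)
    rw [h2, h3, sub_self] at this
    simp [qf_eq] at this
  obtain ⟨P, hPc, hPe, n, hPn⟩ := hs c (H⁻¹ * h) hc1 he1
  -- nontrivial null elements
  have htrc : 4 < (mt (ρ c)).trace ^ 2 := by
    have h1 : mt (ρ c) = el C D (dir C D (ρ g)) * eli C D (dir C D (ρ h)) := by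
      rw [el_dir hD, eli_dir hD _ th, ← mt_mul, ← map_inv, ← map_mul]
    rw [h1, tr_c vU uU, ip_comm]
    have h2 : ip (dir C D (ρ g)) (dir C D (ρ h)) < 1 := by nlinarith
    have h3 : 1 < C ^ 2 - D ^ 2 * ip (dir C D (ρ g)) (dir C D (ρ h)) := by nlinarith
    nlinarith
  have hcmem : c ∈ commutator Γ := by
    obtain ⟨a, ha⟩ := isConj_iff.mp (cg.symm.trans ch)
    have : c = g * (a * g * a⁻¹)⁻¹ := by rw [ha]
    rw [this]
    have e : g * (a * g * a⁻¹)⁻¹ = ⁅g, a⁆ := by rw [commutatorElement_def]; group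
    rw [e]
    exact Subgroup.commutator_mem_commutator (Subgroup.mem_top _) (Subgroup.mem_top _)
  have hgc : g * c * g⁻¹ ∈ commutator Γ := by
    have := (inferInstance : (commutator Γ).Normal).conj_mem c hcmem g
    exact this
  have hgg : g * c ≠ c * g := by
    intro h0
    -- then g commutes with h
    have hgh' : g * h⁻¹ = h⁻¹ * g := by
      have h2 : g * (g * h⁻¹) = (g * h⁻¹) * g := h0
      have h3 : g * (g * h⁻¹) = g * (h⁻¹ * g) := by rw [h2]; group
      exact mul_left_cancel h3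
    have hgh2 : g * h = h * g := by
      have : h * (g * h⁻¹) * h = h * (h⁻¹ * g) * h := by rw [hgh']
      have e1 : h * (g * h⁻¹) * h = h * g := by group
      have e2 : h * (h⁻¹ * g) * h = g * h := by group
      rw [e1, e2] at this
      exact this.symm
    -- zp is an eigenvector of g
    have h4 : mt (ρ h) *ᵥ (mt (ρ g) *ᵥ zp) = μ • (mt (ρ g) *ᵥ zp) := by
      rw [mulVec_mulVec, ← mt_mul, ← map_mul, ← hgh2, map_mul, mt_mul, ← mulVec_mulVec, hzp,
        mulVec_smul]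
    have h5 : dt zp (mt (ρ g) *ᵥ zp) = 0 := by
      have hdec := vec_decomp zp zm (mt (ρ g) *ᵥ zp) hd
      set α := dt (mt (ρ g) *ᵥ zp) zm / dt zp zm
      set β := dt zp (mt (ρ g) *ᵥ zp) / dt zp zm with hβ
      rw [hdec, mulVec_add, mulVec_smul, mulVec_smul, hzp, hzm] at h4
      have h6 := congrArg (fun z => dt zp z) h4
      simp only [dt_add_right, dt_smul_right, dt_self, mul_zero, zero_add] at h6
      have hμ0 : μ ≠ 0 := by rintro rfl; norm_num at hμ
      have hμμ : μ * μ⁻¹ = 1 := mul_inv_cancel₀ hμ0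
      have h7 : β = 0 := by
        have h8 : (μ ^ 2 - 1) * (β * dt zp zm) = 0 := by
          linear_combination (-μ) * h6 + (β * dt zp zm) * hμμ
        have h9 := (mul_eq_zero.mp h8).resolve_left (by linarith)
        exact (mul_eq_zero.mp h9).resolve_right hd
      rw [hβ, div_eq_zero_iff] at h7
      exact h7.resolve_right hd
    have : qf (mt (ρ g)) zp = 0 := h5
    rw [this] at hcr'; simp at hcr'
  have hne : (g * c * g⁻¹) * c ≠ c * (g * c * g⁻¹) := by
    have := comm_step ρ hinj tf4 g c htrc hgg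
    intro h0
    apply this
    have e1 : g * c * g⁻¹ * c⁻¹ * c = g * c * g⁻¹ := by group
    have e2 : c * (g * c * g⁻¹ * c⁻¹) = c * (g * c * g⁻¹) * c⁻¹ := by group
    rw [e1, e2, ← h0]; group
  have hk : ∃ k, k ≠ 1 ∧ P.null k := by
    refine ⟨itc (g * c * g⁻¹) c n, ?_, hPn _ hgc _ hcmem⟩
    intro h0
    have := itc_ne ρ hinj tf4 (g * c * g⁻¹) c htrc hne n
    rw [h0] at this
    simp at this
  -- reduce to positive c
  clear_value c
  clear hPn
  wlog hcpos : P.pos c generalizing P with Hw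
  · refine Hw P.rev ?_ ?_ ?_ ?_
    · rwa [P.rev_null]
    · rwa [P.rev_null]
    · obtain ⟨k, hk1, hk2⟩ := hk
      exact ⟨k, hk1, (P.rev_null k).mpr hk2⟩
    · rw [P.rev_pos]
      exact (P.pos_or_pos_of_not_null hPc).resolve_left hcpos
  -- the line crossing
  have htg0 : (mt (ρ g)).trace ≠ 0 := by rw [tg]; exact mul_ne_zero two_ne_zero hC0
  obtain ⟨k, l, p, r, hk1, hl, hp, hr, hpr, hne'⟩ :=
    exists_k ρ hinj tf2 P hk w g h cg htg0 μ zp zm hμ hzp hzm hd hcr'
  obtain ⟨x0, hx0⟩ := exists_isMaxLk ρ hdisc w P k hk1 l hl p r hp hr hpr hne'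
  have maxof : ∀ y : Γ, IsConj w y → ∃ p r : V2, IsMaxLk ρ P w p r y := by
    intro y hy
    obtain ⟨a, ha⟩ := isConj_iff.mp (hx0.1.1.symm.trans hy)
    have := hx0.conj ρ a
    rw [ha] at this
    exact ⟨_, _, this⟩
  rcases P.pos_or_pos_of_not_null hPe with he | he
  · -- use H
    obtain ⟨p', r', hmax⟩ := maxof H cH
    have ez1 : mt (ρ H) *ᵥ (mt (ρ x) *ᵥ zp') = μ' • (mt (ρ x) *ᵥ zp') := by
      rw [hH, mulVec_mulVec, ← mt_mul, ← map_mul]
      have : x * h1 * x⁻¹ * x = x * h1 := by group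
      rw [this, map_mul, mt_mul, ← mulVec_mulVec, hzp', mulVec_smul]
    have ez2 : mt (ρ H) *ᵥ (mt (ρ x) *ᵥ zm') = μ'⁻¹ • (mt (ρ x) *ᵥ zm') := by
      rw [hH, mulVec_mulVec, ← mt_mul, ← map_mul]
      have : x * h1 * x⁻¹ * x = x * h1 := by group
      rw [this, map_mul, mt_mul, ← mulVec_mulVec, hzm', mulVec_smul]
    have ez3 : dt (mt (ρ x) *ᵥ zp') (mt (ρ x) *ᵥ zm') ≠ 0 := by
      rw [dt_mulVec, mt_det, one_mul]; exact hd'
    have ez4 : ∀ y, qf (dir C D (ρ G)) (mt (ρ x) *ᵥ y) = qf (dir C D (ρ g1)) y := by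
      intro y
      rw [hG, map_mul, map_mul, map_inv, dir_conj, qf_conj_mt]
    exact core ρ hC hCD w hw P σ g h G H cg ch cG cH relj hκ hP hQ μ' _ _ hμ' ez1 ez2 ez3
      (by rw [ez4]; exact hsp') (by rw [ez4]; exact hsm') (by rw [← hc]; exact hcpos) he p' r' hmax
  · -- use h
    obtain ⟨p', r', hmax⟩ := maxof h ch
    have he' : P.pos (h⁻¹ * H) := by
      have : (H⁻¹ * h)⁻¹ = h⁻¹ * H := by group
      rwa [this] at he
    refine core ρ hC hCD w hw P (-σ) G H g h cG cH cg ch relj.symm ?_ ?_ ?_ μ zp zm hμ hzp hzm hd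
      (by linarith) (by linarith) (by rw [← relj, ← hc]; exact hcpos) he' p' r' hmax
    · rw [q.ip_eq]; exact hκ
    · rw [neg_neg_iff, add_comm]; exact hQ
    · intro y hy
      have := hP y hy
      rw [add_comm] at this
      linarith

end Pool.Agent.TH94.Gol
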