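import Mathlib
import Pool.Agent.TH94.Gol.Defs
import Pool.Agent.TH94.Gol.NC2

set_option autoImplicit false

namespace Pool.Agent.TH94.Gol

open Matrix
open Pool.Agent.TH94.Goldman

lemma parallel_of_dt {p r : V2} (hr : r ≠ 0) (h : dt p r = 0) : ∃ c : ℝ, p = c • r := by
  have hr' : r 0 ≠ 0 ∨ r 1 ≠ 0 := by
    by_contra hcon
    push Not at hcon
    apply hr
    ext i; fin_cases i <;> simp [hcon.1, hcon.2]
  unfold dt at h
  rcases hr' with h0 | h1
  · refine ⟨p 0 / r 0, ?_⟩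
    ext i; fin_cases i
    · simp; field_simp
    · simp; field_simp; linarith
  · refine ⟨p 1 / r 1, ?_⟩
    ext i; fin_cases i
    · simp; field_simp; linarith
    · simp; field_simp

lemma ends_iff (A : SL2) (p r : V2) : Ends A p r ↔ p ≠ 0 ∧ r ≠ 0 ∧ ∃ l : ℝ, 1 < l ^ 2 ∧
    mt A *ᵥ r = l • r ∧ mt A *ᵥ p = l⁻¹ • p := by
  unfold Ends
  have : ∀ l : ℝ, 1 < |l| ↔ 1 < l ^ 2 := by
    intro l
    rw [← sq_abs]
    constructor
    · intro h; nlinarith [abs_nonneg l]
    · intro h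
      by_contra hcon
      push Not at hcon
      nlinarith [abs_nonneg l]
  simp only [this]
  rfl

lemma ne_inv_of {l : ℝ} (hl : 1 < l ^ 2) : l - l⁻¹ ≠ 0 := by
  have hl0 : l ≠ 0 := by rintro rfl; norm_num at hl
  intro h
  have h3 : l = l⁻¹ := sub_eq_zero.mp h
  have : l * l = 1 := by nth_rewrite 2 [h3]; exact mul_inv_cancel₀ hl0
  nlinarith

lemma _root_.Pool.Agent.TH94.Goldman.Ends.dt_ne {A : SL2} {p r : V2} (h : Ends A p r) : dt p r ≠ 0 := by
  rw [ends_iff] at h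
  obtain ⟨hp, hr, l, hl, h1, h2⟩ := h
  intro hd
  obtain ⟨c, hc⟩ := parallel_of_dt hr hd
  rw [hc, mulVec_smul, h1] at h2
  have h3 : (c * (l - l⁻¹)) • r = 0 := by
    rw [mul_sub, sub_smul, ← smul_smul, ← smul_smul, h2, smul_smul, smul_smul, mul_comm, sub_self]
  rcases smul_eq_zero.mp h3 with h4 | h4
  · rcases mul_eq_zero.mp h4 with h5 | h5
    · apply hp; rw [hc, h5, zero_smul]
    · exact ne_inv_of hl h5
  · exact hr h4

lemma _root_.Pool.Agent.TH94.Goldman.Ends.trace_sq {A : SL2} {p r : V2} (h : Ends A p r) : 4 < (mt A).trace ^ 2 := by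
  have hd := h.dt_ne
  rw [ends_iff] at h
  obtain ⟨hp, hr, l, hl, h1, h2⟩ := h
  have hl0 : l ≠ 0 := by rintro rfl; norm_num at hl
  have hT := trace_eig _ _ _ p r h2 h1 hd
  rw [hT]
  have : (l⁻¹ + l) ^ 2 = (l - l⁻¹) ^ 2 + 4 := by field_simp; ring
  rw [this]
  have := sq_pos_of_ne_zero (ne_inv_of hl)
  linarith

lemma exists_CD {T : ℝ} (hT : 4 < T ^ 2) : ∃ C D : ℝ, T = 2 * C ∧ C ^ 2 - D ^ 2 = 1 ∧ 0 < C * D := by
  have hs : Real.sqrt (T ^ 2 / 4 - 1) ^ 2 = T ^ 2 / 4 - 1 := Real.sq_sqrt (by linarith)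
  have hspos : 0 < Real.sqrt (T ^ 2 / 4 - 1) := Real.sqrt_pos.mpr (by linarith)
  rcases le_or_gt 0 T with h | h
  · refine ⟨T / 2, Real.sqrt (T ^ 2 / 4 - 1), by ring, by rw [hs]; ring, ?_⟩
    have : 0 < T := by
      rcases lt_or_eq_of_le h with h1 | h1
      · exact h1
      · rw [← h1] at hT; norm_num at hT
    positivity
  · refine ⟨T / 2, - Real.sqrt (T ^ 2 / 4 - 1), by ring, by rw [neg_sq, hs]; ring, ?_⟩
    have := mul_pos (neg_pos.mpr h) hspos
    linarith

/-- the value of a traceless involution in terms of its eigenvectors -/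
lemma qf_ori (M : M2) (p r y : V2) (hp : M *ᵥ p = -p) (hr : M *ᵥ r = r) (hd : dt p r ≠ 0) :
    qf M y * dt p r ^ 2 = -2 * ori p y r := by
  have hy := vec_decomp p r y hd
  set a := dt y r / dt p r with ha
  set b := dt p y / dt p r with hb
  have h1 : qf M y = 2 * a * b * dt p r := by
    rw [hy, qf_comb, hr, hp]
    unfold qf
    rw [hp, hr]
    simp [dt]; ring
  have e1 : a * dt p r = dt y r := by rw [ha]; field_simp
  have e2 : b * dt p r = dt p y := by rw [hb]; field_simp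
  have h2 : ori p y r = dt p y * dt y r * dt r p := rfl
  rw [h1, h2, dt_swap r p, ← e1, ← e2]; ring

variable {C D : ℝ}

lemma _root_.Pool.Agent.TH94.Goldman.Ends.dirv (hC : C ^ 2 - D ^ 2 = 1) (hCD : 0 < C * D) {A : SL2} (hA : (mt A).trace = 2 * C)
    {p r : V2} (h : Ends A p r) : dir C D A *ᵥ r = r ∧ dir C D A *ᵥ p = - p := by
  have hd := h.dt_ne
  rw [ends_iff] at h
  obtain ⟨hp, hr, l, hl, h1, h2⟩ := h
  exact dir_eig hC hCD A hA l r p hl h1 h2 (by rw [dt_swap]; exact neg_ne_zero.mpr hd)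

lemma ori_lt_iff (hC : C ^ 2 - D ^ 2 = 1) (hCD : 0 < C * D) {A : SL2} (hA : (mt A).trace = 2 * C)
    {p r : V2} (h : Ends A p r) (y : V2) :
    (0 < ori p y r ↔ qf (dir C D A) y < 0) ∧ (ori p y r < 0 ↔ 0 < qf (dir C D A) y) := by
  obtain ⟨h1, h2⟩ := h.dirv hC hCD hA
  have h3 := qf_ori _ p r y h2 h1 h.dt_ne
  have h4 : 0 < dt p r ^ 2 := by have := h.dt_ne; positivity
  constructor
  · constructor
    · intro h5
      by_contra hcon
      push Not at hcon
      have := mul_nonneg hcon h4.le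
      linarith
    · intro h5
      have := mul_neg_of_neg_of_pos h5 h4
      linarith
  · constructor
    · intro h5
      by_contra hcon
      push Not at hcon
      have := mul_nonpos_of_nonpos_of_nonneg hcon h4.le
      linarith
    · intro h5
      have := mul_pos h5 h4
      linarith

lemma ori_swap (p q r : V2) : ori p r q = - ori p q r := by
  simp [ori, det2]; ring

/-- uniqueness of the ends -/
lemma _root_.Pool.Agent.TH94.Goldman.Ends.unique {A : SL2} {p r p' r' : V2} (h : Ends A p r) (h' : Ends A p' r') :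
    (∃ s : ℝ, s ≠ 0 ∧ p' = s • p) ∧ (∃ t : ℝ, t ≠ 0 ∧ r' = t • r) := by
  obtain ⟨C, D, hA, hC, hCD⟩ := exists_CD h.trace_sq
  obtain ⟨h1, h2⟩ := h.dirv hC hCD hA
  obtain ⟨h1', h2'⟩ := h'.dirv hC hCD hA
  have hd := h.dt_ne
  have key : ∀ (x : V2) (ε : ℝ), dir C D A *ᵥ x = ε • x →
      (dt x r / dt p r) * (ε + 1) = 0 ∧ (dt p x / dt p r) * (ε - 1) = 0 := by
    intro x ε hx
    have hx' := vec_decomp p r x hd
    set a := dt x r / dt p r with ha
    set b := dt p x / dt p r with hb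
    rw [hx', mulVec_add, mulVec_smul, mulVec_smul, h1, h2] at hx
    have e1 := congrArg (fun z => dt z r) hx
    have e2 := congrArg (fun z => dt p z) hx
    simp only [smul_add, dt_add_left, dt_add_right, dt_smul_left, dt_smul_right, dt_self, mul_zero,
      add_zero, zero_add] at e1 e2
    have e3 : dt (-p) r = - dt p r := by simp [dt]; ring
    have e4 : dt p (-p) = 0 := by simp [dt]; ring
    rw [e3] at e1
    rw [e4] at e2
    constructor
    · have : dt p r * (a * (ε + 1)) = 0 := by linear_combination -e1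
      exact (mul_eq_zero.mp this).resolve_left hd
    · have : dt p r * (b * (ε - 1)) = 0 := by linear_combination -e2
      exact (mul_eq_zero.mp this).resolve_left hd
  constructor
  · obtain ⟨-, k2⟩ := key p' (-1) (by rw [h2', neg_smul, one_smul])
    have hb : dt p p' / dt p r = 0 := (mul_eq_zero.mp k2).resolve_right (by norm_num)
    have hp' := vec_decomp p r p' hd
    rw [hb, zero_smul, add_zero] at hp'
    refine ⟨_, ?_, hp'⟩
    intro h0
    rw [h0, zero_smul] at hp'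
    exact h'.1 hp'
  · obtain ⟨k1, -⟩ := key r' 1 (by rw [h1', one_smul])
    have ha : dt r' r / dt p r = 0 := (mul_eq_zero.mp k1).resolve_right (by norm_num)
    have hr' := vec_decomp p r r' hd
    rw [ha, zero_smul, zero_add] at hr'
    refine ⟨_, ?_, hr'⟩
    intro h0
    rw [h0, zero_smul] at hr'
    exact h'.2.1 hr'

/-- the existential conditions in the definition of the sign, in terms of the quadratic form -/
lemma sign_conditions (hC : C ^ 2 - D ^ 2 = 1) (hCD : 0 < C * D) {A B : SL2}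
    (hA : (mt A).trace = 2 * C) {a a' b b' : V2} (ha : Ends A a a') (hb : Ends B b b') :
    ((∃ a a' b b', Ends A a a' ∧ Ends B b b' ∧ 0 < ori a b a' ∧ 0 < ori a a' b') ↔
      (qf (dir C D A) b < 0 ∧ 0 < qf (dir C D A) b')) ∧
    ((∃ a a' b b', Ends A a a' ∧ Ends B b b' ∧ ori a b a' < 0 ∧ ori a a' b' < 0) ↔
      (0 < qf (dir C D A) b ∧ qf (dir C D A) b' < 0)) := by
  have scale : ∀ (s : ℝ) (x : V2), s ≠ 0 → (qf (dir C D A) (s • x) < 0 ↔ qf (dir C D A) x < 0) ∧
      (0 < qf (dir C D A) (s • x) ↔ 0 < qf (dir C D A) x) := by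
    intro s x hs
    have hs2 : 0 < s ^ 2 := by positivity
    rw [qf_smulVec]
    constructor
    · constructor
      · intro h
        by_contra hcon
        push Not at hcon
        have := mul_nonneg hs2.le hcon
        linarith
      · intro h; exact mul_neg_of_pos_of_neg hs2 h
    · exact mul_pos_iff_of_pos_left hs2
  constructor
  · constructor
    · rintro ⟨c, c', d, d', h1, h2, h3, h4⟩
      obtain ⟨⟨s, hs, rfl⟩, ⟨t, ht, rfl⟩⟩ := hb.unique h2
      rw [(ori_lt_iff hC hCD hA h1 _).1, (scale s b hs).1] at h3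
      rw [ori_swap, neg_pos, (ori_lt_iff hC hCD hA h1 _).2, (scale t b' ht).2] at h4
      exact ⟨h3, h4⟩
    · rintro ⟨h3, h4⟩
      refine ⟨a, a', b, b', ha, hb, ?_, ?_⟩
      · rw [(ori_lt_iff hC hCD hA ha _).1]; exact h3
      · rw [ori_swap, neg_pos, (ori_lt_iff hC hCD hA ha _).2]; exact h4
  · constructor
    · rintro ⟨c, c', d, d', h1, h2, h3, h4⟩
      obtain ⟨⟨s, hs, rfl⟩, ⟨t, ht, rfl⟩⟩ := hb.unique h2
      rw [(ori_lt_iff hC hCD hA h1 _).2, (scale s b hs).2] at h3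
      rw [ori_swap, neg_lt_zero, (ori_lt_iff hC hCD hA h1 _).1, (scale t b' ht).1] at h4
      exact ⟨h3, h4⟩
    · rintro ⟨h3, h4⟩
      refine ⟨a, a', b, b', ha, hb, ?_, ?_⟩
      · rw [(ori_lt_iff hC hCD hA ha _).2]; exact h3
      · rw [ori_swap, neg_lt_zero, (ori_lt_iff hC hCD hA ha _).1]; exact h4

lemma crossSign_eq_one_iff (hC : C ^ 2 - D ^ 2 = 1) (hCD : 0 < C * D) {A B : SL2}
    (hA : (mt A).trace = 2 * C) {a a' b b' : V2} (ha : Ends A a a') (hb : Ends B b b') :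
    crossSign A B = 1 ↔ (qf (dir C D A) b < 0 ∧ 0 < qf (dir C D A) b') := by
  obtain ⟨h1, h2⟩ := sign_conditions hC hCD hA ha hb
  unfold crossSign
  rw [← h1]
  split_ifs with h3 h4
  · exact ⟨fun _ => h3, fun _ => rfl⟩
  · exact ⟨fun h => absurd h (by norm_num), fun h => absurd h h3⟩
  · exact ⟨fun h => absurd h (by norm_num), fun h => absurd h h3⟩

lemma crossSign_eq_neg_one_iff (hC : C ^ 2 - D ^ 2 = 1) (hCD : 0 < C * D) {A B : SL2}
    (hA : (mt A).trace = 2 * C) {a a' b b' : V2} (ha : Ends A a a') (hb : Ends B b b') :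
    crossSign A B = -1 ↔ (0 < qf (dir C D A) b ∧ qf (dir C D A) b' < 0) := by
  obtain ⟨h1, h2⟩ := sign_conditions hC hCD hA ha hb
  unfold crossSign
  rw [← h2]
  split_ifs with h3 h4
  · have : ¬ (∃ a a' b b', Ends A a a' ∧ Ends B b b' ∧ ori a b a' < 0 ∧ ori a a' b' < 0) := by
      rw [h2]
      rw [h1] at h3
      rintro ⟨h5, h6⟩
      linarith [h3.1]
    exact ⟨fun h => absurd h (by norm_num), fun h => absurd h this⟩
  · exact ⟨fun _ => h4, fun _ => rfl⟩
  · exact ⟨fun h => absurd h (by norm_num), fun h => absurd h h4⟩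

lemma crossSign_cases (A B : SL2) : crossSign A B = 0 ∨ crossSign A B = 1 ∨ crossSign A B = -1 := by
  unfold crossSign
  split_ifs <;> simp

lemma exists_ends_of_crossSign {A B : SL2} (h : crossSign A B ≠ 0) :
    (∃ a a', Ends A a a') ∧ (∃ b b', Ends B b b') := by
  unfold crossSign at h
  split_ifs at h with h1 h2
  · obtain ⟨a, a', b, b', ha, hb, -⟩ := h1
    exact ⟨⟨a, a', ha⟩, ⟨b, b', hb⟩⟩
  · obtain ⟨a, a', b, b', ha, hb, -⟩ := h2
    exact ⟨⟨a, a', ha⟩, ⟨b, b', hb⟩⟩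
  · exact absurd rfl h

lemma _root_.Pool.Agent.TH94.Goldman.Ends.inv {A : SL2} {p r : V2} (h : Ends A p r) : Ends A⁻¹ r p := by
  rw [ends_iff] at h ⊢
  obtain ⟨hp, hr, l, hl, h1, h2⟩ := h
  have hl0 : l ≠ 0 := by rintro rfl; norm_num at hl
  have h3 := eig_zpow A l hl0 r h1 (-1)
  have h4 := eig_zpow A l⁻¹ (inv_ne_zero hl0) p h2 (-1)
  simp only [_root_.zpow_neg, _root_.zpow_one, inv_inv] at h3 h4
  exact ⟨hr, hp, l, hl, h4, h3⟩

lemma _root_.Pool.Agent.TH94.Goldman.Ends.conj {A : SL2} {p r : V2} (h : Ends A p r) (Z : SL2) :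
    Ends (Z * A * Z⁻¹) (mt Z *ᵥ p) (mt Z *ᵥ r) := by
  rw [ends_iff] at h ⊢
  obtain ⟨hp, hr, l, hl, h1, h2⟩ := h
  have hne : ∀ x : V2, x ≠ 0 → mt Z *ᵥ x ≠ 0 := by
    intro x hx h0
    apply hx
    have : mt Z⁻¹ *ᵥ (mt Z *ᵥ x) = x := by rw [mulVec_mulVec, mt_inv_mul, one_mulVec]
    rw [← this, h0, mulVec_zero]
  have hact : ∀ (x : V2) (μ : ℝ), mt A *ᵥ x = μ • x → mt (Z * A * Z⁻¹) *ᵥ (mt Z *ᵥ x) = μ • (mt Z *ᵥ x) := by
    intro x μ hx
    rw [mt_mul, mt_mul, mulVec_mulVec, mul_assoc, mt_inv_mul, mul_one, ← mulVec_mulVec, hx,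
      mulVec_smul]
  exact ⟨hne p hp, hne r hr, l, hl, hact r l h1, hact p l⁻¹ h2⟩

lemma ori_mulVec (Z : SL2) (p q r : V2) : ori (mt Z *ᵥ p) (mt Z *ᵥ q) (mt Z *ᵥ r) = ori p q r := by
  have h : ∀ x y : V2, det2 (mt Z *ᵥ x) (mt Z *ᵥ y) = det2 x y := by
    intro x y
    have := dt_mulVec (mt Z) x y
    rw [mt_det, one_mul] at this
    exact this
  unfold ori
  rw [h, h, h]

lemma crossSign_conj (Z A B : SL2) : crossSign (Z * A * Z⁻¹) (Z * B * Z⁻¹) = crossSign A B := by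
  have e : ∀ X : SL2, Z⁻¹ * (Z * X * Z⁻¹) * Z⁻¹⁻¹ = X := by intro X; group
  have h1 : (∃ a a' b b', Ends (Z * A * Z⁻¹) a a' ∧ Ends (Z * B * Z⁻¹) b b' ∧ 0 < ori a b a' ∧
      0 < ori a a' b') ↔ (∃ a a' b b', Ends A a a' ∧ Ends B b b' ∧ 0 < ori a b a' ∧
      0 < ori a a' b') := by
    constructor
    · rintro ⟨a, a', b, b', h1, h2, h3, h4⟩
      have h1' := h1.conj Z⁻¹
      have h2' := h2.conj Z⁻¹
      rw [e] at h1' h2'
      exact ⟨_, _, _, _, h1', h2', by rw [ori_mulVec]; exact h3, by rw [ori_mulVec]; exact h4⟩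
    · rintro ⟨a, a', b, b', h1, h2, h3, h4⟩
      exact ⟨_, _, _, _, h1.conj Z, h2.conj Z, by rw [ori_mulVec]; exact h3,
        by rw [ori_mulVec]; exact h4⟩
  have h2 : (∃ a a' b b', Ends (Z * A * Z⁻¹) a a' ∧ Ends (Z * B * Z⁻¹) b b' ∧ ori a b a' < 0 ∧
      ori a a' b' < 0) ↔ (∃ a a' b b', Ends A a a' ∧ Ends B b b' ∧ ori a b a' < 0 ∧
      ori a a' b' < 0) := by
    constructor
    · rintro ⟨a, a', b, b', h1, h2, h3, h4⟩
      have h1' := h1.conj Z⁻¹
      have h2' := h2.conj Z⁻¹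
      rw [e] at h1' h2'
      exact ⟨_, _, _, _, h1', h2', by rw [ori_mulVec]; exact h3, by rw [ori_mulVec]; exact h4⟩
    · rintro ⟨a, a', b, b', h1, h2, h3, h4⟩
      exact ⟨_, _, _, _, h1.conj Z, h2.conj Z, by rw [ori_mulVec]; exact h3,
        by rw [ori_mulVec]; exact h4⟩
  unfold crossSign
  rw [propext h1, propext h2]

lemma crossSign_inv (A B : SL2) : crossSign A B⁻¹ = - crossSign A B := by
  by_cases h0 : crossSign A B = 0
  · rw [h0, neg_zero]
    by_contra hcon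
    obtain ⟨⟨a, a', ha⟩, ⟨b, b', hb⟩⟩ := exists_ends_of_crossSign hcon
    have hb' := hb.inv
    rw [inv_inv] at hb'
    obtain ⟨C, D, hA, hC, hCD⟩ := exists_CD ha.trace_sq
    rcases crossSign_cases A B⁻¹ with h | h | h
    · exact hcon h
    · rw [crossSign_eq_one_iff hC hCD hA ha hb] at h
      have := (crossSign_eq_neg_one_iff hC hCD hA ha hb').mpr ⟨h.2, h.1⟩
      rw [h0] at this; norm_num at this
    · rw [crossSign_eq_neg_one_iff hC hCD hA ha hb] at h
      have := (crossSign_eq_one_iff hC hCD hA ha hb').mpr ⟨h.2, h.1⟩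
      rw [h0] at this; norm_num at this
  · obtain ⟨⟨a, a', ha⟩, ⟨b, b', hb⟩⟩ := exists_ends_of_crossSign h0
    have hb' := hb.inv
    obtain ⟨C, D, hA, hC, hCD⟩ := exists_CD ha.trace_sq
    rcases crossSign_cases A B with h | h | h
    · exact absurd h h0
    · rw [h]
      rw [crossSign_eq_one_iff hC hCD hA ha hb] at h
      exact (crossSign_eq_neg_one_iff hC hCD hA ha hb').mpr ⟨h.2, h.1⟩
    · rw [h, neg_neg]
      rw [crossSign_eq_neg_one_iff hC hCD hA ha hb] at h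
      exact (crossSign_eq_one_iff hC hCD hA ha hb').mpr ⟨h.2, h.1⟩

lemma crossSign_ne_zero_iff (hC : C ^ 2 - D ^ 2 = 1) (hCD : 0 < C * D) {A B : SL2}
    (hA : (mt A).trace = 2 * C) {a a' b b' : V2} (ha : Ends A a a') (hb : Ends B b b') :
    crossSign A B ≠ 0 ↔ qf (mt A) b * qf (mt A) b' < 0 := by
  have hD : D ≠ 0 := by rintro rfl; simp at hCD
  have hconv : qf (mt A) b * qf (mt A) b' < 0 ↔ qf (dir C D A) b * qf (dir C D A) b' < 0 := by
    rw [qf_dir, qf_dir]
    have e : D⁻¹ * qf (mt A) b * (D⁻¹ * qf (mt A) b') = (D⁻¹) ^ 2 * (qf (mt A) b * qf (mt A) b') := by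
      ring
    rw [e]
    have hD2 : 0 < (D⁻¹) ^ 2 := by positivity
    constructor
    · intro h; exact mul_neg_of_pos_of_neg hD2 h
    · intro h
      by_contra hcon
      push Not at hcon
      have := mul_nonneg hD2.le hcon
      linarith
  rw [hconv]
  constructor
  · intro h
    rcases crossSign_cases A B with h1 | h1 | h1
    · exact absurd h1 h
    · rw [crossSign_eq_one_iff hC hCD hA ha hb] at h1
      exact mul_neg_of_neg_of_pos h1.1 h1.2
    · rw [crossSign_eq_neg_one_iff hC hCD hA ha hb] at h1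
      exact mul_neg_of_pos_of_neg h1.1 h1.2
  · intro h
    rcases mul_neg_iff.mp h with h1 | h1
    · rw [(crossSign_eq_neg_one_iff hC hCD hA ha hb).mpr h1]; norm_num
    · rw [(crossSign_eq_one_iff hC hCD hA ha hb).mpr h1]; norm_num

lemma crossSign_symm {A B : SL2} (h : crossSign A B ≠ 0) : crossSign B A ≠ 0 := by
  obtain ⟨⟨a, a', ha⟩, ⟨b, b', hb⟩⟩ := exists_ends_of_crossSign h
  obtain ⟨C, D, hA, hC, hCD⟩ := exists_CD ha.trace_sq
  obtain ⟨C', D', hB, hC', hCD'⟩ := exists_CD hb.trace_sq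
  have hD : D ≠ 0 := by rintro rfl; simp at hCD
  have hD' : D' ≠ 0 := by rintro rfl; simp at hCD'
  rw [crossSign_ne_zero_iff hC hCD hA ha hb] at h
  rw [crossSign_ne_zero_iff hC' hCD' hB hb ha]
  have uA := dir_U2 hD hC A hA
  have uB := dir_U2 hD' hC' B hB
  obtain ⟨e1, e2⟩ := hb.dirv hC' hCD' hB
  have hdb : dt b' b ≠ 0 := by rw [dt_swap]; exact neg_ne_zero.mpr hb.dt_ne
  have hcr : qf (dir C D A) b' * qf (dir C D A) b < 0 := by
    rw [qf_dir, qf_dir]
    have e : D⁻¹ * qf (mt A) b' * (D⁻¹ * qf (mt A) b) = (D⁻¹) ^ 2 * (qf (mt A) b * qf (mt A) b') := by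
      ring
    rw [e]
    exact mul_neg_of_pos_of_neg (by positivity) h
  have hip := ip_sq_lt uA b' b e1 e2 hdb hcr
  have h2 := ha
  rw [ends_iff] at h2
  obtain ⟨-, -, l, hl, h3, h4⟩ := h2
  have hda : dt a' a ≠ 0 := by rw [dt_swap]; exact neg_ne_zero.mpr ha.dt_ne
  have hfin := cross_of_ip A (dir C' D' B) uB.ent.1 l a' a h3 h4 hl hda (by
    have t1 : (mt A * dir C' D' B).trace / 2 = D * ip (dir C D A) (dir C' D' B) := by
      have : mt A = C • (1 : M2) + D • dir C D A := (el_dir hD A).symm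
      rw [this, add_mul, smul_mul_assoc, smul_mul_assoc, one_mul, trace_add, trace_smul, trace_smul,
        uB.tr]
      unfold ip
      simp; ring
    have t2 : nq (dir C' D' B) = 1 := uB.ent.2
    rw [t1, t2, hA]
    have : (2 * C / 2) ^ 2 - 1 = D ^ 2 := by linear_combination hC
    rw [this, mul_one, mul_pow]
    have hD2 : 0 < D ^ 2 := by positivity
    have := mul_lt_mul_of_pos_left hip hD2
    linarith)
  rw [qf_dir, qf_dir] at hfin
  have e : D'⁻¹ * qf (mt B) a' * (D'⁻¹ * qf (mt B) a) = (D'⁻¹) ^ 2 * (qf (mt B) a * qf (mt B) a') := by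
    ring
  rw [e] at hfin
  by_contra hcon
  push Not at hcon
  have := mul_nonneg (sq_nonneg D'⁻¹) hcon
  linarith

end Pool.Agent.TH94.Gol
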