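import Mathlib
import Pool.Agent.TH94.Gol.Cross

set_option autoImplicit false

namespace Pool.Agent.TH94.Gol

open Matrix
open Pool.Agent.TH94.Goldman

variable {Γ : Type} [Group Γ] (ρ : Γ →* SL2)

/-- an eigenvector for the same eigenvalue is proportional -/
lemma eig_unique {A : SL2} {p r : V2} {l : ℝ} (hl : 1 < l ^ 2) (hr : mt A *ᵥ r = l • r)
    (hp : mt A *ᵥ p = l⁻¹ • p) (hd : dt p r ≠ 0) :
    (∀ y, mt A *ᵥ y = l • y → ∃ c : ℝ, y = c • r) ∧
    (∀ y, mt A *ᵥ y = l⁻¹ • y → ∃ c : ℝ, y = c • p) := by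
  have hne := ne_inv_of hl
  constructor
  · intro y hy
    have hy' := vec_decomp p r y hd
    set a := dt y r / dt p r
    set b := dt p y / dt p r
    rw [hy', mulVec_add, mulVec_smul, mulVec_smul, hr, hp] at hy
    have h1 := congrArg (fun z => dt z r) hy
    simp only [smul_add, dt_add_left, dt_smul_left, dt_self, mul_zero, add_zero] at h1
    have h2 : (l - l⁻¹) * (a * dt p r) = 0 := by linear_combination -h1
    have h3 := (mul_eq_zero.mp h2).resolve_left hne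
    have h4 := (mul_eq_zero.mp h3).resolve_right hd
    exact ⟨b, by rw [hy', h4, zero_smul, zero_add]⟩
  · intro y hy
    have hy' := vec_decomp p r y hd
    set a := dt y r / dt p r
    set b := dt p y / dt p r
    rw [hy', mulVec_add, mulVec_smul, mulVec_smul, hr, hp] at hy
    have h1 := congrArg (fun z => dt p z) hy
    simp only [smul_add, dt_add_right, dt_smul_right, dt_self, mul_zero, zero_add] at h1
    have h2 : (l - l⁻¹) * (b * dt p r) = 0 := by linear_combination h1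
    have h3 := (mul_eq_zero.mp h2).resolve_left hne
    have h4 := (mul_eq_zero.mp h3).resolve_right hd
    exact ⟨a, by rw [hy', h4, zero_smul, add_zero]⟩

/-- diagonal in the eigenbasis -/
def Diag (p r : V2) (A : SL2) (χ : ℝ) : Prop :=
  χ ≠ 0 ∧ mt A *ᵥ r = χ • r ∧ mt A *ᵥ p = χ⁻¹ • p

lemma diag_of_comm {A Z : SL2} {p r : V2} {l : ℝ} (hl : 1 < l ^ 2) (hr : mt A *ᵥ r = l • r)
    (hp : mt A *ᵥ p = l⁻¹ • p) (hd : dt p r ≠ 0) (hc : Z * A = A * Z) : ∃ χ, Diag p r Z χ := by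
  obtain ⟨h1, h2⟩ := eig_unique hl hr hp hd
  obtain ⟨c, hc1⟩ := h1 (mt Z *ᵥ r) (by
    rw [mulVec_mulVec, ← mt_mul, ← hc, mt_mul, ← mulVec_mulVec, hr, mulVec_smul])
  obtain ⟨c', hc2⟩ := h2 (mt Z *ᵥ p) (by
    rw [mulVec_mulVec, ← mt_mul, ← hc, mt_mul, ← mulVec_mulVec, hp, mulVec_smul])
  have h3 := dt_mulVec (mt Z) p r
  rw [hc1, hc2, mt_det, one_mul, dt_smul_left, dt_smul_right] at h3
  have h4 : c' * c = 1 := by
    have : (c' * c - 1) * dt p r = 0 := by linear_combination h3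
    have := (mul_eq_zero.mp this).resolve_right hd
    linarith
  have hc0 : c ≠ 0 := by rintro rfl; simp at h4
  refine ⟨c, hc0, hc1, ?_⟩
  rw [hc2]
  congr 1
  field_simp
  linarith

lemma Diag.mul {p r : V2} {A B : SL2} {χ ψ : ℝ} (hA : Diag p r A χ) (hB : Diag p r B ψ) :
    Diag p r (A * B) (χ * ψ) := by
  refine ⟨mul_ne_zero hA.1 hB.1, ?_, ?_⟩
  · rw [mt_mul, ← mulVec_mulVec, hB.2.1, mulVec_smul, hA.2.1, smul_smul, mul_comm]
  · rw [mt_mul, ← mulVec_mulVec, hB.2.2, mulVec_smul, hA.2.2, smul_smul, mul_inv, mul_comm]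

lemma Diag.zpow {p r : V2} {A : SL2} {χ : ℝ} (hA : Diag p r A χ) (n : ℤ) :
    Diag p r (A ^ n) (χ ^ n) := by
  refine ⟨zpow_ne_zero _ hA.1, eig_zpow A χ hA.1 r hA.2.1 n, ?_⟩
  rw [eig_zpow A χ⁻¹ (inv_ne_zero hA.1) p hA.2.2 n, _root_.inv_zpow]

/-- an element acting as `± 1` -/
lemma Diag.sq_one {p r : V2} {A : SL2} {χ : ℝ} (hd : dt p r ≠ 0) (hA : Diag p r A χ)
    (hχ : χ ^ 2 = 1) : A ^ 2 = 1 := by
  have h := hA.mul hA
  have h2 : χ * χ = 1 := by rw [← hχ]; ring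
  rw [h2] at h
  apply mt_inj
  rw [pow_two]
  apply cb_inj p r hd
  have h3 := h.2.1
  have h4 := h.2.2
  rw [inv_one] at h4
  rw [cb_diag p r hd _ 1 1 h4 h3, mt_one, cb_one p r hd]
  ext i j; fin_cases i <;> fin_cases j <;> simp

lemma Diag.bound {p r : V2} {A : SL2} {χ K : ℝ} (hd : dt p r ≠ 0) (hA : Diag p r A χ)
    (h1 : |χ| ≤ K) (h2 : |χ⁻¹| ≤ K) (i j : Fin 2) :
    |mt A i j| ≤ 2 * K * (|p 0| + |p 1| + |r 0| + |r 1|) ^ 2 / |dt p r| := by
  set S := |p 0| + |p 1| + |r 0| + |r 1| with hS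
  have n1 := abs_nonneg (p 0)
  have n2 := abs_nonneg (p 1)
  have n3 := abs_nonneg (r 0)
  have n4 := abs_nonneg (r 1)
  have hp : ∀ i, |p i| ≤ S := by intro i; fin_cases i <;> simp <;> linarith
  have hr : ∀ i, |r i| ≤ S := by intro i; fin_cases i <;> simp <;> linarith
  have hS0 : 0 ≤ S := by positivity
  have hK0 : 0 ≤ K := le_trans (abs_nonneg _) h1
  rw [le_div_iff₀ (abs_pos.mpr hd), ← abs_mul]
  have e1 : ∀ i, mt A i 0 * p 0 + mt A i 1 * p 1 = χ⁻¹ * p i := by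
    intro i
    have := congrFun hA.2.2 i
    simpa [mulVec, dotProduct, Fin.sum_univ_two] using this
  have e2 : ∀ i, mt A i 0 * r 0 + mt A i 1 * r 1 = χ * r i := by
    intro i
    have := congrFun hA.2.1 i
    simpa [mulVec, dotProduct, Fin.sum_univ_two] using this
  have key : ∃ x y : ℝ, |x| ≤ S ∧ |y| ≤ S ∧ mt A i j * dt p r = x * (χ⁻¹ * p i) + y * (χ * r i) := by
    fin_cases j
    · refine ⟨r 1, - p 1, hr 1, by rw [abs_neg]; exact hp 1, ?_⟩
      simp only [Fin.zero_eta]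
      rw [← e1, ← e2]; unfold dt; ring
    · refine ⟨- r 0, p 0, by rw [abs_neg]; exact hr 0, hp 0, ?_⟩
      simp only [Fin.mk_one]
      rw [← e1, ← e2]; unfold dt; ring
  obtain ⟨x, y, hx, hy, hxy⟩ := key
  rw [hxy]
  have tri : ∀ u v w : ℝ, |u| ≤ S → |v| ≤ K → |w| ≤ S → |u * (v * w)| ≤ K * S ^ 2 := by
    intro u v w h1 h2 h3
    rw [abs_mul, abs_mul]
    have h4 : |v| * |w| ≤ K * S := mul_le_mul h2 h3 (abs_nonneg _) hK0
    have h5 : |u| * (|v| * |w|) ≤ S * (K * S) :=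
      mul_le_mul h1 h4 (mul_nonneg (abs_nonneg _) (abs_nonneg _)) hS0
    linarith
  have t1 := tri x χ⁻¹ (p i) hx h2 (hp i)
  have t2 := tri y χ (r i) hy h1 (hr i)
  have t3 := abs_add_le (x * (χ⁻¹ * p i)) (y * (χ * r i))
  linarith

/-- **the centralizer of a primitive hyperbolic element** -/
theorem centralizer_eq (hinj : Function.Injective ρ) (hdisc : Disc ρ)
    (tf : ∀ x : Γ, x ^ 2 = 1 → x = 1) (w : Γ) (hprim : IsPrimitive w) {p r : V2}
    (hw : Ends (ρ w) p r) (z : Γ) (hz : z * w = w * z) : ∃ n : ℤ, z = w ^ n := by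
  have hd := hw.dt_ne
  rw [ends_iff] at hw
  obtain ⟨-, -, l, hl, h1, h2⟩ := hw
  have hl0 : l ≠ 0 := by rintro rfl; norm_num at hl
  have hdw : Diag p r (ρ w) l := ⟨hl0, h1, h2⟩
  have hdiag : ∀ z : Γ, z * w = w * z → ∃ χ, Diag p r (ρ z) χ := by
    intro z hz
    exact diag_of_comm hl h1 h2 hd (by rw [← map_mul, hz, map_mul])
  -- the finite set
  let S : Set Γ := {z | z * w = w * z ∧ ∃ χ, Diag p r (ρ z) χ ∧ 1 < χ ^ 2 ∧ χ ^ 2 ≤ l ^ 2}
  have hS : S.Finite := by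
    apply (hdisc (2 * (|l| + 1) * (|p 0| + |p 1| + |r 0| + |r 1|) ^ 2 / |dt p r|)).subset
    rintro z ⟨-, χ, hχ, h3, h4⟩ i j
    refine hχ.bound hd ?_ ?_ i j
    · have := sq_le_sq.mp h4
      linarith
    · rw [abs_inv]
      have h5 : 1 ≤ |χ| := by
        by_contra hcon
        push Not at hcon
        have : |χ| ^ 2 = χ ^ 2 := sq_abs χ
        nlinarith [abs_nonneg χ]
      have := inv_le_one_of_one_le₀ h5
      have := abs_nonneg l
      linarith
  have hwS : w ∈ S := ⟨rfl, l, hdw, hl, le_refl _⟩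
  -- choose the minimal one
  choose! f hf using hdiag
  have huniq : ∀ z χ χ', Diag p r (ρ z) χ → Diag p r (ρ z) χ' → χ = χ' := by
    intro z χ χ' ha hb
    have h3 : (χ - χ') • r = 0 := by rw [sub_smul, ← ha.2.1, ← hb.2.1, sub_self]
    have hr0 : r ≠ 0 := by rintro rfl; simp [dt] at hd
    rcases smul_eq_zero.mp h3 with h | h
    · linarith
    · exact absurd h hr0
  obtain ⟨z0, hz0, hmin⟩ := Set.exists_min_image S (fun z => f z ^ 2) hS ⟨w, hwS⟩
  obtain ⟨hz0c, χ0, hχ0, h3, h4⟩ := hz0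
  have hf0 : f z0 = χ0 := huniq z0 _ _ (hf z0 hz0c) hχ0
  have hpow : ∀ z : Γ, z * w = w * z → ∃ n : ℤ, z = z0 ^ n := by
    intro z hz
    have hχ := hf z hz
    have hpos : 0 < f z ^ 2 := by have := hχ.1; positivity
    obtain ⟨n, hn1, hn2⟩ := exists_mem_Ico_zpow hpos h3
    refine ⟨n, ?_⟩
    have hz0n : Commute z0 w := hz0c
    have hcomm : (z * (z0 ^ n)⁻¹) * w = w * (z * (z0 ^ n)⁻¹) := by
      have hA : Commute z w := hz
      exact (hA.mul_left ((hz0n.zpow_left n).inv_left)).eq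
    have hD : Diag p r (ρ (z * (z0 ^ n)⁻¹)) (f z * χ0 ^ (-n)) := by
      have := hχ.mul (hχ0.zpow (-n))
      rwa [← map_zpow, ← map_mul, _root_.zpow_neg] at this
    have hval : (f z * χ0 ^ (-n)) ^ 2 = f z ^ 2 * ((χ0 ^ 2) ^ n)⁻¹ := by
      rw [mul_pow, _root_.zpow_neg]
      congr 1
      rw [inv_pow]
      congr 1
      rw [← zpow_natCast, ← zpow_natCast, ← _root_.zpow_mul, ← _root_.zpow_mul, mul_comm]
    have hχn : 0 < (χ0 ^ 2) ^ n := by positivity
    have hge : 1 ≤ (f z * χ0 ^ (-n)) ^ 2 := by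
      rw [hval, ← div_eq_mul_inv, one_le_div hχn]; exact hn1
    have hlt : (f z * χ0 ^ (-n)) ^ 2 < χ0 ^ 2 := by
      rw [hval, ← div_eq_mul_inv, div_lt_iff₀ hχn]
      rw [zpow_add_one₀ (by positivity)] at hn2
      linarith
    rcases lt_or_eq_of_le hge with h5 | h5
    · exfalso
      have h6 : (z * (z0 ^ n)⁻¹) ∈ S := ⟨hcomm, _, hD, h5, by linarith⟩
      have h7 := hmin _ h6
      have h8 : f (z * (z0 ^ n)⁻¹) = f z * χ0 ^ (-n) := huniq _ _ _ (hf _ hcomm) hD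
      simp only [h8, hf0] at h7
      linarith
    · have h6 := hD.sq_one hd h5.symm
      have h7 : (z * (z0 ^ n)⁻¹) ^ 2 = 1 := by
        apply hinj
        rw [map_pow, map_one]; exact h6
      have h8 := tf _ h7
      exact mul_inv_eq_one.mp h8
  obtain ⟨n, hn⟩ := hpow w rfl
  have hn1 : n = 1 ∨ n = -1 := by
    rcases lt_trichotomy n 0 with h | h | h
    · by_contra hcon
      push Not at hcon
      apply hprim (z0⁻¹) (-n).toNat (by omega)
      rw [hn]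
      have : z0⁻¹ ^ (-n).toNat = z0⁻¹ ^ (((-n).toNat : ℕ) : ℤ) := (zpow_natCast _ _).symm
      rw [this, Int.toNat_of_nonneg (by omega), _root_.zpow_neg, _root_.inv_zpow, inv_inv]
    · exfalso
      rw [h, _root_.zpow_zero] at hn
      exact hprim 1 2 le_rfl (by rw [hn, one_pow])
    · by_contra hcon
      push Not at hcon
      apply hprim z0 n.toNat (by omega)
      rw [hn]
      have : z0 ^ n.toNat = z0 ^ ((n.toNat : ℕ) : ℤ) := (zpow_natCast _ _).symm
      rw [this, Int.toNat_of_nonneg (by omega)]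
  obtain ⟨m, hm⟩ := hpow z hz
  rcases hn1 with h | h
  · refine ⟨m, ?_⟩
    rw [h, _root_.zpow_one] at hn
    rw [hn]; exact hm
  · refine ⟨-m, ?_⟩
    rw [h, _root_.zpow_neg, _root_.zpow_one] at hn
    rw [hn, hm, _root_.zpow_neg, _root_.inv_zpow, inv_inv]

end Pool.Agent.TH94.Gol
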