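import Mathlib
import Pool.Agent.TH94.Gol.Cent

set_option autoImplicit false

namespace Pool.Agent.TH94.Gol

open Matrix
open Pool.Agent.TH94.Goldman

variable {Γ : Type} [Group Γ] (ρ : Γ →* SL2)

/-- **no cancellation**, in terms of crossing signs -/
theorem sign_eq (hs : HasSep Γ) (hinj : Function.Injective ρ) (hdisc : Disc ρ) (w h h' : Γ)
    (ch : IsConj w h) (ch' : IsConj w h') (hc : crossSign (ρ w) (ρ h) ≠ 0)
    (hc' : crossSign (ρ w) (ρ h') ≠ 0) (hconj : IsConj (w * h⁻¹) (w * h'⁻¹)) :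
    crossSign (ρ w) (ρ h) = crossSign (ρ w) (ρ h') := by
  -- reduce to: sign (w, h) = -1, sign (w, h') = 1 impossible and conversely
  have key : ∀ (σ : ℝ) (h h' : Γ), IsConj w h → IsConj w h' → IsConj (w * h⁻¹) (w * h'⁻¹) →
      (σ = 1 ∨ σ = -1) →
      (σ = 1 → crossSign (ρ w) (ρ h) = -1 ∧ crossSign (ρ w) (ρ h') = 1) →
      (σ = -1 → crossSign (ρ w) (ρ h) = 1 ∧ crossSign (ρ w) (ρ h') = -1) → False := by
    intro σ h h' ch ch' hconj hσ hs1 hs2
    have hne : crossSign (ρ w) (ρ h) ≠ 0 ∧ crossSign (ρ w) (ρ h') ≠ 0 := by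
      rcases hσ with h1 | h1
      · rw [(hs1 h1).1, (hs1 h1).2]; norm_num
      · rw [(hs2 h1).1, (hs2 h1).2]; norm_num
    obtain ⟨⟨a, a', ha⟩, ⟨b, b', hb⟩⟩ := exists_ends_of_crossSign hne.1
    obtain ⟨-, ⟨c, c', hc⟩⟩ := exists_ends_of_crossSign hne.2
    obtain ⟨C, D, hA, hC, hCD⟩ := exists_CD ha.trace_sq
    -- the conjugator
    obtain ⟨z, hz⟩ := isConj_iff.mp hconj.symm
    set g1 := z * w * z⁻¹ with hg1
    set h1 := z * h' * z⁻¹ with hh1
    have rel : w * h⁻¹ = g1 * h1⁻¹ := by rw [← hz, hg1, hh1]; group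
    have cg1 : IsConj w g1 := isConj_iff.mpr ⟨z, rfl⟩
    have ch1 : IsConj w h1 := ch'.trans (isConj_iff.mpr ⟨z, rfl⟩)
    have hc1 : Ends (ρ h1) (mt (ρ z) *ᵥ c) (mt (ρ z) *ᵥ c') := by
      have := hc.conj (ρ z)
      rwa [← map_inv, ← map_mul, ← map_mul] at this
    have hcs1 : crossSign (ρ g1) (ρ h1) = crossSign (ρ w) (ρ h') := by
      rw [hg1, hh1, map_mul, map_mul, map_mul, map_mul, map_inv, crossSign_conj]
    have ha1 : Ends (ρ g1) (mt (ρ z) *ᵥ a) (mt (ρ z) *ᵥ a') := by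
      have := ha.conj (ρ z)
      rwa [← map_inv, ← map_mul, ← map_mul] at this
    have tg1 := trace_of_conj ρ cg1 hA
    have hdb := hb.dt_ne
    have hdc := hc1.dt_ne
    have hb2 := (ends_iff _ _ _).mp hb
    have hc2 := (ends_iff _ _ _).mp hc1
    obtain ⟨-, -, μ, hμ, e1, e2⟩ := hb2
    obtain ⟨-, -, μ', hμ', e1', e2'⟩ := hc2
    rcases hσ with h1' | h1'
    · obtain ⟨s1, s2⟩ := hs1 h1'
      rw [crossSign_eq_neg_one_iff hC hCD hA ha hb] at s1
      rw [← hcs1, crossSign_eq_one_iff hC hCD tg1 ha1 hc1] at s2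
      subst h1'
      exact no_cancel ρ hs hinj hdisc hC hCD w hA 1 w h g1 h1 (IsConj.refl w) ch cg1 ch1 rel
        μ b' b hμ e1 e2 (by rw [dt_swap]; exact neg_ne_zero.mpr hdb)
        (by linarith [s1.2]) (by linarith [s1.1])
        μ' _ _ hμ' e1' e2' (by rw [dt_swap]; exact neg_ne_zero.mpr hdc)
        (by linarith [s2.2]) (by linarith [s2.1])
    · obtain ⟨s1, s2⟩ := hs2 h1'
      rw [crossSign_eq_one_iff hC hCD hA ha hb] at s1
      rw [← hcs1, crossSign_eq_neg_one_iff hC hCD tg1 ha1 hc1] at s2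
      subst h1'
      exact no_cancel ρ hs hinj hdisc hC hCD w hA (-1) w h g1 h1 (IsConj.refl w) ch cg1 ch1 rel
        μ b' b hμ e1 e2 (by rw [dt_swap]; exact neg_ne_zero.mpr hdb)
        (by linarith [s1.2]) (by linarith [s1.1])
        μ' _ _ hμ' e1' e2' (by rw [dt_swap]; exact neg_ne_zero.mpr hdc)
        (by linarith [s2.2]) (by linarith [s2.1])
  rcases crossSign_cases (ρ w) (ρ h) with h1 | h1 | h1
  · exact absurd h1 hc
  · rcases crossSign_cases (ρ w) (ρ h') with h2 | h2 | h2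
    · exact absurd h2 hc'
    · rw [h1, h2]
    · exact (key (-1) h h' ch ch' hconj (Or.inr rfl) (fun h => by norm_num at h)
        (fun _ => ⟨h1, h2⟩)).elim
  · rcases crossSign_cases (ρ w) (ρ h') with h2 | h2 | h2
    · exact absurd h2 hc'
    · exact (key 1 h h' ch ch' hconj (Or.inl rfl) (fun _ => ⟨h1, h2⟩)
        (fun h => by norm_num at h)).elim
    · rw [h1, h2]

/-! ### counting terms -/

lemma numTerms_sum {ι : Type*} (T : Finset ι) (c : ι → ConjClasses Γ) (s : ι → ℤ)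
    (hs : ∀ i ∈ T, s i = 1 ∨ s i = -1) (hcs : ∀ i ∈ T, ∀ j ∈ T, c i = c j → s i = s j) :
    numTerms (∑ i ∈ T, Finsupp.single (c i) (s i)) = T.card := by
  classical
  -- a sign for every class
  have hval : ∀ κ : ConjClasses Γ, (∑ i ∈ T, Finsupp.single (c i) (s i)) κ
      = ∑ i ∈ T.filter (fun i => c i = κ), s i := by
    intro κ
    rw [Finsupp.finsetSum_apply, Finset.sum_filter]
    apply Finset.sum_congr rfl
    intro i _
    rw [Finsupp.single_apply]
  have habs : ∀ κ : ConjClasses Γ, ((∑ i ∈ T, Finsupp.single (c i) (s i)) κ).natAbs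
      = (T.filter (fun i => c i = κ)).card := by
    intro κ
    rw [hval]
    by_cases hne : (T.filter (fun i => c i = κ)).Nonempty
    · obtain ⟨j, hj⟩ := hne
      rw [Finset.mem_filter] at hj
      have : ∑ i ∈ T.filter (fun i => c i = κ), s i = ∑ i ∈ T.filter (fun i => c i = κ), s j := by
        apply Finset.sum_congr rfl
        intro i hi
        rw [Finset.mem_filter] at hi
        exact hcs i hi.1 j hj.1 (by rw [hi.2, hj.2])
      rw [this, Finset.sum_const, nsmul_eq_mul, Int.natAbs_mul, Int.natAbs_natCast]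
      rcases hs j hj.1 with h | h <;> rw [h] <;> simp
    · rw [Finset.not_nonempty_iff_eq_empty] at hne
      rw [hne]; simp
  unfold numTerms Finsupp.sum
  rw [Finset.sum_congr rfl (fun κ _ => habs κ)]
  have hsub : (∑ i ∈ T, Finsupp.single (c i) (s i)).support = T.image c := by
    ext κ
    rw [Finsupp.mem_support_iff, Finset.mem_image, ← Int.natAbs_ne_zero, habs, Finset.card_ne_zero]
    constructor
    · rintro ⟨i, hi⟩
      rw [Finset.mem_filter] at hi
      exact ⟨i, hi.1, hi.2⟩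
    · rintro ⟨i, hi, rfl⟩
      exact ⟨i, Finset.mem_filter.mpr ⟨hi, rfl⟩⟩
  rw [hsub]
  exact (Finset.card_eq_sum_card_image c T).symm

/-! ### the double cosets -/

lemma out_conj_crossSign (w x : Γ) :
    crossSign (ρ w) (ρ (x * w⁻¹ * x⁻¹)) = - crossSign (ρ w) (ρ (x * w * x⁻¹)) := by
  have : x * w⁻¹ * x⁻¹ = (x * w * x⁻¹)⁻¹ := by group
  rw [this, map_inv, crossSign_inv]

/-- the crossing double cosets -/
def TT (w : Γ) : Type :=
  {q : DoubleCoset.Quotient (Subgroup.zpowers w : Set Γ) (Subgroup.zpowers w⁻¹ : Set Γ) //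
    crossSign (ρ w) (ρ (Quotient.out q * w * (Quotient.out q)⁻¹)) ≠ 0}

section
variable {ρ} {w : Γ} {p r : V2}

lemma dc_eq (hcent : ∀ z : Γ, z * w = w * z → ∃ n : ℤ, z = w ^ n) (x y t : Γ)
    (ht : t * w = w * t) (h : t * (x * w * x⁻¹) * t⁻¹ = y * w * y⁻¹) :
    DoubleCoset.mk (Subgroup.zpowers w) (Subgroup.zpowers w⁻¹) x =
      DoubleCoset.mk (Subgroup.zpowers w) (Subgroup.zpowers w⁻¹) y := by
  rw [DoubleCoset.eq]
  obtain ⟨n, hn⟩ := hcent t ht
  have h2 : (y⁻¹ * t * x) * w = w * (y⁻¹ * t * x) := by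
    have h3 : y⁻¹ * (t * (x * w * x⁻¹) * t⁻¹) * (t * x) = y⁻¹ * (y * w * y⁻¹) * (t * x) := by rw [h]
    have e1 : y⁻¹ * (t * (x * w * x⁻¹) * t⁻¹) * (t * x) = (y⁻¹ * t * x) * w := by group
    have e2 : y⁻¹ * (y * w * y⁻¹) * (t * x) = w * (y⁻¹ * t * x) := by group
    rw [e1, e2] at h3; exact h3
  obtain ⟨m, hm⟩ := hcent _ h2
  refine ⟨w ^ n, Subgroup.zpow_mem _ (Subgroup.mem_zpowers w) n, w ^ (-m), ?_, ?_⟩
  · have : w ^ (-m) = (w⁻¹) ^ m := by rw [_root_.inv_zpow, _root_.zpow_neg]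
    rw [this]
    exact Subgroup.zpow_mem _ (Subgroup.mem_zpowers _) m
  · rw [_root_.zpow_neg, ← hm, ← hn]; group

lemma TT_finite (hdisc : Disc ρ)
    (hcent : ∀ z : Γ, z * w = w * z → ∃ n : ℤ, z = w ^ n) (hw : Ends (ρ w) p r) :
    Finite (TT ρ w) := by
  have hd := hw.dt_ne
  have hw2 := (ends_iff _ _ _).mp hw
  obtain ⟨-, -, l, hl, h1, h2⟩ := hw2
  obtain ⟨L0, hfin, hsub, htrans⟩ := Lk_fin ρ hdisc w w l hl r p h1 h2
    (by rw [dt_swap]; exact neg_ne_zero.mpr hd)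
  have hmem : ∀ q : TT ρ w, Quotient.out q.1 * w * (Quotient.out q.1)⁻¹ ∈ Lk ρ w r p := by
    intro q
    refine ⟨isConj_iff.mpr ⟨_, rfl⟩, ?_⟩
    have h3 := crossSign_symm q.2
    obtain ⟨⟨a, a', ha⟩, -⟩ := exists_ends_of_crossSign h3
    obtain ⟨C, D, hA, hC, hCD⟩ := exists_CD ha.trace_sq
    have := (crossSign_ne_zero_iff hC hCD hA ha hw).mp h3
    rwa [mul_comm] at this
  choose n hn using fun q : TT ρ w => htrans _ (hmem q)
  have : Finite L0 := hfin
  refine Finite.of_injective (fun q : TT ρ w => (⟨_, hn q⟩ : L0)) ?_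
  intro q q' hqq
  have h3 : w ^ n q * (Quotient.out q.1 * w * (Quotient.out q.1)⁻¹) * (w ^ n q)⁻¹ =
      w ^ n q' * (Quotient.out q'.1 * w * (Quotient.out q'.1)⁻¹) * (w ^ n q')⁻¹ :=
    congrArg Subtype.val hqq
  apply Subtype.ext
  have h4 := dc_eq hcent (Quotient.out q.1) (Quotient.out q'.1) ((w ^ n q')⁻¹ * w ^ n q)
    (by
      have : Commute w w := Commute.refl w
      exact ((this.zpow_left (n q')).inv_left.mul_left (this.zpow_left (n q))).eq)
    (by
      calc (w ^ n q')⁻¹ * w ^ n q * (Quotient.out q.1 * w * (Quotient.out q.1)⁻¹) *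
            ((w ^ n q')⁻¹ * w ^ n q)⁻¹
          = (w ^ n q')⁻¹ * (w ^ n q * (Quotient.out q.1 * w * (Quotient.out q.1)⁻¹) * (w ^ n q)⁻¹) *
            (w ^ n q') := by group
        _ = _ := by rw [h3]; group)
  rw [DoubleCoset.out_eq', DoubleCoset.out_eq'] at h4
  exact h4

/-- the relation of simultaneous conjugation on crossing pairs -/
def crel (ρ : Γ →* SL2) (w : Γ) : Setoid (CrossingPairs ρ w) where
  r p q := ∃ g : Γ, q.1 = (g * p.1.1 * g⁻¹, g * p.1.2 * g⁻¹)
  iseqv := by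
    refine ⟨fun p => ⟨1, by simp⟩, ?_, ?_⟩
    · rintro p q ⟨g, hg⟩
      refine ⟨g⁻¹, ?_⟩
      rw [hg]
      ext <;> simp <;> group
    · rintro p q s ⟨g, hg⟩ ⟨h, hh⟩
      refine ⟨h * g, ?_⟩
      rw [hh, hg]
      ext <;> simp <;> group

lemma crossSign_conj_group (g x y : Γ) :
    crossSign (ρ (g * x * g⁻¹)) (ρ (g * y * g⁻¹)) = crossSign (ρ x) (ρ y) := by
  simp only [map_mul, map_inv]
  exact crossSign_conj _ _ _

/-- double cosets and orbits of ordered pairs -/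
noncomputable def toOrb (q : TT ρ w) : Quotient (crel ρ w) :=
  Quotient.mk (crel ρ w) ⟨(w, Quotient.out q.1 * w * (Quotient.out q.1)⁻¹),
    IsConj.refl w, isConj_iff.mpr ⟨_, rfl⟩, q.2⟩

lemma toOrb_bij (hcent : ∀ z : Γ, z * w = w * z → ∃ n : ℤ, z = w ^ n) :
    Function.Bijective (toOrb (ρ := ρ) (w := w)) := by
  constructor
  · intro q q' h
    obtain ⟨g, hg⟩ := Quotient.exact h
    have h1 := congrArg Prod.fst hg
    have h2 := congrArg Prod.snd hg
    simp only at h1 h2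
    apply Subtype.ext
    have h4 := dc_eq hcent (Quotient.out q.1) (Quotient.out q'.1) g
      (by
        have : g * w * g⁻¹ * g = w * g := by rw [← h1]
        simpa using this) h2.symm
    rw [DoubleCoset.out_eq', DoubleCoset.out_eq'] at h4
    exact h4
  · intro o
    obtain ⟨⟨⟨x, y⟩, hx, hy, hxy⟩, rfl⟩ := Quotient.exists_rep o
    obtain ⟨a, ha⟩ := isConj_iff.mp hx
    obtain ⟨b, hb⟩ := isConj_iff.mp hy
    simp only at ha hb hxy
    set q := DoubleCoset.mk (Subgroup.zpowers w) (Subgroup.zpowers w⁻¹) (a⁻¹ * b) with hq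
    obtain ⟨h, k, hh, hk, hout⟩ :=
      DoubleCoset.mk_out_eq_mul (Subgroup.zpowers w) (Subgroup.zpowers w⁻¹) (a⁻¹ * b)
    obtain ⟨m, rfl⟩ := Subgroup.mem_zpowers_iff.mp hh
    obtain ⟨n, rfl⟩ := Subgroup.mem_zpowers_iff.mp hk
    have hval : Quotient.out q * w * (Quotient.out q)⁻¹ = w ^ m * a⁻¹ * y * (w ^ m * a⁻¹)⁻¹ := by
      have : Quotient.out q = w ^ m * (a⁻¹ * b) * w⁻¹ ^ n := hout
      rw [this, ← hb]
      group
    have hval2 : w = w ^ m * a⁻¹ * x * (w ^ m * a⁻¹)⁻¹ := by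
      rw [← ha]; group
    have hcs : crossSign (ρ w) (ρ (Quotient.out q * w * (Quotient.out q)⁻¹)) ≠ 0 := by
      have h1 := crossSign_conj_group (ρ := ρ) (w ^ m * a⁻¹) x y
      rw [← hval, ← hval2] at h1
      rw [h1]; exact hxy
    refine ⟨⟨q, hcs⟩, ?_⟩
    apply Quotient.sound
    refine ⟨(w ^ m * a⁻¹)⁻¹, ?_⟩
    show (x, y) = ((w ^ m * a⁻¹)⁻¹ * w * (w ^ m * a⁻¹)⁻¹⁻¹,
      (w ^ m * a⁻¹)⁻¹ * (Quotient.out q * w * (Quotient.out q)⁻¹) * (w ^ m * a⁻¹)⁻¹⁻¹)
    rw [hval]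
    ext
    · show x = (w ^ m * a⁻¹)⁻¹ * w * (w ^ m * a⁻¹)⁻¹⁻¹
      rw [← ha]; group
    · show y = (w ^ m * a⁻¹)⁻¹ * (w ^ m * a⁻¹ * y * (w ^ m * a⁻¹)⁻¹) * (w ^ m * a⁻¹)⁻¹⁻¹
      group

/-- the swap -/
def swapPair (p : CrossingPairs ρ w) : CrossingPairs ρ w :=
  ⟨(p.1.2, p.1.1), p.2.2.1, p.2.1, crossSign_symm p.2.2.2⟩

/-- the swap on orbits -/
def swapOrb : Quotient (crel ρ w) → Quotient (crel ρ w) :=
  Quotient.map swapPair (by
    rintro p q ⟨g, hg⟩
    refine ⟨g, ?_⟩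
    show (q.1.2, q.1.1) = (g * p.1.2 * g⁻¹, g * p.1.1 * g⁻¹)
    rw [hg])

lemma swapOrb_swapOrb (o : Quotient (crel ρ w)) : swapOrb (swapOrb o) = o := by
  obtain ⟨p, rfl⟩ := Quotient.exists_rep o
  rfl

lemma crossSign_self (A : SL2) : crossSign A A = 0 := by
  by_contra h
  obtain ⟨⟨a, a', ha⟩, -⟩ := exists_ends_of_crossSign h
  obtain ⟨C, D, hA, hC, hCD⟩ := exists_CD ha.trace_sq
  have h1 := (crossSign_ne_zero_iff hC hCD hA ha ha).mp h
  have h2 : qf (mt A) a = 0 := by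
    have := (ends_iff _ _ _).mp ha
    obtain ⟨-, -, l, -, -, e⟩ := this
    unfold qf; rw [e, dt_smul_right, dt_self, mul_zero]
  rw [h2, zero_mul] at h1
  exact lt_irrefl _ h1

lemma swapOrb_ne (hs : HasSep Γ) (o : Quotient (crel ρ w)) : swapOrb o ≠ o := by
  obtain ⟨⟨⟨x, y⟩, hx, hy, hxy⟩, rfl⟩ := Quotient.exists_rep o
  intro h
  obtain ⟨g, hg⟩ := Quotient.exact h
  have h1 : x = g * y * g⁻¹ := congrArg Prod.fst hg
  have h2 : y = g * x * g⁻¹ := congrArg Prod.snd hg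
  simp only at hxy
  have hne : x⁻¹ * y ≠ 1 := by
    intro h0
    have : x = y := inv_mul_eq_one.mp h0
    rw [this] at hxy
    exact hxy (crossSign_self _)
  obtain ⟨P, hP, -, -⟩ := hs _ _ hne hne
  have e : g * (x⁻¹ * y) * g⁻¹ = (x⁻¹ * y)⁻¹ := by
    have : g * (x⁻¹ * y) * g⁻¹ = (g * x * g⁻¹)⁻¹ * (g * y * g⁻¹) := by group
    rw [this, ← h1, ← h2]; group
  rcases P.pos_or_pos_of_not_null hP with h3 | h3
  · have h4 := (P.pos_conj g _).mpr h3
    rw [e] at h4
    exact h4 (by simpa using h3.nn)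
  · have h4 : P.pos (g * (x⁻¹ * y) * g⁻¹) := by rw [e]; exact h3
    rw [P.pos_conj] at h4
    exact h4 h3.nn

/-- the classes of crossing pairs, and a choice of an ordering -/
noncomputable def fromSI (c : Quot (SamePoint ρ w) × Bool) : Quotient (crel ρ w) :=
  if c.2 then Quotient.mk (crel ρ w) (Quot.out c.1) else swapOrb (Quotient.mk (crel ρ w) (Quot.out c.1))

/-- the class of an orbit -/
def orbToSI : Quotient (crel ρ w) → Quot (SamePoint ρ w) :=
  Quotient.lift (fun p => Quot.mk _ p) (by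
    rintro p q ⟨g, hg⟩
    exact Quot.sound ⟨g, Or.inl hg⟩)

lemma orbToSI_swap (o : Quotient (crel ρ w)) : orbToSI (swapOrb o) = orbToSI o := by
  obtain ⟨p, rfl⟩ := Quotient.exists_rep o
  symm
  apply Quot.sound
  refine ⟨1, Or.inr ?_⟩
  show (p.1.2, p.1.1) = (1 * p.1.2 * 1⁻¹, 1 * p.1.1 * 1⁻¹)
  simp

lemma orbToSI_fromSI (c : Quot (SamePoint ρ w) × Bool) : orbToSI (fromSI c) = c.1 := by
  unfold fromSI
  split_ifs
  · exact Quot.out_eq c.1
  · rw [orbToSI_swap]; exact Quot.out_eq c.1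

/-- orbits with the same class are equal up to the swap -/
lemma eq_or_swap (p q : CrossingPairs ρ w) (h : Quot.mk (SamePoint ρ w) p = Quot.mk _ q) :
    Quotient.mk (crel ρ w) p = Quotient.mk (crel ρ w) q ∨
      swapOrb (Quotient.mk (crel ρ w) p) = Quotient.mk (crel ρ w) q := by
  have h2 := Quot.eqvGen_exact h
  induction h2 with
  | rel x y hxy =>
    obtain ⟨g, hg | hg⟩ := hxy
    · left; exact Quotient.sound ⟨g, hg⟩
    · right; exact Quotient.sound ⟨g, hg⟩
  | refl x => left; rfl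
  | symm x y hxy ih =>
    rcases ih (Quot.eqvGen_sound hxy) with h | h
    · left; exact h.symm
    · right
      rw [← h, swapOrb_swapOrb]
  | trans x y z hxy hyz ih1 ih2 =>
    rcases ih1 (Quot.eqvGen_sound hxy) with h1 | h1 <;>
      rcases ih2 (Quot.eqvGen_sound hyz) with h2 | h2
    · left; exact h1.trans h2
    · right; rw [h1]; exact h2
    · right; rw [h1]; exact h2
    · left; rw [← h2, ← h1, swapOrb_swapOrb]

lemma fromSI_bij (hs : HasSep Γ) : Function.Bijective (fromSI (ρ := ρ) (w := w)) := by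
  constructor
  · intro c c' h
    have h1 : c.1 = c'.1 := by rw [← orbToSI_fromSI c, ← orbToSI_fromSI c', h]
    obtain ⟨c1, b⟩ := c
    obtain ⟨c1', b'⟩ := c'
    simp only at h1
    subst h1
    congr 1
    by_contra hb
    unfold fromSI at h
    cases b <;> cases b'
    · exact hb rfl
    · simp at h
      exact swapOrb_ne hs _ h
    · simp at h
      exact swapOrb_ne hs _ h.symm
    · exact hb rfl
  · intro o
    obtain ⟨p, rfl⟩ := Quotient.exists_rep o
    have h1 : Quot.mk (SamePoint ρ w) (Quot.out (Quot.mk (SamePoint ρ w) p)) = Quot.mk _ p :=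
      Quot.out_eq _
    rcases eq_or_swap _ _ h1 with h | h
    · exact ⟨(Quot.mk _ p, true), by unfold fromSI; simpa using h⟩
    · exact ⟨(Quot.mk _ p, false), by unfold fromSI; simpa using h⟩

lemma card_TT (hs : HasSep Γ) (hcent : ∀ z : Γ, z * w = w * z → ∃ n : ℤ, z = w ^ n) :
    ENat.card (TT ρ w) = 2 * SI ρ w := by
  have h1 : ENat.card (TT ρ w) = ENat.card (Quotient (crel ρ w)) :=
    ENat.card_congr (Equiv.ofBijective _ (toOrb_bij hcent))
  have h2 : ENat.card (Quot (SamePoint ρ w) × Bool) = ENat.card (Quotient (crel ρ w)) :=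
    ENat.card_congr (Equiv.ofBijective _ (fromSI_bij hs))
  rw [h1, ← h2, ENat.card_prod]
  unfold SI
  rw [mul_comm]
  congr 1
  rw [ENat.card_eq_coe_natCard]
  simp

end

/-- **the main theorem** for groups with the separation property -/
theorem main (hs : HasSep Γ) (hinj : Function.Injective ρ) (hdisc : IsDiscrete ρ) (w : Γ)
    (hprim : IsPrimitive w) :
    (nonzeroTerms ρ w w⁻¹).Finite ∧
    (numTerms (bracket ρ w w⁻¹) : ℕ∞) = 2 * SI ρ w := by
  classical
  show {q : DoubleCoset.Quotient (Subgroup.zpowers w : Set Γ) (Subgroup.zpowers w⁻¹ : Set Γ) |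
      term ρ w w⁻¹ (Quotient.out q) ≠ 0}.Finite ∧
    (numTerms (bracket ρ w w⁻¹) : ℕ∞) = 2 * SI ρ w
  have hdisc' : Disc ρ := hdisc
  have hterm : ∀ q : DoubleCoset.Quotient (Subgroup.zpowers w : Set Γ) (Subgroup.zpowers w⁻¹ : Set Γ),
      term ρ w w⁻¹ (Quotient.out q) ≠ 0 ↔
      crossSign (ρ w) (ρ (Quotient.out q * w * (Quotient.out q)⁻¹)) ≠ 0 := by
    intro q
    unfold term
    rw [Finsupp.single_ne_zero, out_conj_crossSign, neg_ne_zero]
  by_cases hw : ∃ p r, Ends (ρ w) p r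
  · obtain ⟨p, r, hw⟩ := hw
    have tf2 : ∀ x : Γ, x ^ 2 = 1 → x = 1 := fun x hx => hs.torsionFree x 2 (by norm_num) hx
    have hcent : ∀ z : Γ, z * w = w * z → ∃ n : ℤ, z = w ^ n :=
      centralizer_eq ρ hinj hdisc' tf2 w hprim hw
    have hfinT : Finite (TT ρ w) := TT_finite hdisc' hcent hw
    have hfin : {q : DoubleCoset.Quotient (Subgroup.zpowers w : Set Γ)
        (Subgroup.zpowers w⁻¹ : Set Γ) | term ρ w w⁻¹ (Quotient.out q) ≠ 0}.Finite := by
      have : {q : DoubleCoset.Quotient (Subgroup.zpowers w : Set Γ)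
        (Subgroup.zpowers w⁻¹ : Set Γ) | term ρ w w⁻¹ (Quotient.out q) ≠ 0} =
        {q | crossSign (ρ w) (ρ (Quotient.out q * w * (Quotient.out q)⁻¹)) ≠ 0} := by
        ext q; exact hterm q
      rw [this]
      exact hfinT
    refine ⟨hfin, ?_⟩
    rw [← card_TT hs hcent, ENat.card_eq_coe_natCard]
    congr 1
    have hsum : bracket ρ w w⁻¹ = ∑ q ∈ hfin.toFinset, term ρ w w⁻¹ (Quotient.out q) := by
      unfold bracket
      rw [finsum_eq_sum_of_support_subset]
      intro q hq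
      simpa using hq
    rw [hsum]
    unfold term
    rw [numTerms_sum]
    · refine (Nat.card_eq_card_finite_toFinset hfin).symm.trans ?_
      apply Nat.card_congr
      exact Equiv.subtypeEquivRight (fun q => hterm q)
    · intro q hq
      have h1 : term ρ w w⁻¹ (Quotient.out q) ≠ 0 := (Set.Finite.mem_toFinset hfin).mp hq
      rw [hterm] at h1
      rw [out_conj_crossSign]
      rcases crossSign_cases (ρ w) (ρ (Quotient.out q * w * (Quotient.out q)⁻¹)) with h | h | h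
      · exact absurd h h1
      · right; rw [h]
      · left; rw [h]; rfl
    · intro q hq q' hq' hc
      have h1 : term ρ w w⁻¹ (Quotient.out q) ≠ 0 := (Set.Finite.mem_toFinset hfin).mp hq
      have h2 : term ρ w w⁻¹ (Quotient.out q') ≠ 0 := (Set.Finite.mem_toFinset hfin).mp hq'
      rw [hterm] at h1 h2
      rw [out_conj_crossSign, out_conj_crossSign, neg_inj]
      apply sign_eq ρ hs hinj hdisc' w _ _ (isConj_iff.mpr ⟨_, rfl⟩) (isConj_iff.mpr ⟨_, rfl⟩) h1 h2
      have e : ∀ x : Γ, w * (x * w⁻¹ * x⁻¹) = w * (x * w * x⁻¹)⁻¹ := by intro x; group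
      rw [← e, ← e]
      exact ConjClasses.mk_eq_mk_iff_isConj.mp hc
  · have hzero : ∀ B, crossSign (ρ w) B = 0 := by
      intro B
      by_contra h
      obtain ⟨⟨a, a', ha⟩, -⟩ := exists_ends_of_crossSign h
      exact hw ⟨a, a', ha⟩
    have hterm0 : ∀ x, term ρ w w⁻¹ x = 0 := by
      intro x
      unfold term
      rw [hzero, Finsupp.single_zero]
    refine ⟨?_, ?_⟩
    · have : {q : DoubleCoset.Quotient (Subgroup.zpowers w : Set Γ)
        (Subgroup.zpowers w⁻¹ : Set Γ) | term ρ w w⁻¹ (Quotient.out q) ≠ 0} = ∅ := by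
        ext q; simp [hterm0]
      rw [this]; exact Set.finite_empty
    · have hb : bracket ρ w w⁻¹ = 0 := by
        unfold bracket
        simp [hterm0]
      have hempty : IsEmpty (CrossingPairs ρ w) := by
        constructor
        rintro ⟨⟨x, y⟩, hx, hy, hxy⟩
        obtain ⟨a, ha⟩ := isConj_iff.mp hx
        apply hxy
        have h1 := crossSign_conj_group (ρ := ρ) a w (a⁻¹ * y * a)
        rw [ha] at h1
        have : a * (a⁻¹ * y * a) * a⁻¹ = y := by group
        rw [this, hzero] at h1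
        exact h1
      have hSI : SI ρ w = 0 := by
        unfold SI
        have : IsEmpty (Quot (SamePoint ρ w)) := by
          constructor
          intro q
          obtain ⟨p, -⟩ := Quot.exists_rep q
          exact hempty.false p
        exact ENat.card_eq_zero_iff_empty _ |>.mpr this
      rw [hb, hSI]
      simp [numTerms]

end Pool.Agent.TH94.Gol
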