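import Mathlib
import Pool.Agent.TH94.Gol.TPO
import Pool.Agent.TH94.Gol.Magnus
import Pool.Agent.TH94.Gol.NoCancel

set_option autoImplicit false

namespace Pool.Agent.TH94.Gol

open MonoidAlgebra

/-! ### a refinement of a total preorder -/

/-- refine a conjugation invariant total preorder on its null subgroup -/
def TPO.refine {Γ : Type*} [Group Γ] (P : TPO Γ) (L : Γ → Prop)
    (hT : ∀ a, P.null a → L a ∨ L a⁻¹)
    (hM : ∀ a b, P.null a → P.null b → L a → L b → L (a * b))
    (hC : ∀ g a, P.null a → L a → L (g * a * g⁻¹)) : TPO Γ where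
  nn a := P.pos a ∨ (P.null a ∧ L a)
  tot a := by
    by_cases h : P.null a
    · rcases hT a h with h1 | h1
      · exact Or.inl (Or.inr ⟨h, h1⟩)
      · exact Or.inr (Or.inr ⟨P.null_inv h, h1⟩)
    · rcases P.pos_or_pos_of_not_null h with h1 | h1
      · exact Or.inl (Or.inl h1)
      · exact Or.inr (Or.inl h1)
  mul a b ha hb := by
    rcases ha with ha | ha
    · left
      rcases hb with hb | hb
      · exact P.pos_mul ha hb.nn
      · exact P.pos_mul ha hb.1.1
    · rcases hb with hb | hb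
      · left
        -- a null, b positive
        have h1 : P.pos (b * (b⁻¹ * a * b)) := by
          apply P.pos_mul hb
          have := P.conj b⁻¹ a ha.1.1
          simpa using this
        have e : b * (b⁻¹ * a * b) = a * b := by group
        rwa [e] at h1
      · right
        exact ⟨P.null_mul ha.1 hb.1, hM a b ha.1 hb.1 ha.2 hb.2⟩
  conj g a ha := by
    rcases ha with ha | ha
    · left; exact (P.pos_conj g a).mpr ha
    · right; exact ⟨(P.null_conj g a).mpr ha.1, hC g a ha.1 ha.2⟩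

lemma TPO.refine_null {Γ : Type*} [Group Γ] (P : TPO Γ) (L : Γ → Prop) (hT hM hC) (a : Γ) :
    (P.refine L hT hM hC).null a ↔ P.null a ∧ L a ∧ L a⁻¹ := by
  show ((P.pos a ∨ (P.null a ∧ L a)) ∧ (P.pos a⁻¹ ∨ (P.null a⁻¹ ∧ L a⁻¹))) ↔ _
  constructor
  · rintro ⟨h1 | h1, h2 | h2⟩
    · exact absurd (by rw [inv_inv]; exact h1.nn) h2
    · exact absurd h2.1.1 h1
    · exact absurd (by rw [inv_inv]; exact h1.1.1) h2
    · exact ⟨h1.1, h1.2, h2.2⟩
  · rintro ⟨h1, h2, h3⟩
    exact ⟨Or.inr ⟨h1, h2⟩, Or.inr ⟨P.null_inv h1, h3⟩⟩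

/-- pull back a preorder -/
def TPO.comap {Γ Δ : Type*} [Group Γ] [Group Δ] (P : TPO Δ) (f : Γ →* Δ) : TPO Γ where
  nn a := P.nn (f a)
  tot a := by rw [map_inv]; exact P.tot _
  mul a b ha hb := by rw [map_mul]; exact P.mul _ _ ha hb
  conj g a ha := by rw [map_mul, map_mul, map_inv]; exact P.conj _ _ ha

lemma TPO.comap_null {Γ Δ : Type*} [Group Γ] [Group Δ] (P : TPO Δ) (f : Γ →* Δ) (a : Γ) :
    (P.comap f).null a ↔ P.null (f a) := by
  show P.nn (f a) ∧ P.nn (f a⁻¹) ↔ _
  rw [map_inv]; rfl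

/-! ### the sign of an element of the free algebra -/

section sign
variable {J : Type} [LinearOrder J]

/-- the coefficient of the smallest word is positive -/
def nnV (v : MonoidAlgebra ℚ (FreeMonoid J)) : Prop :=
  v = 0 ∨ ∃ W : FreeMonoid J, 0 < v.coeff W ∧
    ∀ W' : FreeMonoid J, FreeMonoid.toList W' < FreeMonoid.toList W → v.coeff W' = 0

lemma nnV_total (v : MonoidAlgebra ℚ (FreeMonoid J)) : nnV v ∨ nnV (-v) := by
  by_cases h0 : v = 0
  · exact Or.inl (Or.inl h0)
  · have hne : v.coeff.support.Nonempty := by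
      rw [Finsupp.support_nonempty_iff]
      intro h; apply h0; rwa [MonoidAlgebra.coeff_eq_zero] at h
    obtain ⟨W, hW, hmin⟩ := Finset.exists_min_image v.coeff.support FreeMonoid.toList hne
    have hz : ∀ W' : FreeMonoid J, FreeMonoid.toList W' < FreeMonoid.toList W → v.coeff W' = 0 := by
      intro W' hW'
      by_contra hcon
      exact absurd (hmin W' (Finsupp.mem_support_iff.mpr hcon)) (not_le.mpr hW')
    rcases lt_or_gt_of_ne (Finsupp.mem_support_iff.mp hW) with h | h
    · right; right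
      refine ⟨W, by rw [MonoidAlgebra.coeff_neg, Finsupp.neg_apply]; linarith, ?_⟩
      intro W' hW'
      rw [MonoidAlgebra.coeff_neg, Finsupp.neg_apply, hz W' hW', neg_zero]
    · left; right
      exact ⟨W, h, hz⟩

lemma nnV_add {v w : MonoidAlgebra ℚ (FreeMonoid J)} (hv : nnV v) (hw : nnV w) : nnV (v + w) := by
  rcases hv with rfl | ⟨W1, h1, h1'⟩
  · simpa using hw
  rcases hw with rfl | ⟨W2, h2, h2'⟩
  · right; simpa using ⟨W1, h1, h1'⟩
  right
  rcases lt_trichotomy (FreeMonoid.toList W1) (FreeMonoid.toList W2) with h | h | h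
  · refine ⟨W1, ?_, ?_⟩
    · rw [MonoidAlgebra.coeff_add, Finsupp.add_apply, h2' W1 h, add_zero]; exact h1
    · intro W' hW'
      rw [MonoidAlgebra.coeff_add, Finsupp.add_apply, h1' W' hW', h2' W' (hW'.trans h), add_zero]
  · have h' : W1 = W2 := FreeMonoid.toList.injective h
    subst h'
    refine ⟨W1, ?_, ?_⟩
    · rw [MonoidAlgebra.coeff_add, Finsupp.add_apply]; linarith
    · intro W' hW'
      rw [MonoidAlgebra.coeff_add, Finsupp.add_apply, h1' W' hW', h2' W' hW', add_zero]
  · refine ⟨W2, ?_, ?_⟩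
    · rw [MonoidAlgebra.coeff_add, Finsupp.add_apply, h1' W2 h, zero_add]; exact h2
    · intro W' hW'
      rw [MonoidAlgebra.coeff_add, Finsupp.add_apply, h2' W' hW', h1' W' (hW'.trans h), add_zero]

lemma nnV_antisymm {v : MonoidAlgebra ℚ (FreeMonoid J)} (hv : nnV v) (hv' : nnV (-v)) : v = 0 := by
  rcases hv with h | ⟨W1, h1, h1'⟩
  · exact h
  rcases hv' with h | ⟨W2, h2, h2'⟩
  · exact neg_eq_zero.mp h
  exfalso
  rw [MonoidAlgebra.coeff_neg, Finsupp.neg_apply] at h2
  rcases lt_trichotomy (FreeMonoid.toList W1) (FreeMonoid.toList W2) with h | h | h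
  · have := h2' W1 h
    rw [MonoidAlgebra.coeff_neg, Finsupp.neg_apply] at this
    linarith
  · have h' : W1 = W2 := FreeMonoid.toList.injective h
    subst h'
    linarith
  · have := h1' W2 h
    linarith

lemma nnV_map (σ : J → J) (hσ : StrictMono σ) {v : MonoidAlgebra ℚ (FreeMonoid J)} (hv : nnV v) :
    nnV (mapDomain (FreeMonoid.map σ) v) := by
  rcases hv with rfl | ⟨W, h1, h2⟩
  · left; simp
  right
  have hinj : Function.Injective (FreeMonoid.map σ) := by
    intro a b hab
    have h3 : List.map σ (FreeMonoid.toList a) = List.map σ (FreeMonoid.toList b) := by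
      have := congrArg FreeMonoid.toList hab
      simpa [FreeMonoid.toList_map] using this
    exact FreeMonoid.toList.injective (List.map_injective_iff.mpr hσ.injective h3)
  have hc : ∀ W : FreeMonoid J, (mapDomain (FreeMonoid.map σ) v).coeff (FreeMonoid.map σ W) = v.coeff W := by
    intro W
    exact Finsupp.mapDomain_apply hinj _ _
  refine ⟨FreeMonoid.map σ W, by rw [hc]; exact h1, ?_⟩
  intro W' hW'
  by_cases hr : ∃ W'', FreeMonoid.map σ W'' = W'
  · obtain ⟨W'', rfl⟩ := hr
    rw [hc]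
    apply h2
    by_contra hcon
    rw [FreeMonoid.toList_map, FreeMonoid.toList_map] at hW'
    rcases lt_or_eq_of_le (not_lt.mp hcon) with h3 | h3
    · have := List.map_lt (f := σ) (fun x y h => hσ h) h3
      exact absurd (hW'.trans this) (lt_irrefl _)
    · rw [h3] at hW'
      exact absurd hW' (lt_irrefl _)
  · exact Finsupp.mapDomain_of_notMem_range _ _ (by rintro ⟨x, hx⟩; exact hr ⟨x, hx⟩)

end sign

/-! ### order of vanishing of power series -/

section O
variable {A : Type} [Ring A]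

/-- the coefficients of index `< n` vanish -/
def OO (n : ℕ) (f : PowerSeries A) : Prop := ∀ i < n, PowerSeries.coeff i f = 0

lemma OO.add {n : ℕ} {f g : PowerSeries A} (hf : OO n f) (hg : OO n g) : OO n (f + g) := by
  intro i hi; rw [map_add, hf i hi, hg i hi, add_zero]

lemma OO.neg {n : ℕ} {f : PowerSeries A} (hf : OO n f) : OO n (-f) := by
  intro i hi; rw [map_neg, hf i hi, neg_zero]

lemma OO.mono {n m : ℕ} {f : PowerSeries A} (hf : OO n f) (h : m ≤ n) : OO m f :=
  fun i hi => hf i (lt_of_lt_of_le hi h)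

lemma OO.mul {a b : ℕ} {f g : PowerSeries A} (hf : OO a f) (hg : OO b g) : OO (a + b) (f * g) := by
  intro i hi
  rw [PowerSeries.coeff_mul]
  apply Finset.sum_eq_zero
  rintro ⟨x, y⟩ hxy
  rw [Finset.HasAntidiagonal.mem_antidiagonal] at hxy
  simp only at hxy ⊢
  rcases lt_or_ge x a with h | h
  · rw [hf x h, zero_mul]
  · rw [hg y (by omega), mul_zero]

lemma OO.coeff_mul {a b : ℕ} {f g : PowerSeries A} (hf : OO a f) (hg : OO b g) :
    PowerSeries.coeff (a + b) (f * g) = PowerSeries.coeff a f * PowerSeries.coeff b g := by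
  rw [PowerSeries.coeff_mul]
  rw [Finset.sum_eq_single (a, b)]
  · rintro ⟨x, y⟩ hxy hne
    rw [Finset.HasAntidiagonal.mem_antidiagonal] at hxy
    simp only at hxy ⊢
    rcases lt_trichotomy x a with h | h | h
    · rw [hf x h, zero_mul]
    · exfalso; apply hne; subst h; congr; omega
    · rw [hg y (by omega), mul_zero]
  · intro h
    exfalso
    apply h
    rw [Finset.HasAntidiagonal.mem_antidiagonal]

lemma OO.zero (f : PowerSeries A) : OO 0 f := fun _ hi => absurd hi (Nat.not_lt_zero _)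

end O

/-! ### the Magnus filtration -/

section filt
variable {J : Type}

/-- the Magnus image -/
noncomputable abbrev MM (x : FreeGroup J) : PowerSeries (MonoidAlgebra ℚ (FreeMonoid J)) := magHom ℚ x

/-- the coefficient of degree `n` -/
noncomputable def cf (n : ℕ) (x : FreeGroup J) : MonoidAlgebra ℚ (FreeMonoid J) :=
  PowerSeries.coeff n (MM x)

lemma cf_zero (x : FreeGroup J) : cf 0 x = 1 := by
  have := magHom_zero ℚ x
  rwa [← PowerSeries.coeff_zero_eq_constantCoeff_apply] at this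

/-- the dimension filtration -/
def DD (n : ℕ) (x : FreeGroup J) : Prop := OO n (MM x - 1)

lemma DD_iff (n : ℕ) (x : FreeGroup J) : DD n x ↔ ∀ i, 1 ≤ i → i < n → cf i x = 0 := by
  unfold DD OO cf
  constructor
  · intro h i h1 h2
    have := h i h2
    rw [map_sub, PowerSeries.coeff_one, if_neg (by omega), sub_zero] at this
    exact this
  · intro h i hi
    rcases Nat.eq_zero_or_pos i with h0 | h0
    · subst h0
      rw [map_sub, PowerSeries.coeff_one, if_pos rfl]
      have := cf_zero x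
      unfold cf at this
      rw [this, sub_self]
    · rw [map_sub, PowerSeries.coeff_one, if_neg (by omega), sub_zero]
      exact h i h0 hi

lemma DD_one (x : FreeGroup J) : DD 1 x := by
  rw [DD_iff]; intro i h1 h2; omega

lemma coeff_sub_one {n : ℕ} (hn : 1 ≤ n) (x : FreeGroup J) :
    PowerSeries.coeff n (MM x - 1) = cf n x := by
  rw [map_sub, PowerSeries.coeff_one, if_neg (by omega), sub_zero]; rfl

lemma MM_mul (x y : FreeGroup J) : MM (x * y) = MM x * MM y := map_mul _ _ _

lemma DD_mul {n : ℕ} (hn : 1 ≤ n) {x y : FreeGroup J} (hx : DD n x) (hy : DD n y) :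
    DD n (x * y) ∧ cf n (x * y) = cf n x + cf n y := by
  have e : MM (x * y) - 1 = (MM x - 1) + (MM y - 1) + (MM x - 1) * (MM y - 1) := by
    rw [MM_mul]; noncomm_ring
  have h2 : OO (n + n) ((MM x - 1) * (MM y - 1)) := OO.mul hx hy
  constructor
  · unfold DD
    rw [e]
    exact (hx.add hy).add (h2.mono (by omega))
  · rw [← coeff_sub_one hn, e, map_add, map_add, coeff_sub_one hn, coeff_sub_one hn,
      h2 n (by omega), add_zero]

lemma DD_inv {n : ℕ} (hn : 1 ≤ n) {x : FreeGroup J} (hx : DD n x) :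
    DD n x⁻¹ ∧ cf n x⁻¹ = - cf n x := by
  have e : MM x⁻¹ - 1 = - ((MM x - 1) * MM x⁻¹) := by
    have : MM x * MM x⁻¹ = 1 := by rw [← MM_mul, mul_inv_cancel]; exact map_one _
    rw [sub_mul, this]; noncomm_ring
  have h0 : OO 0 (MM x⁻¹) := OO.zero _
  constructor
  · unfold DD
    rw [e]
    have := OO.mul hx h0
    rw [add_zero] at this
    exact this.neg
  · rw [← coeff_sub_one hn, e, map_neg]
    have := OO.coeff_mul hx h0
    rw [add_zero] at this
    rw [this, coeff_sub_one hn]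
    have : PowerSeries.coeff 0 (MM x⁻¹) = 1 := cf_zero x⁻¹
    rw [this, mul_one]

lemma DD_conj {n : ℕ} (hn : 1 ≤ n) (g : FreeGroup J) {x : FreeGroup J} (hx : DD n x) :
    DD n (g * x * g⁻¹) ∧ cf n (g * x * g⁻¹) = cf n x := by
  have e : MM (g * x * g⁻¹) - 1 = MM g * (MM x - 1) * MM g⁻¹ := by
    have : MM g * MM g⁻¹ = 1 := by rw [← MM_mul, mul_inv_cancel]; exact map_one _
    rw [MM_mul, MM_mul, mul_sub, sub_mul, mul_one, this]
  have h0 : OO 0 (MM g) := OO.zero _
  have h0' : OO 0 (MM g⁻¹) := OO.zero _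
  have h1 := OO.mul h0 hx
  have h2 := OO.mul h1 h0'
  rw [zero_add, add_zero] at h2
  constructor
  · unfold DD; rw [e]; exact h2
  · have h3 := OO.coeff_mul h1 h0'
    have h4 := OO.coeff_mul h0 hx
    rw [add_zero] at h3
    rw [h4] at h3
    rw [zero_add] at h3
    rw [← coeff_sub_one hn, e, h3, coeff_sub_one hn]
    have a1 : PowerSeries.coeff 0 (MM g⁻¹) = 1 := cf_zero g⁻¹
    have a2 : PowerSeries.coeff 0 (MM g) = 1 := cf_zero g
    rw [a1, a2, one_mul, mul_one]

lemma DD_comm {n : ℕ} {x y : FreeGroup J} (hx : DD n x) :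
    DD (n + 1) (x * y * x⁻¹ * y⁻¹) := by
  have hy := DD_one y
  have e : MM (x * y * x⁻¹ * y⁻¹) - 1 =
      ((MM x - 1) * (MM y - 1) + -((MM y - 1) * (MM x - 1))) * (MM x⁻¹ * MM y⁻¹) := by
    have h1 : MM x * MM x⁻¹ = 1 := by rw [← MM_mul, mul_inv_cancel]; exact map_one _
    have h2 : MM y * MM y⁻¹ = 1 := by rw [← MM_mul, mul_inv_cancel]; exact map_one _
    have h3 : (MM x - 1) * (MM y - 1) + -((MM y - 1) * (MM x - 1)) = MM x * MM y - MM y * MM x := by
      noncomm_ring
    rw [h3, sub_mul]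
    have h4 : MM y * MM x * (MM x⁻¹ * MM y⁻¹) = 1 := by
      calc _ = MM y * (MM x * MM x⁻¹) * MM y⁻¹ := by simp only [mul_assoc]
        _ = 1 := by rw [h1, mul_one, h2]
    rw [h4, MM_mul, MM_mul, MM_mul]; simp only [mul_assoc]
  unfold DD
  rw [e]
  have h1 : OO (n + 1) ((MM x - 1) * (MM y - 1)) := OO.mul hx hy
  have h2 : OO (n + 1) ((MM y - 1) * (MM x - 1)) := by
    have := OO.mul hy hx
    rwa [add_comm] at this
  have := OO.mul (h1.add h2.neg) (OO.zero (MM x⁻¹ * MM y⁻¹))
  rwa [add_zero] at this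

lemma DD_itc {n : ℕ} (x y : FreeGroup J) : DD (n + 1) (itc x y n) := by
  induction n with
  | zero => exact DD_one _
  | succ n ih => exact DD_comm ih

/-- a nontrivial element is eventually outside of the filtration -/
lemma exists_not_DD (x : FreeGroup J) (hx : x ≠ 1) : ∃ n, ∀ m ≥ n, ¬ DD m x := by
  have h1 : MM x ≠ 1 := by
    intro h
    apply hx
    have h2 : mag ℚ (single x 1) = mag ℚ (single (1 : FreeGroup J) 1) := by
      rw [mag_single, mag_single, one_smul, one_smul, map_one]; exact h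
    have h3 := mag_injective ℚ h2
    exact (MonoidAlgebra.single_left_inj one_ne_zero).mp h3
  have h2 : ∃ i, PowerSeries.coeff i (MM x - 1) ≠ 0 := by
    by_contra hcon
    push Not at hcon
    apply h1
    have : MM x - 1 = 0 := by ext1 i; rw [hcon i, map_zero]
    exact sub_eq_zero.mp this
  obtain ⟨i, hi⟩ := h2
  exact ⟨i + 1, fun m hm h => hi (h i (by omega))⟩

end filt

/-! ### the truncated preorders -/

/-- the preorder truncated at level `n` on an extension of the free group -/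
theorem exists_TPO {J : Type} [LinearOrder J] {G : Type*} [Group G] (ι : FreeGroup J →* G)
    (hι : Function.Injective ι) (P0 : TPO G) (hP0 : ∀ a, P0.null a ↔ ∃ x, ι x = a)
    (hconj : ∀ (g : G) (x : FreeGroup J), ∃ y, ι y = g * ι x * g⁻¹ ∧
      ∀ n, 1 ≤ n → DD n x → DD n y ∧ (nnV (cf n x) → nnV (cf n y)))
    (n : ℕ) : ∃ P : TPO G, ∀ a, P.null a ↔ ∃ x, ι x = a ∧ DD (n + 1) x := by
  induction n with
  | zero =>
    refine ⟨P0, fun a => ?_⟩
    rw [hP0]
    exact ⟨fun ⟨x, hx⟩ => ⟨x, hx, DD_one x⟩, fun ⟨x, hx, _⟩ => ⟨x, hx⟩⟩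
  | succ n ih =>
    obtain ⟨P, hP⟩ := ih
    have hn : 1 ≤ n + 1 := by omega
    refine ⟨P.refine (fun a => ∃ x, ι x = a ∧ nnV (cf (n + 1) x)) ?_ ?_ ?_, ?_⟩
    · intro a ha
      obtain ⟨x, hx, hx'⟩ := (hP a).mp ha
      rcases nnV_total (cf (n + 1) x) with h | h
      · exact Or.inl ⟨x, hx, h⟩
      · refine Or.inr ⟨x⁻¹, by rw [map_inv, hx], ?_⟩
        rw [(DD_inv hn hx').2]; exact h
    · rintro a b ha hb ⟨x, hx, hx1⟩ ⟨y, hy, hy1⟩
      obtain ⟨x', hx', hx2⟩ := (hP a).mp ha
      obtain ⟨y', hy', hy2⟩ := (hP b).mp hb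
      have e1 : x' = x := hι (hx'.trans hx.symm)
      have e2 : y' = y := hι (hy'.trans hy.symm)
      subst e1 e2
      refine ⟨x' * y', by rw [map_mul, hx, hy], ?_⟩
      rw [(DD_mul hn hx2 hy2).2]
      exact nnV_add hx1 hy1
    · rintro g a ha ⟨x, hx, hx1⟩
      obtain ⟨x', hx', hx2⟩ := (hP a).mp ha
      have e1 : x' = x := hι (hx'.trans hx.symm)
      subst e1
      obtain ⟨y, hy, hy1⟩ := hconj g x'
      refine ⟨y, by rw [hy, hx], ?_⟩
      exact (hy1 (n + 1) hn hx2).2 hx1
    · intro a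
      rw [TPO.refine_null]
      constructor
      · rintro ⟨h1, ⟨x, hx, hx1⟩, ⟨z, hz, hz1⟩⟩
        obtain ⟨x', hx', hx2⟩ := (hP a).mp h1
        have e1 : x' = x := hι (hx'.trans hx.symm)
        subst e1
        have e2 : z = x'⁻¹ := hι (by rw [hz, map_inv, hx])
        subst e2
        rw [(DD_inv hn hx2).2] at hz1
        refine ⟨x', hx, ?_⟩
        rw [DD_iff] at hx2 ⊢
        intro i hi1 hi2
        rcases Nat.lt_or_ge i (n + 1) with h | h
        · exact hx2 i hi1 h
        · have : i = n + 1 := by omega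
          rw [this]; exact nnV_antisymm hx1 hz1
      · rintro ⟨x, hx, hx1⟩
        have h0 : cf (n + 1) x = 0 := (DD_iff _ _).mp hx1 (n + 1) hn (by omega)
        have hx2 : DD (n + 1) x := OO.mono hx1 (by omega)
        refine ⟨(hP a).mpr ⟨x, hx, hx2⟩, ⟨x, hx, Or.inl h0⟩, ⟨x⁻¹, by rw [map_inv, hx], ?_⟩⟩
        left
        rw [(DD_inv hn hx2).2, h0, neg_zero]

/-- separation for groups embedding into an extension of a free group by an abelian group -/
theorem hasSep_of_ext {J : Type} [LinearOrder J] {G : Type*} [Group G] (ι : FreeGroup J →* G)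
    (hι : Function.Injective ι) (P0 : TPO G) (hP0 : ∀ a, P0.null a ↔ ∃ x, ι x = a)
    (hconj : ∀ (g : G) (x : FreeGroup J), ∃ y, ι y = g * ι x * g⁻¹ ∧
      ∀ n, 1 ≤ n → DD n x → DD n y ∧ (nnV (cf n x) → nnV (cf n y)))
    (hab : ∀ a ∈ commutator G, ∃ x, ι x = a)
    {Γ : Type*} [Group Γ] (j : Γ →* G) (hj : Function.Injective j) : HasSep Γ := by
  intro c e hc he
  have hlev : ∀ a : G, a ≠ 1 → ∃ n, ∀ m ≥ n, ∀ x, ι x = a → ¬ DD m x := by
    intro a ha
    by_cases hr : ∃ x, ι x = a
    · obtain ⟨x, hx⟩ := hr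
      have hx1 : x ≠ 1 := by rintro rfl; exact ha (by rw [← hx, map_one])
      obtain ⟨n, hn⟩ := exists_not_DD x hx1
      refine ⟨n, fun m hm y hy => ?_⟩
      have : y = x := hι (hy.trans hx.symm)
      rw [this]; exact hn m hm
    · exact ⟨0, fun m _ x hx => absurd ⟨x, hx⟩ hr⟩
  obtain ⟨n1, hn1⟩ := hlev (j c) (by intro h; exact hc (hj (by rw [h, map_one])))
  obtain ⟨n2, hn2⟩ := hlev (j e) (by intro h; exact he (hj (by rw [h, map_one])))
  obtain ⟨P, hP⟩ := exists_TPO ι hι P0 hP0 hconj (max n1 n2)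
  refine ⟨P.comap j, ?_, ?_, max n1 n2, ?_⟩
  · rw [TPO.comap_null, hP]
    rintro ⟨x, hx, hx1⟩
    exact hn1 _ (by omega) x hx hx1
  · rw [TPO.comap_null, hP]
    rintro ⟨x, hx, hx1⟩
    exact hn2 _ (by omega) x hx hx1
  · intro a ha b hb
    rw [TPO.comap_null, hP]
    have hmem : ∀ a ∈ commutator Γ, j a ∈ commutator G := by
      intro a ha
      have h1 : (commutator Γ).map j ≤ commutator G := by
        rw [commutator_def, commutator_def, Subgroup.map_commutator]
        exact Subgroup.commutator_mono le_top le_top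
      exact h1 (Subgroup.mem_map_of_mem j ha)
    obtain ⟨x, hx⟩ := hab _ (hmem a ha)
    obtain ⟨y, hy⟩ := hab _ (hmem b hb)
    refine ⟨itc x y (max n1 n2), ?_, DD_itc x y⟩
    have hitc : ∀ n, ι (itc x y n) = j (itc a b n) := by
      intro n
      induction n with
      | zero => exact hx
      | succ n ih =>
        show ι (itc x y n * y * (itc x y n)⁻¹ * y⁻¹) = j (itc a b n * b * (itc a b n)⁻¹ * b⁻¹)
        simp only [map_mul, map_inv, ih, hy]
    exact hitc _

/-- **free groups have the separation property** -/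
theorem hasSep_freeGroup (X : Type) : HasSep (FreeGroup X) := by
  obtain ⟨hX, -⟩ := exists_wellFoundedLT X
  let P0 : TPO (FreeGroup X) :=
    { nn := fun _ => True, tot := fun _ => Or.inl trivial, mul := fun _ _ _ _ => trivial
      conj := fun _ _ _ => trivial }
  refine hasSep_of_ext (J := X) (MonoidHom.id (FreeGroup X)) Function.injective_id P0 ?_ ?_ ?_
    (MonoidHom.id (FreeGroup X)) Function.injective_id
  · intro a
    exact ⟨fun _ => ⟨a, rfl⟩, fun _ => ⟨trivial, trivial⟩⟩
  · intro g x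
    refine ⟨g * x * g⁻¹, rfl, fun n hn hx => ?_⟩
    obtain ⟨h1, h2⟩ := DD_conj hn g hx
    exact ⟨h1, by rw [h2]; exact id⟩
  · intro a _
    exact ⟨a, rfl⟩

end Pool.Agent.TH94.Gol
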