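import Mathlib
import Pool.Agent.TH94.Gol.FreeTPO

set_option autoImplicit false

namespace Pool.Agent.TH94.Gol

open MonoidAlgebra

variable {J : Type}

/-- relabelling of the letters, on the free algebra -/
noncomputable def relab (σ : J → J) : MonoidAlgebra ℚ (FreeMonoid J) →ₐ[ℚ] MonoidAlgebra ℚ (FreeMonoid J) :=
  MonoidAlgebra.mapDomainAlgHom ℚ ℚ (FreeMonoid.map σ)

lemma relab_apply (σ : J → J) (v : MonoidAlgebra ℚ (FreeMonoid J)) :
    relab σ v = mapDomain (FreeMonoid.map σ) v := rfl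

lemma relab_zeta (σ : J → J) (y : J) : relab σ (zeta ℚ y) = zeta ℚ (σ y) := by
  rw [relab_apply, zeta, mapDomain_single]; rfl

/-- the endomorphism of the group algebra -/
noncomputable def gra (ψ : FreeGroup J →* FreeGroup J) :
    MonoidAlgebra ℚ (FreeGroup J) →ₐ[ℚ] MonoidAlgebra ℚ (FreeGroup J) :=
  MonoidAlgebra.mapDomainAlgHom ℚ ℚ ψ

lemma gra_single (ψ : FreeGroup J →* FreeGroup J) (x : FreeGroup J) (a : ℚ) :
    gra ψ (single x a) = single (ψ x) a := by
  show mapDomain ψ (single x a) = _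
  rw [mapDomain_single]

lemma gra_bd (ψ : FreeGroup J →* FreeGroup J) (ρ : J →₀ MonoidAlgebra ℚ (FreeGroup J)) :
    gra ψ (bd ℚ ρ) = ∑ y ∈ ρ.support, gra ψ (ρ y) * (single (ψ (FreeGroup.of y)) 1 - 1) := by
  rw [bd, Finsupp.sum, map_sum]
  apply Finset.sum_congr rfl
  intro y _
  rw [map_mul, map_sub, map_one, gra_single]

lemma mag_single_one (x : FreeGroup J) : mag ℚ (single x 1) = MM x := by
  rw [mag_single, one_smul]

/-- **equivariance of the leading coefficient** -/
theorem lead_equi (ψ : FreeGroup J →* FreeGroup J) (σ : J → J)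
    (hψ : ∀ y, cf 1 (ψ (FreeGroup.of y)) = zeta ℚ (σ y)) (n : ℕ) :
    ∀ u : MonoidAlgebra ℚ (FreeGroup J), OO n (mag ℚ u) →
      OO n (mag ℚ (gra ψ u)) ∧
      PowerSeries.coeff n (mag ℚ (gra ψ u)) = relab σ (PowerSeries.coeff n (mag ℚ u)) := by
  classical
  induction n with
  | zero =>
    intro u _
    refine ⟨OO.zero _, ?_⟩
    let ev : PowerSeries (MonoidAlgebra ℚ (FreeMonoid J)) →ₐ[ℚ] MonoidAlgebra ℚ (FreeMonoid J) :=
      { (PowerSeries.constantCoeff (R := MonoidAlgebra ℚ (FreeMonoid J))) with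
        commutes' := by
          intro r
          show PowerSeries.constantCoeff (algebraMap ℚ _ r) = _
          rw [PowerSeries.algebraMap_apply, PowerSeries.constantCoeff_C] }
    have hev : ∀ f, ev f = PowerSeries.coeff 0 f := by
      intro f
      rw [PowerSeries.coeff_zero_eq_constantCoeff_apply]; rfl
    have heq : (ev.comp (mag ℚ)).comp (gra ψ) = (relab σ).comp (ev.comp (mag ℚ)) := by
      apply MonoidAlgebra.algHom_ext
      case single_one_left => exact Subsingleton.elim _ _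
      intro x
      simp only [AlgHom.comp_apply]
      rw [gra_single, mag_single_one, mag_single_one, hev, hev]
      have h1 : PowerSeries.coeff 0 (MM (ψ x)) = 1 := cf_zero _
      have h2 : PowerSeries.coeff 0 (MM x) = 1 := cf_zero _
      rw [h1, h2, map_one]
    have h := DFunLike.congr_fun heq u
    simp only [AlgHom.comp_apply] at h
    rw [hev, hev] at h
    exact h
  | succ n ih =>
    intro u hu
    obtain ⟨Cs, hC, hrC⟩ := exists_PP u.coeff.support
    obtain ⟨a, ρ, -, hdec⟩ := decomp ℚ Cs.card Cs rfl hC u hrC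
    have h1 : mag ℚ u = algebraMap ℚ _ a +
        ∑ y ∈ ρ.support, mag ℚ (ρ y) * (PowerSeries.C (zeta ℚ y) * PowerSeries.X) := by
      rw [hdec, map_add, AlgHom.commutes, bd, Finsupp.sum, map_sum]
      congr 1
      apply Finset.sum_congr rfl
      intro y _
      rw [map_mul, map_sub, map_one, mag_of, add_sub_cancel_left]
    have hcoef : ∀ i, PowerSeries.coeff (i + 1) (mag ℚ u) =
        ∑ y ∈ ρ.support, PowerSeries.coeff i (mag ℚ (ρ y)) * zeta ℚ y := by
      intro i
      rw [h1, map_add, map_sum, PowerSeries.algebraMap_apply,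
        PowerSeries.coeff_C_of_ne_zero (by omega), zero_add]
      apply Finset.sum_congr rfl
      intro y _
      rw [← mul_assoc, PowerSeries.coeff_succ_mul_X, PowerSeries.coeff_mul_C]
    have ha : a = 0 := by
      have h0 := hu 0 (by omega)
      rw [h1] at h0
      rw [PowerSeries.coeff_zero_eq_constantCoeff_apply] at h0
      simp only [map_add, map_sum, map_mul, PowerSeries.constantCoeff_X, mul_zero,
        Finset.sum_const_zero, add_zero] at h0
      rw [PowerSeries.algebraMap_apply, PowerSeries.constantCoeff_C] at h0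
      have : (algebraMap ℚ (MonoidAlgebra ℚ (FreeMonoid J))) a = algebraMap ℚ _ 0 := by
        rw [h0, map_zero]
      have h1 := congrArg (fun x => x.coeff 1) this
      simpa using h1
    have hρ : ∀ y ∈ ρ.support, OO n (mag ℚ (ρ y)) := by
      intro y hy i hi
      have h2 := hcoef i
      rw [hu (i + 1) (by omega)] at h2
      exact zeta_indep ℚ ρ.support (fun y => PowerSeries.coeff i (mag ℚ (ρ y))) h2.symm y hy
    have h2 : mag ℚ (gra ψ u) = ∑ y ∈ ρ.support,
        mag ℚ (gra ψ (ρ y)) * (MM (ψ (FreeGroup.of y)) - 1) := by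
      rw [hdec, ha, map_zero, zero_add, gra_bd, map_sum]
      apply Finset.sum_congr rfl
      intro y _
      rw [map_mul, map_sub, map_one, mag_single_one]
    have hterm : ∀ y ∈ ρ.support, OO (n + 1) (mag ℚ (gra ψ (ρ y)) * (MM (ψ (FreeGroup.of y)) - 1)) ∧
        PowerSeries.coeff (n + 1) (mag ℚ (gra ψ (ρ y)) * (MM (ψ (FreeGroup.of y)) - 1)) =
        relab σ (PowerSeries.coeff n (mag ℚ (ρ y)) * zeta ℚ y) := by
      intro y hy
      obtain ⟨i1, i2⟩ := ih (ρ y) (hρ y hy)
      have h3 : OO 1 (MM (ψ (FreeGroup.of y)) - 1) := DD_one _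
      refine ⟨OO.mul i1 h3, ?_⟩
      rw [OO.coeff_mul i1 h3, i2, coeff_sub_one le_rfl, hψ, map_mul, relab_zeta]
    constructor
    · rw [h2]
      intro i hi
      rw [map_sum]
      exact Finset.sum_eq_zero (fun y hy => (hterm y hy).1 i hi)
    · rw [h2, map_sum, hcoef, map_sum]
      exact Finset.sum_congr rfl (fun y hy => (hterm y hy).2)

/-- the equivariance on the filtration of the group -/
theorem DD_equi (ψ : FreeGroup J →* FreeGroup J) (σ : J → J)
    (hψ : ∀ y, cf 1 (ψ (FreeGroup.of y)) = zeta ℚ (σ y)) (n : ℕ) (hn : 1 ≤ n) (x : FreeGroup J)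
    (hx : DD n x) : DD n (ψ x) ∧ cf n (ψ x) = relab σ (cf n x) := by
  have h1 : mag ℚ (single x 1 - 1) = MM x - 1 := by rw [map_sub, map_one, mag_single_one]
  have h2 : mag ℚ (gra ψ (single x 1 - 1)) = MM (ψ x) - 1 := by
    rw [map_sub, map_one, gra_single, map_sub, map_one, mag_single_one]
  obtain ⟨h3, h4⟩ := lead_equi ψ σ hψ n (single x 1 - 1) (by rw [h1]; exact hx)
  rw [h2] at h3 h4
  rw [h1, coeff_sub_one hn, coeff_sub_one hn] at h4
  exact ⟨h3, h4⟩

/-- the property of preserving the filtration and the signs -/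
def Good [LinearOrder J] (ψ : FreeGroup J → FreeGroup J) : Prop :=
  ∀ n, 1 ≤ n → ∀ x, DD n x → DD n (ψ x) ∧ (nnV (cf n x) → nnV (cf n (ψ x)))

lemma good_of_shift [LinearOrder J] (ψ : FreeGroup J →* FreeGroup J) (σ : J → J)
    (hσ : StrictMono σ) (hψ : ∀ y, cf 1 (ψ (FreeGroup.of y)) = zeta ℚ (σ y)) : Good ψ := by
  intro n hn x hx
  obtain ⟨h1, h2⟩ := DD_equi ψ σ hψ n hn x hx
  refine ⟨h1, fun h => ?_⟩
  rw [h2]
  exact nnV_map σ hσ h

lemma Good.comp [LinearOrder J] {ψ χ : FreeGroup J → FreeGroup J} (h1 : Good ψ) (h2 : Good χ) :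
    Good (fun x => ψ (χ x)) := by
  intro n hn x hx
  obtain ⟨a1, a2⟩ := h2 n hn x hx
  obtain ⟨b1, b2⟩ := h1 n hn _ a1
  exact ⟨b1, fun h => b2 (a2 h)⟩

lemma cf_one_mul (x y : FreeGroup J) : cf 1 (x * y) = cf 1 x + cf 1 y :=
  (DD_mul le_rfl (DD_one x) (DD_one y)).2

lemma cf_one_inv (x : FreeGroup J) : cf 1 x⁻¹ = - cf 1 x := (DD_inv le_rfl (DD_one x)).2

lemma cf_one_one : cf 1 (1 : FreeGroup J) = 0 := by
  have := cf_one_mul (1 : FreeGroup J) 1
  rw [one_mul] at this
  exact left_eq_add.mp this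

lemma cf_one_comm (x y : FreeGroup J) : cf 1 (x * y * x⁻¹ * y⁻¹) = 0 := by
  rw [cf_one_mul, cf_one_mul, cf_one_mul, cf_one_inv, cf_one_inv]; abel

lemma cf_one_of (y : J) : cf 1 (FreeGroup.of y) = zeta ℚ y := by
  unfold cf MM magHom
  simp [U]

end Pool.Agent.TH94.Gol
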