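import Mathlib
import Pool.Agent.TH94.Gol.Equi
import Pool.Agent.TH94.Gol.Defs

set_option autoImplicit false

namespace Pool.Agent.TH94.Gol

open MonoidAlgebra
open Pool.Agent.TH94.Goldman

/-- letters -/
abbrev LT (n : ℕ) : Type := Lex (ℤ × Lex (Fin n × Fin 2))
/-- letters with the extra letter `b` -/
abbrev LJ (n : ℕ) : Type := WithBot (LT n)

/-- the letter `x_j` -/
def ltr (n : ℕ) (j : ℤ) (x : Fin n × Fin 2) : LT n := toLex (j, toLex x)

/-- the shift of the letters -/
def shl (n : ℕ) (s : ℤ) (z : LT n) : LT n := toLex ((ofLex z).1 + s, (ofLex z).2)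

lemma shl_ltr (n : ℕ) (s j : ℤ) (x : Fin n × Fin 2) : shl n s (ltr n j x) = ltr n (j + s) x := rfl

lemma shl_mono (n : ℕ) (s : ℤ) : StrictMono (shl n s) := by
  intro a b h
  rw [Prod.Lex.lt_iff] at h ⊢
  rcases h with h | ⟨h1, h2⟩
  · left
    show (ofLex a).1 + s < (ofLex b).1 + s
    exact add_lt_add_left h s
  · right
    refine ⟨?_, h2⟩
    show (ofLex a).1 + s = (ofLex b).1 + s
    rw [h1]

/-- the letters in the free group -/
def fb (n : ℕ) : FreeGroup (LJ n) := FreeGroup.of ⊥
/-- the letters in the free group -/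
def fx (n : ℕ) (j : ℤ) (x : Fin n × Fin 2) : FreeGroup (LJ n) := FreeGroup.of ((ltr n j x : LT n) : LJ n)

/-- the commutator -/
def cm {G : Type*} [Group G] (x y : G) : G := x * y * x⁻¹ * y⁻¹

lemma map_cm {G H : Type*} [Group G] [Group H] (f : G →* H) (x y : G) : f (cm x y) = cm (f x) (f y) := by
  simp [cm]

/-- the product of the commutators of level `j` -/
def RR (n : ℕ) (j : ℤ) : FreeGroup (LJ n) :=
  (List.ofFn (fun i : Fin n => cm (fx n j (i, 0)) (fx n j (i, 1)))).prod

/-- the automorphism `φ` and its inverse, on letters -/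
noncomputable def phl (n : ℕ) (s : ℤ) (R : FreeGroup (LJ n)) : FreeGroup (LJ n) →* FreeGroup (LJ n) :=
  FreeGroup.lift (WithBot.recBotCoe (R * FreeGroup.of ⊥)
    (fun z => FreeGroup.of ((shl n s z : LT n) : LJ n)))

lemma phl_b (n : ℕ) (s : ℤ) (R : FreeGroup (LJ n)) : phl n s R (fb n) = R * fb n := by
  unfold phl fb
  rw [FreeGroup.lift_apply_of]
  rfl

lemma phl_x (n : ℕ) (s : ℤ) (R : FreeGroup (LJ n)) (j : ℤ) (x : Fin n × Fin 2) :
    phl n s R (fx n j x) = fx n (j + s) x := by
  unfold phl fx
  rw [FreeGroup.lift_apply_of]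
  rfl

lemma phl_RR (n : ℕ) (s : ℤ) (R : FreeGroup (LJ n)) (j : ℤ) :
    phl n s R (RR n j) = RR n (j + s) := by
  unfold RR
  rw [map_list_prod, List.map_ofFn]
  have : ((phl n s R : FreeGroup (LJ n) → FreeGroup (LJ n)) ∘
      fun i : Fin n => cm (fx n j (i, 0)) (fx n j (i, 1))) =
      fun i : Fin n => cm (fx n (j + s) (i, 0)) (fx n (j + s) (i, 1)) := by
    funext i
    simp only [Function.comp_apply, map_cm, phl_x]
  rw [this]

lemma mk_ofFn {G H : Type*} [Group G] [Group H] (f : G →* H) (n : ℕ) (F : Fin (n + 1) → G) :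
    f (List.ofFn F).prod = f (F 0) * (List.ofFn (fun i : Fin n => f (F i.succ))).prod := by
  rw [List.ofFn_succ, List.prod_cons, map_mul, map_list_prod, List.map_ofFn]
  rfl

lemma hom_ext_LJ {n : ℕ} {G : Type*} [Group G] (f g : FreeGroup (LJ n) →* G) (hb : f (fb n) = g (fb n))
    (hx : ∀ j x, f (fx n j x) = g (fx n j x)) : f = g := by
  apply FreeGroup.ext_hom
  intro y
  induction y using WithBot.recBotCoe with
  | bot => exact hb
  | coe z => exact hx (ofLex z).1 (ofLex (ofLex z).2)

/-- the automorphism `φ` -/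
noncomputable def phi (n : ℕ) : FreeGroup (LJ n) ≃* FreeGroup (LJ n) :=
  MonoidHom.toMulEquiv (phl n 1 (RR n 0)⁻¹) (phl n (-1) (RR n (-1)))
    (by
      apply hom_ext_LJ
      · rw [MonoidHom.comp_apply, phl_b, map_mul, map_inv, phl_b, phl_RR, MonoidHom.id_apply]
        norm_num
      · intro j x
        rw [MonoidHom.comp_apply, phl_x, phl_x, MonoidHom.id_apply]
        norm_num)
    (by
      apply hom_ext_LJ
      · rw [MonoidHom.comp_apply, phl_b, map_mul, phl_b, phl_RR, MonoidHom.id_apply]
        norm_num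
      · intro j x
        rw [MonoidHom.comp_apply, phl_x, phl_x, MonoidHom.id_apply]
        norm_num)

lemma phi_apply (n : ℕ) (x : FreeGroup (LJ n)) : phi n x = phl n 1 (RR n 0)⁻¹ x := rfl
lemma phi_symm_apply (n : ℕ) (x : FreeGroup (LJ n)) :
    (phi n).symm x = phl n (-1) (RR n (-1)) x := rfl

/-- the action of the integers -/
noncomputable def th (n : ℕ) : Multiplicative ℤ →* MulAut (FreeGroup (LJ n)) :=
  zpowersHom (MulAut (FreeGroup (LJ n))) (phi n)

lemma th_apply (n : ℕ) (m : Multiplicative ℤ) : th n m = (phi n : MulAut (FreeGroup (LJ n))) ^ (Multiplicative.toAdd m) := rfl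

/-- the semidirect product -/
abbrev GG (n : ℕ) : Type := FreeGroup (LJ n) ⋊[th n] Multiplicative ℤ

open SemidirectProduct

/-- the image of the generators -/
noncomputable def fS (n : ℕ) (p : Fin (n + 1) × Fin 2) : GG n :=
  Fin.cases (motive := fun _ => GG n)
    (if p.2 = 0 then inr (Multiplicative.ofAdd 1) else inl (fb n))
    (fun i => inl (fx n 0 (i, p.2))) p.1

lemma rel_image (n : ℕ) : FreeGroup.lift (fS n) ((List.ofFn (fun i : Fin (n + 1) =>
    FreeGroup.of (i, (0 : Fin 2)) * FreeGroup.of (i, (1 : Fin 2)) *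
      (FreeGroup.of (i, (0 : Fin 2)))⁻¹ * (FreeGroup.of (i, (1 : Fin 2)))⁻¹)).prod) = 1 := by
  rw [mk_ofFn]
  have h1 : (List.ofFn (fun i : Fin n => FreeGroup.lift (fS n) (
      FreeGroup.of (i.succ, (0 : Fin 2)) * FreeGroup.of (i.succ, (1 : Fin 2)) *
      (FreeGroup.of (i.succ, (0 : Fin 2)))⁻¹ * (FreeGroup.of (i.succ, (1 : Fin 2)))⁻¹))).prod
      = inl (RR n 0) := by
    unfold RR
    rw [map_list_prod, List.map_ofFn]
    have : (fun i : Fin n => FreeGroup.lift (fS n) (
      FreeGroup.of (i.succ, (0 : Fin 2)) * FreeGroup.of (i.succ, (1 : Fin 2)) *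
      (FreeGroup.of (i.succ, (0 : Fin 2)))⁻¹ * (FreeGroup.of (i.succ, (1 : Fin 2)))⁻¹)) =
      ((inl : FreeGroup (LJ n) → GG n) ∘ fun i : Fin n => cm (fx n 0 (i, 0)) (fx n 0 (i, 1))) := by
      funext i
      simp only [Function.comp_apply, map_mul, map_inv, FreeGroup.lift_apply_of, fS, Fin.cases_succ, cm]
    rw [this]
  rw [h1]
  simp only [map_mul, map_inv, FreeGroup.lift_apply_of]
  have h2 : fS n (0, 0) = inr (Multiplicative.ofAdd 1) := by simp [fS]
  have h3 : fS n (0, 1) = inl (fb n) := by simp [fS]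
  rw [h2, h3]
  have h4 : (inr (Multiplicative.ofAdd 1) : GG n) * inl (fb n) * (inr (Multiplicative.ofAdd 1))⁻¹
      = inl (phi n (fb n)) := by
    rw [← map_inv, ← inl_aut]
    have : th n (Multiplicative.ofAdd 1) = phi n := by
      rw [th_apply, toAdd_ofAdd, zpow_one]
    rw [this]
  rw [h4, phi_apply, phl_b, ← map_inv, ← map_mul, ← map_mul]
  simp

/-- the embedding of the surface group in the semidirect product -/
noncomputable def jm (n : ℕ) : ClosedSurfaceGroup (n + 1) →* GG n :=
  PresentedGroup.toGroup (f := fS n) (by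
    intro r hr
    rw [Set.mem_singleton_iff] at hr
    rw [hr]
    exact rel_image n)

/-- generators of the surface group -/
def gen (n : ℕ) (p : Fin (n + 1) × Fin 2) : ClosedSurfaceGroup (n + 1) := PresentedGroup.of p

lemma jm_gen (n : ℕ) (p : Fin (n + 1) × Fin 2) : jm n (gen n p) = fS n p := PresentedGroup.toGroup.of _

/-- the restriction of the left inverse to the free group -/
noncomputable def l1 (n : ℕ) : FreeGroup (LJ n) →* ClosedSurfaceGroup (n + 1) :=
  FreeGroup.lift (WithBot.recBotCoe (gen n (0, 1))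
    (fun z => gen n (0, 0) ^ (ofLex z).1 * gen n ((ofLex (ofLex z).2).1.succ, (ofLex (ofLex z).2).2) *
      (gen n (0, 0) ^ (ofLex z).1)⁻¹))

lemma l1_b (n : ℕ) : l1 n (fb n) = gen n (0, 1) := by
  unfold l1 fb
  rw [FreeGroup.lift_apply_of]
  rfl

lemma l1_x (n : ℕ) (j : ℤ) (x : Fin n × Fin 2) :
    l1 n (fx n j x) = gen n (0, 0) ^ j * gen n (x.1.succ, x.2) * (gen n (0, 0) ^ j)⁻¹ := by
  unfold l1 fx
  rw [FreeGroup.lift_apply_of]
  rfl

lemma gen_rel (n : ℕ) : cm (gen n (0, 0)) (gen n (0, 1)) * l1 n (RR n 0) = 1 := by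
  have h : PresentedGroup.mk ({(List.ofFn (fun i : Fin (n + 1) =>
    FreeGroup.of (i, (0 : Fin 2)) * FreeGroup.of (i, (1 : Fin 2)) *
      (FreeGroup.of (i, (0 : Fin 2)))⁻¹ * (FreeGroup.of (i, (1 : Fin 2)))⁻¹)).prod} :
    Set (FreeGroup (Fin (n + 1) × Fin 2))) ((List.ofFn (fun i : Fin (n + 1) =>
    FreeGroup.of (i, (0 : Fin 2)) * FreeGroup.of (i, (1 : Fin 2)) *
      (FreeGroup.of (i, (0 : Fin 2)))⁻¹ * (FreeGroup.of (i, (1 : Fin 2)))⁻¹)).prod) = 1 :=
    PresentedGroup.one_of_mem (Set.mem_singleton _)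
  rw [mk_ofFn] at h
  have h1 : l1 n (RR n 0) = (List.ofFn (fun i : Fin n =>
      cm (gen n (i.succ, 0)) (gen n (i.succ, 1)))).prod := by
    unfold RR
    rw [map_list_prod, List.map_ofFn]
    have : ((l1 n : FreeGroup (LJ n) → ClosedSurfaceGroup (n + 1)) ∘
        fun i : Fin n => cm (fx n 0 (i, 0)) (fx n 0 (i, 1))) =
        fun i : Fin n => cm (gen n (i.succ, 0)) (gen n (i.succ, 1)) := by
      funext i
      simp only [Function.comp_apply, map_cm, l1_x, zpow_zero, one_mul, inv_one, mul_one]
    rw [this]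
  rw [h1]
  exact h

/-- the compatibility of the left inverse -/
lemma l1_phi (n : ℕ) (x : FreeGroup (LJ n)) :
    l1 n (phi n x) = gen n (0, 0) * l1 n x * (gen n (0, 0))⁻¹ := by
  have h : (l1 n).comp (phi n).toMonoidHom = (MulAut.conj (gen n (0, 0))).toMonoidHom.comp (l1 n) := by
    apply hom_ext_LJ
    · show l1 n (phi n (fb n)) = gen n (0, 0) * l1 n (fb n) * (gen n (0, 0))⁻¹
      rw [phi_apply, phl_b, map_mul, map_inv, l1_b]
      have h1 := gen_rel n
      have h2 : (l1 n (RR n 0))⁻¹ = cm (gen n (0, 0)) (gen n (0, 1)) :=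
        inv_eq_of_mul_eq_one_left h1
      rw [h2]
      unfold cm
      group
    · intro j x
      show l1 n (phi n (fx n j x)) = gen n (0, 0) * l1 n (fx n j x) * (gen n (0, 0))⁻¹
      rw [phi_apply, phl_x, l1_x, l1_x]
      have : ∀ a : ClosedSurfaceGroup (n + 1), a ^ (j + 1) = a * a ^ j := by
        intro a
        rw [Int.add_comm, zpow_one_add]
      rw [this]
      group
  exact DFunLike.congr_fun h x

lemma l1_phi_zpow (n : ℕ) (m : ℤ) (x : FreeGroup (LJ n)) :
    l1 n (((phi n : MulAut (FreeGroup (LJ n))) ^ m) x) =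
      gen n (0, 0) ^ m * l1 n x * (gen n (0, 0) ^ m)⁻¹ := by
  induction m using Int.induction_on generalizing x with
  | zero => simp
  | succ k ih =>
    rw [zpow_add_one, MulAut.mul_apply, ih, l1_phi, zpow_add_one]
    group
  | pred k ih =>
    have h1 : ∀ y, l1 n ((phi n : MulAut (FreeGroup (LJ n)))⁻¹ y) =
        (gen n (0, 0))⁻¹ * l1 n y * gen n (0, 0) := by
      intro y
      have h2 := l1_phi n ((phi n : MulAut (FreeGroup (LJ n)))⁻¹ y)
      have h3 : phi n ((phi n : MulAut (FreeGroup (LJ n)))⁻¹ y) = y :=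
        MulAut.apply_inv_self (FreeGroup (LJ n)) (phi n) y
      rw [h3] at h2
      rw [h2]; group
    rw [zpow_sub_one, MulAut.mul_apply, ih, h1, zpow_sub_one]
    group

/-- the left inverse -/
noncomputable def lm (n : ℕ) : GG n →* ClosedSurfaceGroup (n + 1) :=
  SemidirectProduct.lift (l1 n) (zpowersHom _ (gen n (0, 0))) (by
    intro m
    apply MonoidHom.ext
    intro x
    show l1 n (th n m x) = (gen n (0, 0)) ^ (Multiplicative.toAdd m) * l1 n x *
      ((gen n (0, 0)) ^ (Multiplicative.toAdd m))⁻¹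
    rw [th_apply, l1_phi_zpow])

lemma lm_jm (n : ℕ) (x : ClosedSurfaceGroup (n + 1)) : lm n (jm n x) = x := by
  have h : (lm n).comp (jm n) = MonoidHom.id _ := by
    apply PresentedGroup.ext
    rintro ⟨i, ε⟩
    show lm n (jm n (gen n (i, ε))) = gen n (i, ε)
    rw [jm_gen]
    unfold fS lm
    refine Fin.cases ?_ (fun i => ?_) i
    · simp only [Fin.cases_zero]
      by_cases h0 : ε = 0
      · subst h0
        simp [SemidirectProduct.lift_inr]
      · have h1 : ε = 1 := by omega
        subst h1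
        simp [SemidirectProduct.lift_inl, l1_b]
    · simp only [Fin.cases_succ]
      rw [SemidirectProduct.lift_inl, l1_x]
      simp
  exact DFunLike.congr_fun h x

lemma jm_injective (n : ℕ) : Function.Injective (jm n) :=
  Function.LeftInverse.injective (lm_jm n)

/-! ### signs -/

lemma cf_one_list {J : Type} (L : List (FreeGroup J)) (h : ∀ x ∈ L, cf 1 x = 0) : cf 1 L.prod = 0 := by
  induction L with
  | nil => exact cf_one_one
  | cons a L ih =>
    rw [List.prod_cons, cf_one_mul, h a (by simp), ih (fun x hx => h x (by simp [hx])), add_zero]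

lemma cf_one_RR (n : ℕ) (j : ℤ) : cf 1 (RR n j) = 0 := by
  apply cf_one_list
  intro x hx
  rw [List.mem_ofFn] at hx
  obtain ⟨i, rfl⟩ := hx
  exact cf_one_comm _ _

lemma good_phl (n : ℕ) (s : ℤ) (R : FreeGroup (LJ n)) (hR : cf 1 R = 0) : Good (phl n s R) := by
  apply good_of_shift _ (WithBot.map (shl n s)) ((shl_mono n s).withBot_map)
  intro y
  induction y using WithBot.recBotCoe with
  | bot =>
    have h1 := phl_b n s R
    unfold fb at h1
    rw [h1, cf_one_mul, hR, zero_add, cf_one_of]
    rfl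
  | coe z =>
    have h1 : phl n s R (FreeGroup.of ((z : LT n) : LJ n)) = FreeGroup.of ((shl n s z : LT n) : LJ n) := by
      unfold phl
      rw [FreeGroup.lift_apply_of]
      rfl
    rw [h1, cf_one_of]
    rfl

lemma good_id {J : Type} [LinearOrder J] : Good (fun x : FreeGroup J => x) :=
  fun _ _ _ hx => ⟨hx, fun h => h⟩

lemma good_phi_zpow (n : ℕ) (m : ℤ) :
    Good (fun x => ((phi n : MulAut (FreeGroup (LJ n))) ^ m) x) := by
  have h1 : Good (fun x => phi n x) :=
    good_phl n 1 (RR n 0)⁻¹ (by rw [cf_one_inv, cf_one_RR, neg_zero])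
  have h2 : Good (fun x => (phi n).symm x) := good_phl n (-1) (RR n (-1)) (cf_one_RR n _)
  induction m using Int.induction_on with
  | zero => exact good_id
  | succ k ih =>
    have e : (fun x => ((phi n : MulAut (FreeGroup (LJ n))) ^ ((k : ℤ) + 1)) x) =
        (fun x => ((phi n : MulAut (FreeGroup (LJ n))) ^ (k : ℤ)) (phi n x)) := by
      funext x
      rw [zpow_add_one, MulAut.mul_apply]
    rw [e]
    exact Good.comp ih h1
  | pred k ih =>
    have e : (fun x => ((phi n : MulAut (FreeGroup (LJ n))) ^ (-(k : ℤ) - 1)) x) =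
        (fun x => ((phi n : MulAut (FreeGroup (LJ n))) ^ (-(k : ℤ))) ((phi n).symm x)) := by
      funext x
      rw [zpow_sub_one, MulAut.mul_apply]
      rfl
    rw [e]
    exact Good.comp ih h2

/-- **closed surface groups have the separation property** -/
theorem hasSep_surface_succ (n : ℕ) : HasSep (ClosedSurfaceGroup (n + 1)) := by
  let P0 : TPO (GG n) :=
    { nn := fun a => 0 ≤ Multiplicative.toAdd a.right
      tot := by
        intro a
        rw [SemidirectProduct.inv_right, toAdd_inv]
        rcases le_total 0 (Multiplicative.toAdd a.right) with h | h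
        · exact Or.inl h
        · exact Or.inr (by linarith)
      mul := by
        intro a b ha hb
        rw [SemidirectProduct.mul_right, toAdd_mul]
        linarith
      conj := by
        intro g a ha
        rw [SemidirectProduct.mul_right, SemidirectProduct.mul_right, SemidirectProduct.inv_right,
          toAdd_mul, toAdd_mul, toAdd_inv]
        linarith }
  have hP0 : ∀ a, P0.null a ↔ ∃ x, (inl x : GG n) = a := by
    intro a
    constructor
    · rintro ⟨h1, h2⟩
      have h1' : 0 ≤ Multiplicative.toAdd a.right := h1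
      have h2' : 0 ≤ Multiplicative.toAdd a⁻¹.right := h2
      rw [SemidirectProduct.inv_right, toAdd_inv] at h2'
      have h3 : Multiplicative.toAdd a.right = 0 := by linarith
      have h4 : a.right = 1 := by
        have := congrArg Multiplicative.ofAdd h3
        simpa using this
      refine ⟨a.left, ?_⟩
      rw [← inl_left_mul_inr_right a, h4, map_one, mul_one]
      simp
    · rintro ⟨x, rfl⟩
      constructor
      · show 0 ≤ Multiplicative.toAdd (inl x : GG n).right
        rw [right_inl]; exact le_refl _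
      · show 0 ≤ Multiplicative.toAdd (inl x : GG n)⁻¹.right
        rw [SemidirectProduct.inv_right, right_inl, inv_one]; exact le_refl _
  refine hasSep_of_ext (J := LJ n) (inl : FreeGroup (LJ n) →* GG n) inl_injective P0 hP0 ?_ ?_ (jm n)
    (jm_injective n)
  · intro g x
    refine ⟨g.left * (th n g.right x) * g.left⁻¹, ?_, ?_⟩
    · conv_rhs => rw [← inl_left_mul_inr_right g]
      rw [map_mul, map_mul, inl_aut, mul_inv_rev, map_inv, map_inv]
      simp only [mul_assoc]
    · intro k hk hx
      have h1 := good_phi_zpow n (Multiplicative.toAdd g.right) k hk x hx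
      have h2 : th n g.right x =
        ((phi n : MulAut (FreeGroup (LJ n))) ^ (Multiplicative.toAdd g.right)) x := by
        rw [th_apply]
      rw [h2]
      obtain ⟨h3, h4⟩ := DD_conj hk g.left h1.1
      exact ⟨h3, fun h => by rw [h4]; exact h1.2 h⟩
  · intro a ha
    have h1 : a ∈ (rightHom : GG n →* Multiplicative ℤ).ker := by
      have h2 : commutator (GG n) ≤ (rightHom : GG n →* Multiplicative ℤ).ker := by
        rw [commutator_def, Subgroup.commutator_le]
        intro x _ y _
        rw [MonoidHom.mem_ker, map_commutatorElement]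
        rw [commutatorElement_eq_one_iff_mul_comm]
        exact mul_comm _ _
      exact h2 ha
    rw [← range_inl_eq_ker_rightHom] at h1
    exact h1

theorem hasSep_surface (g : ℕ) : HasSep (ClosedSurfaceGroup g) := by
  cases g with
  | zero =>
    intro c e hc _
    exfalso
    apply hc
    obtain ⟨x, rfl⟩ := PresentedGroup.mk_surjective _ c
    have : x = 1 := Subsingleton.elim _ _
    rw [this, map_one]
  | succ n => exact hasSep_surface_succ n

/-- the separation property is invariant under isomorphism -/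
lemma HasSep.of_equiv {Γ Δ : Type} [Group Γ] [Group Δ] (h : HasSep Δ) (e : Γ ≃* Δ) : HasSep Γ := by
  intro c d hc hd
  obtain ⟨P, h1, h2, n, hn⟩ := h (e c) (e d)
    (by intro h; exact hc (e.injective (by rw [h, map_one])))
    (by intro h; exact hd (e.injective (by rw [h, map_one])))
  refine ⟨P.comap e.toMonoidHom, ?_, ?_, n, ?_⟩
  · rw [TPO.comap_null]; exact h1
  · rw [TPO.comap_null]; exact h2
  · intro a ha b hb
    rw [TPO.comap_null]
    have hmem : ∀ a ∈ commutator Γ, e.toMonoidHom a ∈ commutator Δ := by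
      intro a ha
      have h1 : (commutator Γ).map e.toMonoidHom ≤ commutator Δ := by
        rw [commutator_def, commutator_def, Subgroup.map_commutator]
        exact Subgroup.commutator_mono le_top le_top
      exact h1 (Subgroup.mem_map_of_mem _ ha)
    have hitc : ∀ n, e.toMonoidHom (itc a b n) = itc (e.toMonoidHom a) (e.toMonoidHom b) n := by
      intro n
      induction n with
      | zero => rfl
      | succ n ih =>
        show e.toMonoidHom (itc a b n * b * (itc a b n)⁻¹ * b⁻¹) =
          itc (e.toMonoidHom a) (e.toMonoidHom b) n * e.toMonoidHom b *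
            (itc (e.toMonoidHom a) (e.toMonoidHom b) n)⁻¹ * (e.toMonoidHom b)⁻¹
        rw [map_mul, map_mul, map_mul, map_inv, map_inv, ih]
    rw [hitc]
    exact hn _ (hmem a ha) _ (hmem b hb)

theorem hasSep_of_isSurfaceGroup {Γ : Type} [Group Γ] (h : IsSurfaceGroup Γ) : HasSep Γ := by
  rcases h with ⟨X, ⟨e⟩⟩ | ⟨g, ⟨e⟩⟩
  · exact (hasSep_freeGroup X).of_equiv e
  · exact (hasSep_surface g).of_equiv e

end Pool.Agent.TH94.Gol
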